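import Mathlib

/-!
Local colourings: every vertex `x` colours the other vertices, and all four vertices contain a
locally monochromatic triple. The relation `R` between the vertices, 3-cycles and maximal vertices.
-/

set_option autoImplicit false
open Finset

namespace Pool.Agent.DL

variable {V κ : Type*}

/-- each of the three vertices sees the two others in the same colour -/
def LM (c : V → V → κ) (x y z : V) : Prop := c x y = c x z ∧ c y x = c y z ∧ c z x = c z y

theorem LM.rot {c : V → V → κ} {x y z : V} (h : LM c x y z) : LM c y z x :=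
  ⟨h.2.1.symm, h.2.2.symm, h.1⟩

theorem LM.swap {c : V → V → κ} {x y z : V} (h : LM c x y z) : LM c x z y :=
  ⟨h.1.symm, h.2.2, h.2.1⟩

/-- every four vertices contain a locally monochromatic triple -/
def Cov (c : V → V → κ) : Prop :=
  ∀ a b d e : V, a ≠ b → a ≠ d → a ≠ e → b ≠ d → b ≠ e → d ≠ e →
    LM c a b d ∨ LM c a b e ∨ LM c a d e ∨ LM c b d e

/-- some vertex `z` of `S` has the same colour as `y` at `x`, but not the same colour as `x` at `y` -/
def R (c : V → V → κ) (S : Finset V) (x y : V) : Prop :=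
  ∃ z ∈ S, z ≠ x ∧ z ≠ y ∧ c x z = c x y ∧ c y z ≠ c y x

variable {c : V → V → κ} {S : Finset V}

theorem R.ne {x y : V} (h : R c S x y) : x ≠ y := by
  obtain ⟨z, -, -, -, h1, h2⟩ := h
  rintro rfl
  exact h2 h1

theorem nest' (h : Cov c) {x y z w : V} (hxy : x ≠ y) (hzx : z ≠ x) (hzy : z ≠ y)
    (h1 : c x z = c x y) (h2 : c y z ≠ c y x) (hwx : w ≠ x) (hwy : w ≠ y)
    (h3 : c x w ≠ c x y) : c y w ≠ c y x := by
  intro h4
  have hzw : z ≠ w := by
    rintro rfl
    exact h3 h1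
  rcases h x y z w hxy hzx.symm hwx.symm hzy.symm hwy.symm hzw with e | e | e | e
  · exact h2 e.2.1.symm
  · exact h3 e.1.symm
  · exact h3 (e.1.symm.trans h1)
  · exact h2 (e.1.trans h4)

theorem R.nest (h : Cov c) {x y w : V} (hR : R c S x y) (hwx : w ≠ x) (hwy : w ≠ y)
    (h3 : c x w ≠ c x y) : c y w ≠ c y x := by
  obtain ⟨z, -, hzx, hzy, h1, h2⟩ := id hR
  exact nest' h hR.ne hzx hzy h1 h2 hwx hwy h3

theorem R.asymm (h : Cov c) {x y : V} (hR : R c S x y) : ¬ R c S y x := by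
  intro hR'
  obtain ⟨z, -, hzx, hzy, h1, h2⟩ := id hR
  exact hR'.nest h hzy hzx h2 h1

/-- a vertex with three colours -/
theorem three (h : Cov c) {v p q r : V} (hp : p ≠ v) (hq : q ≠ v) (hr : r ≠ v)
    (h1 : c v p ≠ c v q) (h2 : c v p ≠ c v r) (h3 : c v q ≠ c v r) {u a b : V} (hu : u ≠ v)
    (ha : a ≠ v) (hb : b ≠ v) (h4 : c v a ≠ c v u) (h5 : c v b ≠ c v u) : c u a = c u b := by
  have key : ∀ a b : V, a ≠ v → b ≠ v → c v a ≠ c v u → c v b ≠ c v u → c v a ≠ c v b →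
      c u a = c u b := by
    intro a b ha hb h4 h5 h6
    have d1 : u ≠ a := by
      rintro rfl
      exact h4 rfl
    have d2 : u ≠ b := by
      rintro rfl
      exact h5 rfl
    have d3 : a ≠ b := by
      rintro rfl
      exact h6 rfl
    rcases h v u a b hu.symm ha.symm hb.symm d1 d2 d3 with e | e | e | e
    · exact absurd e.1.symm h4
    · exact absurd e.1.symm h5
    · exact absurd e.1 h6
    · exact e.1
  by_cases h6 : c v a = c v b
  · have : ∃ t, t ≠ v ∧ c v t ≠ c v u ∧ c v t ≠ c v a := by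
      by_contra hcon
      push Not at hcon
      by_cases e0 : c v p = c v u
      · have e1 := hcon q hq (fun e => h1 (e0.trans e.symm))
        have e2 := hcon r hr (fun e => h2 (e0.trans e.symm))
        exact h3 (e1.trans e2.symm)
      · have e1 := hcon p hp e0
        by_cases e2 : c v q = c v u
        · have e3 := hcon r hr (fun e => h3 (e2.trans e.symm))
          exact h2 (e1.trans e3.symm)
        · exact h1 (e1.trans (hcon q hq e2).symm)
    obtain ⟨t, ht, h7, h8⟩ := this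
    rw [key a t ha ht h4 h7 h8.symm, key b t hb ht h5 h7 (by rw [← h6]; exact h8.symm)]
  · exact key a b ha hb h4 h5 h6

/-- `x < y ≤ z ≤ x`: all three separate the two others -/
theorem weak (h : Cov c) {x y z : V} (hy : y ∈ S) (hx : x ∈ S) (hxz : x ≠ z)
    (hyz : y ≠ z) (hR : R c S x y)
    (h1 : ∀ w ∈ S, w ≠ y → w ≠ z → c y w ≠ c y z → c z w ≠ c z y)
    (h2 : ∀ w ∈ S, w ≠ z → w ≠ x → c z w ≠ c z x → c x w ≠ c x z) :
    c x y ≠ c x z ∧ c y x ≠ c y z ∧ c z x ≠ c z y := by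
  have hxy := hR.ne
  have all : ¬ (c x y = c x z ∧ c y x = c y z ∧ c z x = c z y) := by
    rintro ⟨e1, e2, e3⟩
    obtain ⟨w, hw, hwx, hwy, h3, h4⟩ := id hR
    have hwz : w ≠ z := by
      rintro rfl
      exact h4 e2.symm
    have h5 : c z w ≠ c z y := h1 w hw hwy hwz (by rw [← e2]; exact h4)
    have h6 : c x w ≠ c x z := h2 w hw hwz hwx (by rw [e3]; exact h5)
    exact h6 (h3.trans e1)
  have i1 : c x y = c x z → c z x = c z y := by
    intro e
    by_contra h3
    exact h2 y hy hyz hxy.symm (fun e' => h3 e'.symm) e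
  have i2 : c z x = c z y → c y x = c y z := by
    intro e
    by_contra h3
    exact h1 x hx hxy hxz h3 e
  have i3 : c y x = c y z → c x y = c x z := by
    intro e
    by_contra h3
    exact hR.nest h hxz.symm hyz.symm (fun e' => h3 e'.symm) e.symm
  refine ⟨fun e => all ⟨e, i2 (i1 e), i1 e⟩, fun e => all ⟨i3 e, e, i1 (i3 e)⟩,
    fun e => all ⟨i3 (i2 e), i2 e, e⟩⟩

/-- a cyclic triple -/
def Cyc (c : V → V → κ) (S : Finset V) (x y z : V) : Prop :=
  x ∈ S ∧ y ∈ S ∧ z ∈ S ∧ R c S x y ∧ R c S y z ∧ R c S z x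

theorem Cyc.rot {x y z : V} (h : Cyc c S x y z) : Cyc c S y z x :=
  ⟨h.2.1, h.2.2.1, h.1, h.2.2.2.2.1, h.2.2.2.2.2, h.2.2.2.1⟩

theorem Cyc.sep (h : Cov c) {x y z : V} (hC : Cyc c S x y z) :
    c x y ≠ c x z ∧ c y x ≠ c y z ∧ c z x ≠ c z y := by
  obtain ⟨hx, hy, hz, h1, h2, h3⟩ := hC
  exact weak h hy hx h3.ne.symm h2.ne h1 (fun w _ a b e => h2.nest h a b e)
    (fun w _ a b e => h3.nest h a b e)

/-- the tie lemma -/
theorem tie (h : Cov c) {a b d : V} (ha : a ∈ S) (hb : b ∈ S) (h1 : R c S a b) (h2 : R c S b d)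
    (had : a ≠ d) (h3 : ¬ R c S a d) (h4 : ¬ R c S d a) :
    (∀ w ∈ S, w ≠ a → w ≠ b → c b w ≠ c b a) ∧
    (∀ w ∈ S, w ≠ a → w ≠ b → w ≠ d → c a w = c a b → c d w = c d b) ∧ c a b ≠ c a d := by
  have t1 : ∀ w ∈ S, w ≠ d → w ≠ a → c d w ≠ c d a → c a w ≠ c a d := by
    intro w hw hwd hwa e1 e2
    exact h3 ⟨w, hw, hwa, hwd, e2, e1⟩
  have t2 : ∀ w ∈ S, w ≠ d → w ≠ a → c a w ≠ c a d → c d w ≠ c d a := by
    intro w hw hwd hwa e1 e2
    exact h4 ⟨w, hw, hwd, hwa, e2, e1⟩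
  have hab := h1.ne
  have hbd := h2.ne
  obtain ⟨s1, s2, s3⟩ := weak h hb ha had hbd h1 (fun w _ a b e => h2.nest h a b e) t1
  have notM : ∀ w ∈ S, w ≠ a → w ≠ b → w ≠ d → ¬ LM c a b w := by
    intro w hw hwa hwb hwd e
    have e1 : c d w ≠ c d a := t2 w hw hwd hwa (by rw [← e.1]; exact s1)
    have e2 : c d w ≠ c d b := h2.nest h hwb hwd (by rw [← e.2.1]; exact s2)
    obtain ⟨w', hw', hwb', hwd', e3, e4⟩ := id h2
    have e5 := three h had hbd hwd s3 e1.symm e2.symm (u := b) (a := a) (b := w') hbd had hwd'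
      s3 e4
    exact s2 (e5.trans e3)
  have cases : ∀ w ∈ S, w ≠ a → w ≠ b → w ≠ d → LM c a d w ∨ LM c b d w := by
    intro w hw hwa hwb hwd
    rcases h a b d w hab had hwa.symm hbd hwb.symm hwd.symm with e | e | e | e
    · exact absurd e.1 s1
    · exact absurd e (notM w hw hwa hwb hwd)
    · exact Or.inl e
    · exact Or.inr e
  refine ⟨?_, ?_, s1⟩
  · intro w hw hwa hwb
    by_cases hwd : w = d
    · rw [hwd]
      exact fun e => s2 e.symm
    rcases cases w hw hwa hwb hwd with e | e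
    · exact h1.nest h hwa hwb (by rw [← e.1]; exact fun e' => s1 e'.symm)
    · rw [← e.1]
      exact fun e' => s2 e'.symm
  · intro w hw hwa hwb hwd e0
    rcases cases w hw hwa hwb hwd with e | e
    · exact absurd (e0.symm.trans e.1.symm) s1
    · exact e.2.1.symm

/-- no four vertices `a < b < d < e` with ties `a, d` and `b, e` -/
theorem no_chain (h : Cov c) {a b d e : V} (ha : a ∈ S) (hb : b ∈ S) (hd : d ∈ S)
    (h1 : R c S a b) (h2 : R c S b d) (h3 : R c S d e)
    (had : a ≠ d) (hbe : b ≠ e) (h4 : ¬ R c S a d) (h5 : ¬ R c S d a) (h6 : ¬ R c S b e)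
    (h7 : ¬ R c S e b) : False := by
  obtain ⟨-, t2, s1⟩ := tie h ha hb h1 h2 had h4 h5
  obtain ⟨t3, -, -⟩ := tie h hb hd h2 h3 hbe h6 h7
  obtain ⟨w, hw, hwa, hwb, e1, e2⟩ := id h1
  have hwd : w ≠ d := by
    rintro rfl
    exact s1 e1.symm
  exact t3 w hw hwb hwd (t2 w hw hwa hwb hwd e1)

/-- walks of the relation `R` in `S` -/
def walk (c : V → V → κ) (S : Finset V) : ℕ → V → V → Prop
  | 0, a, b => R c S a b
  | k + 1, a, b => ∃ d ∈ S, R c S a d ∧ walk c S k d b

theorem cyc_of_walk (h : Cov c) : ∀ k : ℕ, ∀ a ∈ S, walk c S k a a → ∃ x y z, Cyc c S x y z := by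
  intro k
  induction k using Nat.strong_induction_on with
  | _ k ih =>
    intro a ha hw
    match k, ih, hw with
    | 0, _, hw => exact absurd rfl hw.ne
    | 1, _, hw =>
      obtain ⟨d, hd, h1, h2⟩ := hw
      exact absurd h2 (h1.asymm h)
    | 2, _, hw =>
      obtain ⟨b, hb, h1, d, hd, h2, h3⟩ := hw
      exact ⟨a, b, d, ha, hb, hd, h1, h2, h3⟩
    | k + 3, ih, hw =>
      obtain ⟨b, hb, h1, d, hd, h2, e, he, h3, h4⟩ := hw
      have had : a ≠ d := by
        rintro rfl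
        exact h1.asymm h h2
      have hbe : b ≠ e := by
        rintro rfl
        exact h2.asymm h h3
      by_cases c1 : R c S a d
      · exact ih (k + 2) (by omega) a ha ⟨d, hd, c1, e, he, h3, h4⟩
      by_cases c2 : R c S d a
      · exact ⟨a, b, d, ha, hb, hd, h1, h2, c2⟩
      by_cases c3 : R c S b e
      · exact ih (k + 2) (by omega) a ha ⟨b, hb, h1, e, he, c3, h4⟩
      by_cases c4 : R c S e b
      · exact ⟨b, d, e, hb, hd, he, h2, h3, c4⟩
      exact (no_chain h ha hb hd h1 h2 h3 had hbe c1 c2 c3 c4).elim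

/-- without cyclic triples there is a maximal vertex -/
theorem exists_max (h : Cov c) (hS : S.Nonempty) (hC : ∀ x y z, ¬ Cyc c S x y z) :
    ∃ x ∈ S, ∀ y ∈ S, ¬ R c S x y := by
  by_contra hcon
  push Not at hcon
  have hf : ∀ x : S, ∃ y : S, R c S x y := by
    intro x
    obtain ⟨y, hy, h1⟩ := hcon x x.2
    exact ⟨⟨y, hy⟩, h1⟩
  choose f hf using hf
  obtain ⟨x0, hx0⟩ := hS
  have hw : ∀ k : ℕ, ∀ x : S, walk c S k x (f^[k + 1] x) := by
    intro k
    induction k with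
    | zero =>
      intro x
      exact hf x
    | succ k ih =>
      intro x
      refine ⟨f x, (f x).2, hf x, ?_⟩
      exact ih (f x)
  -- pigeonhole
  obtain ⟨i, j, hij, he⟩ := Finite.exists_ne_map_eq_of_infinite
    (fun k : ℕ => f^[k] (⟨x0, hx0⟩ : S))
  have key : ∀ i j : ℕ, i < j → f^[i] (⟨x0, hx0⟩ : S) = f^[j] (⟨x0, hx0⟩ : S) → False := by
    intro i j hij he
    have h1 := hw (j - i - 1) (f^[i] (⟨x0, hx0⟩ : S))
    rw [← Function.iterate_add_apply] at h1
    have h2 : j - i - 1 + 1 + i = j := by omega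
    rw [h2, ← he] at h1
    obtain ⟨x, y, z, h3⟩ := cyc_of_walk h _ _ (f^[i] (⟨x0, hx0⟩ : S)).2 h1
    exact hC x y z h3
  rcases lt_or_gt_of_ne hij with h1 | h1
  · exact key i j h1 he
  · exact key j i h1 he.symm

/-- cyclic triples of subsets are cyclic triples -/
theorem Cyc.mono {S' : Finset V} (hS : S' ⊆ S) {x y z : V} (hC : Cyc c S' x y z) :
    Cyc c S x y z := by
  have hm : ∀ x y : V, R c S' x y → R c S x y := by
    rintro x y ⟨w, hw, h1⟩
    exact ⟨w, hS hw, h1⟩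
  exact ⟨hS hC.1, hS hC.2.1, hS hC.2.2.1, hm _ _ hC.2.2.2.1, hm _ _ hC.2.2.2.2.1,
    hm _ _ hC.2.2.2.2.2⟩

/-- two vertices of the same colour at a maximal vertex -/
theorem max_same {x : V} (hx : ∀ y ∈ S, ¬ R c S x y) {y z : V} (hy : y ∈ S) (hz : z ∈ S)
    (hyx : y ≠ x) (hzx : z ≠ x) (hyz : y ≠ z) (h1 : c x y = c x z) : LM c x y z := by
  refine ⟨h1, ?_, ?_⟩
  · by_contra h2
    exact hx y hy ⟨z, hz, hzx, fun e => hyz e.symm, h1.symm, fun e => h2 e.symm⟩
  · by_contra h2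
    exact hx z hz ⟨y, hy, hyx, hyz, h1, fun e => h2 e.symm⟩

end Pool.Agent.DL
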