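import Pool.Agent.DL.Struct

/-! Without cyclic triples there are many locally monochromatic triples. -/

set_option autoImplicit false
open Finset

namespace Pool.Agent.DL

variable {V κ : Type*} {c : V → V → κ} {S : Finset V}

/-- locally monochromatic sets -/
def Loc (c : V → V → κ) (e : Finset V) : Prop :=
  ∀ x ∈ e, ∀ y ∈ e, ∀ z ∈ e, y ≠ x → z ≠ x → c x y = c x z

theorem loc_iff [DecidableEq V] {x y z : V} (hxy : x ≠ y) (hxz : x ≠ z) (hyz : y ≠ z) :
    Loc c ({x, y, z} : Finset V) ↔ LM c x y z := by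
  constructor
  · intro h
    have hx : x ∈ ({x, y, z} : Finset V) := by simp
    have hy : y ∈ ({x, y, z} : Finset V) := by simp
    have hz : z ∈ ({x, y, z} : Finset V) := by simp
    exact ⟨h x hx y hy z hz hxy.symm hxz.symm, h y hy x hx z hz hxy hyz.symm,
      h z hz x hx y hy hxz hyz⟩
  · rintro ⟨h1, h2, h3⟩ a ha b hb d hd hba hda
    simp only [mem_insert, mem_singleton] at ha hb hd
    rcases ha with rfl | rfl | rfl <;> rcases hb with rfl | rfl | rfl <;>
      rcases hd with rfl | rfl | rfl <;>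
      first
        | rfl
        | exact absurd rfl hba
        | exact absurd rfl hda
        | assumption
        | (symm; assumption)

open scoped Classical

/-- the number of locally monochromatic triples in `S` -/
noncomputable def N (c : V → V → κ) (S : Finset V) : ℕ :=
  ((powersetCard 3 S).filter (Loc c)).card

/-- the number of locally monochromatic triples of `x` and two vertices of `S` -/
noncomputable def D (c : V → V → κ) (x : V) (S : Finset V) : ℕ :=
  ((powersetCard 2 S).filter fun p => Loc c (insert x p)).card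

theorem N_insert {x : V} (hx : x ∉ S) : N c (insert x S) = N c S + D c x S := by
  unfold N D
  rw [powersetCard_succ_insert hx, filter_union, card_union_of_disjoint, filter_image,
    card_image_of_injOn]
  · intro p hp q hq hpq
    have hp' : x ∉ p := fun h => hx ((mem_powersetCard.1 (mem_filter.1 hp).1).1 h)
    have hq' : x ∉ q := fun h => hx ((mem_powersetCard.1 (mem_filter.1 hq).1).1 h)
    have := congrArg (fun t : Finset V => t.erase x) hpq
    simpa [erase_insert hp', erase_insert hq'] using this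
  · rw [disjoint_left]
    intro e he he'
    have h1 : x ∉ e := fun h => hx ((mem_powersetCard.1 (mem_filter.1 he).1).1 h)
    obtain ⟨p, -, rfl⟩ := mem_image.1 (mem_filter.1 he').1
    exact h1 (mem_insert_self _ _)

theorem D_mono {x : V} {S' : Finset V} (h : S' ⊆ S) : D c x S' ≤ D c x S := by
  unfold D
  exact card_le_card (filter_subset_filter _ (powersetCard_mono h))

/-- two colours at `x` -/
theorem D_two {x : V} (hx : x ∉ S) {P : Finset V} (hP : P ⊆ S)
    (h1 : ∀ y ∈ P, ∀ z ∈ P, y ≠ z → LM c x y z)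
    (h2 : ∀ y ∈ S \ P, ∀ z ∈ S \ P, y ≠ z → LM c x y z) :
    P.card.choose 2 + (S \ P).card.choose 2 ≤ D c x S := by
  unfold D
  have hd : Disjoint (powersetCard 2 P) (powersetCard 2 (S \ P)) := by
    rw [disjoint_left]
    intro p hp hp'
    obtain ⟨h3, h4⟩ := mem_powersetCard.1 hp
    obtain ⟨h5, -⟩ := mem_powersetCard.1 hp'
    obtain ⟨a, b, -, rfl⟩ := card_eq_two.1 h4
    have ha : a ∈ ({a, b} : Finset V) := by simp
    exact (mem_sdiff.1 (h5 ha)).2 (h3 ha)
  rw [← card_powersetCard 2 P, ← card_powersetCard 2 (S \ P), ← card_union_of_disjoint hd]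
  refine card_le_card ?_
  intro p hp
  rw [mem_union] at hp
  have key : ∀ Q : Finset V, Q ⊆ S → (∀ y ∈ Q, ∀ z ∈ Q, y ≠ z → LM c x y z) →
      p ∈ powersetCard 2 Q → p ∈ (powersetCard 2 S).filter fun p => Loc c (insert x p) := by
    intro Q hQ hL hp
    obtain ⟨h3, h4⟩ := mem_powersetCard.1 hp
    refine mem_filter.2 ⟨mem_powersetCard.2 ⟨h3.trans hQ, h4⟩, ?_⟩
    obtain ⟨a, b, hab, rfl⟩ := card_eq_two.1 h4
    have ha : a ∈ Q := h3 (by simp)
    have hb : b ∈ Q := h3 (by simp)
    refine (loc_iff ?_ ?_ hab).2 (hL a ha b hb hab)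
    · rintro rfl
      exact hx (hQ ha)
    · rintro rfl
      exact hx (hQ hb)
  rcases hp with hp | hp
  · exact key P hP h1 hp
  · exact key (S \ P) sdiff_subset h2 hp

/-- all pairs are completed by `x` or by `z` -/
theorem D_pair {x z : V} (hx : x ∉ S) (hz : z ∉ S)
    (h : ∀ u ∈ S, ∀ v ∈ S, u ≠ v → LM c x u v ∨ LM c z u v) :
    S.card.choose 2 ≤ D c x S + D c z S := by
  unfold D
  rw [← card_powersetCard 2 S]
  refine le_trans (card_le_card ?_) (card_union_le _ _)
  intro p hp
  obtain ⟨h3, h4⟩ := mem_powersetCard.1 hp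
  obtain ⟨a, b, hab, rfl⟩ := card_eq_two.1 h4
  have ha : a ∈ S := h3 (by simp)
  have hb : b ∈ S := h3 (by simp)
  have nx : x ≠ a ∧ x ≠ b := ⟨by rintro rfl; exact hx ha, by rintro rfl; exact hx hb⟩
  have nz : z ≠ a ∧ z ≠ b := ⟨by rintro rfl; exact hz ha, by rintro rfl; exact hz hb⟩
  rw [mem_union, mem_filter, mem_filter]
  rcases h a ha b hb hab with e | e
  · exact Or.inl ⟨hp, (loc_iff nx.1 nx.2 hab).2 e⟩
  · exact Or.inr ⟨hp, (loc_iff nz.1 nz.2 hab).2 e⟩

/-- the bound without cyclic triples -/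
def H (n : ℕ) : ℕ := ∑ j ∈ range (n - 1), j ^ 2 / 4

theorem H_succ (n : ℕ) : H (n + 1) ≤ H n + (n - 1) ^ 2 / 4 := by
  unfold H
  rcases n with _ | n
  · simp
  · simp only [Nat.add_sub_cancel]
    rw [sum_range_succ]

theorem two_le (a b : ℕ) : (a + b - 1) ^ 2 / 4 ≤ a.choose 2 + b.choose 2 := by
  rcases Nat.eq_zero_or_pos (a + b) with h | h
  · have : a = 0 := by omega
    have : b = 0 := by omega
    subst_vars
    simp
  obtain ⟨m, hm⟩ : ∃ m, a + b = m + 1 := ⟨a + b - 1, by omega⟩
  rw [hm, Nat.add_sub_cancel]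
  rw [Nat.choose_two_right, Nat.choose_two_right]
  have ha : 2 * (a * (a - 1) / 2) = a * (a - 1) := Nat.mul_div_cancel' (Nat.even_mul_pred_self a).two_dvd
  have hb : 2 * (b * (b - 1) / 2) = b * (b - 1) := Nat.mul_div_cancel' (Nat.even_mul_pred_self b).two_dvd
  have e1 : ((a * (a - 1) : ℕ) : ℤ) = (a : ℤ) * ((a : ℤ) - 1) := by
    rcases a with _ | a
    · simp
    · push_cast
      simp
  have e2 : ((b * (b - 1) : ℕ) : ℤ) = (b : ℤ) * ((b : ℤ) - 1) := by
    rcases b with _ | b
    · simp
    · push_cast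
      simp
  have key : m ^ 2 ≤ 4 * (a * (a - 1) / 2 + b * (b - 1) / 2) + 1 := by
    have h1 : ((m : ℤ)) = (a : ℤ) + b - 1 := by
      have : ((a + b : ℕ) : ℤ) = ((m + 1 : ℕ) : ℤ) := by rw [hm]
      push_cast at this
      linarith
    have h2 : ((m ^ 2 : ℕ) : ℤ) ≤ ((4 * (a * (a - 1) / 2 + b * (b - 1) / 2) + 1 : ℕ) : ℤ) := by
      have h3 : ((4 * (a * (a - 1) / 2 + b * (b - 1) / 2) + 1 : ℕ) : ℤ) =
          2 * ((a : ℤ) * ((a : ℤ) - 1)) + 2 * ((b : ℤ) * ((b : ℤ) - 1)) + 1 := by
        have h4 : 4 * (a * (a - 1) / 2 + b * (b - 1) / 2) + 1 =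
            2 * (a * (a - 1)) + 2 * (b * (b - 1)) + 1 := by omega
        rw [h4]
        push_cast [e1, e2]
        rfl
      rw [h3]
      push_cast
      rw [h1]
      nlinarith [sq_nonneg ((a : ℤ) - b)]
    exact_mod_cast h2
  omega

theorem H_two (m : ℕ) : H (m + 2) ≤ H m + m.choose 2 := by
  have h1 := H_succ m
  have h2 := H_succ (m + 1)
  simp only [Nat.add_sub_cancel] at h2
  have h3 : m ^ 2 / 4 + (m - 1) ^ 2 / 4 ≤ m.choose 2 := by
    rcases m with _ | m
    · simp
    · simp only [Nat.add_sub_cancel]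
      rw [Nat.choose_two_right, Nat.add_sub_cancel]
      rcases Nat.even_or_odd' m with ⟨k, rfl | rfl⟩
      · have e1 : (2 * k + 1) ^ 2 = 4 * (k * k + k) + 1 := by ring
        have e2 : (2 * k) ^ 2 = 4 * (k * k) := by ring
        have e3 : (2 * k + 1) * (2 * k) = 2 * (2 * (k * k) + k) := by ring
        rw [e1, e2, e3]
        omega
      · have e1 : (2 * k + 1 + 1) ^ 2 = 4 * (k * k + 2 * k + 1) := by ring
        have e2 : (2 * k + 1) ^ 2 = 4 * (k * k + k) + 1 := by ring
        have e3 : (2 * k + 1 + 1) * (2 * k + 1) = 2 * (2 * (k * k) + 3 * k + 1) := by ring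
        rw [e1, e2, e3]
        omega
  have h4 : H (m + 2) ≤ H (m + 1) + m ^ 2 / 4 := h2
  omega

/-- a maximal vertex with three colours -/
theorem max_three (h : Cov c) {x : V} (hx : ∀ y ∈ S, ¬ R c S x y) {p q r : V}
    (hp : p ∈ S) (hq : q ∈ S) (hpx : p ≠ x) (hqx : q ≠ x) (hrx : r ≠ x)
    (h1 : c x p ≠ c x q) (h2 : c x p ≠ c x r) (h3 : c x q ≠ c x r) :
    ∃ z ∈ S, z ≠ x ∧ ∀ u ∈ S, ∀ v ∈ S, u ≠ x → u ≠ z → v ≠ x → v ≠ z → u ≠ v →
      LM c x u v ∨ LM c z u v := by
  by_contra hcon
  push Not at hcon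
  -- the pair of a vertex
  have key : ∀ z ∈ S, z ≠ x → ∃ u ∈ S, u ≠ x ∧ u ≠ z ∧ c x u = c x z ∧
      ∀ v, v ≠ x → c x v ≠ c x z → ¬ LM c z u v := by
    intro z hz hzx
    obtain ⟨u, hu, v, hv, ux, uz, vx, vz, uv, n1, n2⟩ := hcon z hz hzx
    have n3 : c x u ≠ c x v := fun e => n1 (max_same hx hu hv ux vx uv e)
    -- transfer
    have tr : ∀ u v : V, u ∈ S → u ≠ x → u ≠ z → v ≠ x → c x u = c x z → c x v ≠ c x z →
        ¬ LM c z u v → ∀ v', v' ≠ x → c x v' ≠ c x z → ¬ LM c z u v' := by
      intro u v hu ux uz vx e1 e2 e3 v' vx' e4 e5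
      apply e3
      have f1 : c z v = c z v' := three h hpx hqx hrx h1 h2 h3 hzx vx vx' e2 e4
      have f2 : c u v = c u v' := three h hpx hqx hrx h1 h2 h3 ux vx vx'
        (by rw [e1]; exact e2) (by rw [e1]; exact e4)
      have f3 : c v z = c v u := three h hpx hqx hrx h1 h2 h3 vx hzx ux
        (fun e => e2 e.symm) (by rw [e1]; exact fun e => e2 e.symm)
      exact ⟨by rw [f1]; exact e5.1, by rw [f2]; exact e5.2.1, f3⟩
    by_cases e1 : c x u = c x z
    · refine ⟨u, hu, ux, uz, e1, tr u v hu ux uz vx e1 (by rw [← e1]; exact fun e => n3 e.symm) n2⟩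
    · by_cases e2 : c x v = c x z
      · refine ⟨v, hv, vx, vz, e2, tr v u hv vx vz ux e2 e1 (fun e => n2 e.swap)⟩
      · exfalso
        rcases h x z u v hzx.symm ux.symm vx.symm uz.symm vz.symm uv with e | e | e | e
        · exact e1 e.1.symm
        · exact e2 e.1.symm
        · exact n3 e.1
        · exact n2 e
  obtain ⟨u, hu, ux, up, e1, f1⟩ := key p hp hpx
  obtain ⟨v, hv, vx, vq, e2, f2⟩ := key q hq hqx
  have d1 : p ≠ q := fun e => h1 (by rw [e])
  have d2 : p ≠ v := fun e => h1 (by rw [e, e2])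
  have d3 : u ≠ q := fun e => h1 (by rw [← e1, e])
  have d4 : u ≠ v := fun e => h1 (by rw [← e1, e, e2])
  rcases h p u q v up.symm d1 d2 d3 d4 vq.symm with e | e | e | e
  · exact f1 q hqx (fun e => h1 e.symm) e
  · exact f1 v vx (by rw [e2]; exact fun e => h1 e.symm) e
  · exact f2 p hpx h1 e.rot
  · exact f2 u ux (by rw [e1]; exact h1) e.rot

theorem acyclic_bound (h : Cov c) : ∀ m : ℕ, ∀ S : Finset V, S.card = m →
    (∀ x y z, ¬ Cyc c S x y z) → H m ≤ N c S := by
  intro m
  induction m using Nat.strong_induction_on with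
  | _ m ih =>
    intro S hS hC
    rcases S.eq_empty_or_nonempty with rfl | hne
    · rw [card_empty] at hS
      subst hS
      simp [H]
    obtain ⟨x, hx, hmax⟩ := exists_max h hne hC
    set S' := S.erase x with hS'
    have hxS' : x ∉ S' := notMem_erase _ _
    have hins : insert x S' = S := insert_erase hx
    have hcard : S'.card + 1 = m := by rw [hS', card_erase_add_one hx, hS]
    have hsub : S' ⊆ S := erase_subset _ _
    have hm : ∀ y ∈ S', y ∈ S ∧ y ≠ x := fun y hy => ⟨mem_of_mem_erase hy, ne_of_mem_erase hy⟩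
    by_cases hthree : ∃ p ∈ S', ∃ q ∈ S', ∃ r ∈ S', c x p ≠ c x q ∧ c x p ≠ c x r ∧ c x q ≠ c x r
    · obtain ⟨p, hp, q, hq, r, hr, h1, h2, h3⟩ := hthree
      obtain ⟨z, hz, hzx, hL⟩ := max_three h hmax (hm p hp).1 (hm q hq).1 (hm p hp).2 (hm q hq).2
        (hm r hr).2 h1 h2 h3
      set S'' := S'.erase z with hS''
      have hzS' : z ∈ S' := mem_erase.2 ⟨hzx, hz⟩
      have hzS'' : z ∉ S'' := notMem_erase _ _
      have hins' : insert z S'' = S' := insert_erase hzS'
      have hcard' : S''.card + 1 = S'.card := by rw [hS'', card_erase_add_one hzS']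
      have hxS'' : x ∉ S'' := fun h => hxS' (mem_of_mem_erase h)
      have hi := ih S''.card (by omega) S'' rfl (fun a b d hc =>
        hC a b d (hc.mono ((erase_subset _ _).trans hsub)))
      have hd := D_pair (c := c) hxS'' hzS'' (by
        intro u hu v hv huv
        have hu' := mem_of_mem_erase hu
        have hv' := mem_of_mem_erase hv
        exact hL u (hm u hu').1 v (hm v hv').1 (hm u hu').2 (ne_of_mem_erase hu) (hm v hv').2
          (ne_of_mem_erase hv) huv)
      have hN : N c S = N c S'' + D c z S'' + D c x S' := by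
        rw [← hins, N_insert hxS']
        conv_lhs => rw [← hins', N_insert hzS'']
        rw [hins']
      have hDm : D c x S'' ≤ D c x S' := D_mono (erase_subset _ _)
      have hH := H_two S''.card
      have hmm : S''.card + 2 = m := by omega
      rw [hmm] at hH
      omega
    · push Not at hthree
      have hP : ∃ P ⊆ S', (∀ y ∈ P, ∀ z ∈ P, c x y = c x z) ∧
          (∀ y ∈ S' \ P, ∀ z ∈ S' \ P, c x y = c x z) := by
        rcases S'.eq_empty_or_nonempty with h0 | ⟨p, hp⟩
        · refine ⟨∅, empty_subset _, by simp, ?_⟩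
          rw [h0]
          simp
        · refine ⟨S'.filter fun y => c x y = c x p, filter_subset _ _, ?_, ?_⟩
          · intro y hy z hz
            rw [(mem_filter.1 hy).2, (mem_filter.1 hz).2]
          · intro y hy z hz
            rw [mem_sdiff, mem_filter] at hy hz
            have hy2 : c x y ≠ c x p := fun e => hy.2 ⟨hy.1, e⟩
            have hz2 : c x z ≠ c x p := fun e => hz.2 ⟨hz.1, e⟩
            exact hthree p hp y hy.1 z hz.1 (fun e => hy2 e.symm) (fun e => hz2 e.symm)
      obtain ⟨P, hPS, hP1, hP2⟩ := hP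
      have hd := D_two (c := c) hxS' hPS
        (fun y hy z hz hyz => max_same hmax (hm y (hPS hy)).1 (hm z (hPS hz)).1
          (hm y (hPS hy)).2 (hm z (hPS hz)).2 hyz (hP1 y hy z hz))
        (fun y hy z hz hyz => max_same hmax (hm y (sdiff_subset hy)).1 (hm z (sdiff_subset hz)).1
          (hm y (sdiff_subset hy)).2 (hm z (sdiff_subset hz)).2 hyz (hP2 y hy z hz))
      have hN : N c S = N c S' + D c x S' := by
        rw [← hins, N_insert hxS']
      have hi := ih S'.card (by omega) S' rfl (fun a b d hc => hC a b d (hc.mono hsub))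
      have hH := H_succ S'.card
      rw [hcard] at hH
      have h5 := two_le P.card (S' \ P).card
      have h6 : P.card + (S' \ P).card = S'.card := by
        rw [card_sdiff_of_subset hPS]
        have := card_le_card hPS
        omega
      rw [h6] at h5
      omega

end Pool.Agent.DL
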