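import Pool.Agent.DL.Main

/-! Coverings with some exceptional vertices: maximal vertices. -/

set_option autoImplicit false
open Finset
open scoped Classical

namespace Pool.Agent.DL

open Pool.Agent.R810

section
variable {V κ : Type*} [Fintype V] {c : V → V → κ} {S : Finset V}

/-- walks of the relation `R c univ` in `S` -/
def walkS (c : V → V → κ) (S : Finset V) : ℕ → V → V → Prop
  | 0, a, b => R c univ a b
  | k + 1, a, b => ∃ d ∈ S, R c univ a d ∧ walkS c S k d b

theorem cyc_of_walkS (h : Cov c) : ∀ k : ℕ, ∀ a ∈ S, walkS c S k a a →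
    ∃ x ∈ S, ∃ y ∈ S, ∃ z ∈ S, Cyc c univ x y z := by
  intro k
  induction k using Nat.strong_induction_on with
  | _ k ih =>
    intro a ha hw
    match k, ih, hw with
    | 0, _, hw => exact absurd rfl (R.ne hw)
    | 1, _, hw =>
      obtain ⟨d, hd, h1, h2⟩ := hw
      exact absurd h2 (h1.asymm h)
    | 2, _, hw =>
      obtain ⟨b, hb, h1, d, hd, h2, h3⟩ := hw
      exact ⟨a, ha, b, hb, d, hd, mem_univ _, mem_univ _, mem_univ _, h1, h2, h3⟩
    | k + 3, ih, hw =>
      obtain ⟨b, hb, h1, d, hd, h2, e, he, h3, h4⟩ := hw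
      have had : a ≠ d := by
        rintro rfl
        exact h1.asymm h h2
      have hbe : b ≠ e := by
        rintro rfl
        exact h2.asymm h h3
      by_cases c1 : R c univ a d
      · exact ih (k + 2) (by omega) a ha ⟨d, hd, c1, e, he, h3, h4⟩
      by_cases c2 : R c univ d a
      · exact ⟨a, ha, b, hb, d, hd, mem_univ _, mem_univ _, mem_univ _, h1, h2, c2⟩
      by_cases c3 : R c univ b e
      · exact ih (k + 2) (by omega) a ha ⟨b, hb, h1, e, he, c3, h4⟩
      by_cases c4 : R c univ e b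
      · exact ⟨b, hb, d, hd, e, he, mem_univ _, mem_univ _, mem_univ _, h2, h3, c4⟩
      exact (no_chain h (mem_univ _) (mem_univ _) (mem_univ _) h1 h2 h3 had hbe c1 c2 c3 c4).elim

theorem exists_maxS (h : Cov c) (hS : S.Nonempty)
    (hC : ∀ x ∈ S, ∀ y ∈ S, ∀ z ∈ S, ¬ Cyc c univ x y z) :
    ∃ x ∈ S, ∀ y ∈ S, ¬ R c univ x y := by
  by_contra hcon
  push Not at hcon
  have hf : ∀ x : S, ∃ y : S, R c univ (x : V) y := by
    intro x
    obtain ⟨y, hy, h1⟩ := hcon x x.2
    exact ⟨⟨y, hy⟩, h1⟩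
  choose f hf using hf
  obtain ⟨x0, hx0⟩ := hS
  have hw : ∀ k : ℕ, ∀ x : S, walkS c S k x (f^[k + 1] x) := by
    intro k
    induction k with
    | zero =>
      intro x
      exact hf x
    | succ k ih =>
      intro x
      refine ⟨f x, (f x).2, hf x, ?_⟩
      exact ih (f x)
  obtain ⟨i, j, hij, he⟩ := Finite.exists_ne_map_eq_of_infinite
    (fun k : ℕ => f^[k] (⟨x0, hx0⟩ : S))
  have key : ∀ i j : ℕ, i < j → f^[i] (⟨x0, hx0⟩ : S) = f^[j] (⟨x0, hx0⟩ : S) → False := by
    intro i j hij he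
    have h1 := hw (j - i - 1) (f^[i] (⟨x0, hx0⟩ : S))
    rw [← Function.iterate_add_apply] at h1
    have h2 : j - i - 1 + 1 + i = j := by omega
    rw [h2, ← he] at h1
    obtain ⟨x, hx, y, hy, z, hz, h3⟩ := cyc_of_walkS h _ _ (f^[i] (⟨x0, hx0⟩ : S)).2 h1
    exact hC x hx y hy z hz h3
  rcases lt_or_gt_of_ne hij with h1 | h1
  · exact key i j h1 he
  · exact key j i h1 he.symm

end

variable {n : ℕ} {κ : Type*} {c : Fin n → Fin n → κ} {T : Finset (Finset (Fin n))}

/-- `x` sees two colours -/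
def TwoD (c : Fin n → Fin n → κ) (x : Fin n) : Prop := ∃ a b, a ≠ x ∧ b ≠ x ∧ c x a ≠ c x b

theorem TwoD.other {x : Fin n} (h : TwoD c x) (k : κ) : ∃ t, t ≠ x ∧ c x t ≠ k := by
  obtain ⟨a, b, ha, hb, hab⟩ := h
  by_cases h5 : c x a = k
  · exact ⟨b, hb, fun h6 => hab (h5.trans h6.symm)⟩
  · exact ⟨a, ha, h5⟩

theorem max_forced (h3 : ∀ e ∈ T, e.card = 3) (hT : TC.Covers T) (hc : T ⊆ locT c)
    {x y w : Fin n} (hxy : x ≠ y) (hxw : x ≠ w) (hyw : y ≠ w) (h2 : TwoD c y)
    (hR : ¬ R c univ x y) (he : c x y = c x w) : ({x, y, w} : Finset (Fin n)) ∈ T := by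
  have hR' : ∀ z, z ≠ x → z ≠ y → c x z = c x y → c y z = c y x := by
    intro z hzx hzy h5
    by_contra h6
    exact hR ⟨z, mem_univ _, hzx, hzy, h5, h6⟩
  obtain ⟨t, hty, ht⟩ := h2.other (c y x)
  have htx : t ≠ x := by
    rintro rfl
    exact ht rfl
  have hxt : c x t ≠ c x y := fun e => ht (hR' t htx hty e)
  have hyw' : c y w = c y x := hR' w hxw.symm hyw.symm he.symm
  have htw : t ≠ w := by
    rintro rfl
    exact ht hyw'
  refine forced h3 hT hc hxy hxw hyw htx hty htw ?_ ?_ ?_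
  · intro e
    exact hxt e.1.symm
  · intro e
    exact hxt (e.1.symm.trans he.symm)
  · intro e
    exact ht (e.1.symm.trans hyw')

/-- the number of triples of `T` in `S` -/
noncomputable def NT (T : Finset (Finset (Fin n))) (S : Finset (Fin n)) : ℕ :=
  ((powersetCard 3 S).filter fun e => e ∈ T).card

/-- the number of triples of `T` of `x` and two vertices of `S` -/
noncomputable def DT (T : Finset (Finset (Fin n))) (x : Fin n) (S : Finset (Fin n)) : ℕ :=
  ((powersetCard 2 S).filter fun p => insert x p ∈ T).card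

theorem NT_insert {x : Fin n} {S : Finset (Fin n)} (hx : x ∉ S) :
    NT T (insert x S) = NT T S + DT T x S := by
  unfold NT DT
  rw [powersetCard_succ_insert hx, filter_union, card_union_of_disjoint, filter_image,
    card_image_of_injOn]
  · intro p hp q hq hpq
    have hp' : x ∉ p := fun h => hx ((mem_powersetCard.1 (mem_filter.1 hp).1).1 h)
    have hq' : x ∉ q := fun h => hx ((mem_powersetCard.1 (mem_filter.1 hq).1).1 h)
    have := congrArg (fun t : Finset (Fin n) => t.erase x) hpq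
    simpa [erase_insert hp', erase_insert hq'] using this
  · rw [disjoint_left]
    intro e he he'
    have h1 : x ∉ e := fun h => hx ((mem_powersetCard.1 (mem_filter.1 he).1).1 h)
    obtain ⟨p, -, rfl⟩ := mem_image.1 (mem_filter.1 he').1
    exact h1 (mem_insert_self _ _)

theorem DT_mono {x : Fin n} {S S' : Finset (Fin n)} (h : S' ⊆ S) : DT T x S' ≤ DT T x S := by
  unfold DT
  exact card_le_card (filter_subset_filter _ (powersetCard_mono h))

/-- two colours at `x`, except for pairs in `W` -/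
theorem DT_two {x : Fin n} {S P W : Finset (Fin n)} (hP : P ⊆ S)
    (h1 : ∀ y ∈ P, ∀ z ∈ P, y ≠ z → y ∉ W → ({x, y, z} : Finset (Fin n)) ∈ T)
    (h2 : ∀ y ∈ S \ P, ∀ z ∈ S \ P, y ≠ z → y ∉ W → ({x, y, z} : Finset (Fin n)) ∈ T) :
    P.card.choose 2 + (S \ P).card.choose 2 ≤ DT T x S + W.card.choose 2 := by
  unfold DT
  have hd : Disjoint (powersetCard 2 P) (powersetCard 2 (S \ P)) := by
    rw [disjoint_left]
    intro p hp hp'
    obtain ⟨h3, h4⟩ := mem_powersetCard.1 hp
    obtain ⟨h5, -⟩ := mem_powersetCard.1 hp'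
    obtain ⟨a, b, -, rfl⟩ := card_eq_two.1 h4
    have ha : a ∈ ({a, b} : Finset (Fin n)) := by simp
    exact (mem_sdiff.1 (h5 ha)).2 (h3 ha)
  rw [← card_powersetCard 2 P, ← card_powersetCard 2 (S \ P), ← card_powersetCard 2 W,
    ← card_union_of_disjoint hd]
  refine (card_le_card ?_).trans (card_union_le _ _)
  intro p hp
  rw [mem_union] at hp
  have key : ∀ Q : Finset (Fin n), Q ⊆ S →
      (∀ y ∈ Q, ∀ z ∈ Q, y ≠ z → y ∉ W → ({x, y, z} : Finset (Fin n)) ∈ T) →
      p ∈ powersetCard 2 Q → p ∈ ((powersetCard 2 S).filter fun p => insert x p ∈ T) ∪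
        powersetCard 2 W := by
    intro Q hQ hL hp
    obtain ⟨h3, h4⟩ := mem_powersetCard.1 hp
    obtain ⟨a, b, hab, rfl⟩ := card_eq_two.1 h4
    have ha : a ∈ Q := h3 (by simp)
    have hb : b ∈ Q := h3 (by simp)
    rw [mem_union]
    by_cases haW : a ∈ W
    · by_cases hbW : b ∈ W
      · right
        refine mem_powersetCard.2 ⟨?_, h4⟩
        intro t ht
        rw [mem_insert, mem_singleton] at ht
        rcases ht with rfl | rfl
        · exact haW
        · exact hbW
      · left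
        refine mem_filter.2 ⟨mem_powersetCard.2 ⟨h3.trans hQ, h4⟩, ?_⟩
        have := hL b hb a ha hab.symm hbW
        rwa [pair_comm b a] at this
    · left
      exact mem_filter.2 ⟨mem_powersetCard.2 ⟨h3.trans hQ, h4⟩, hL a ha b hb hab haW⟩
  rcases hp with hp | hp
  · exact key P hP h1 hp
  · exact key (S \ P) sdiff_subset h2 hp

/-- A vertex of large degree if `S` without `W` contains no cyclic triple. -/
theorem deg_acyclic {c : Fin n → Fin n → Prop} (h3 : ∀ e ∈ T, e.card = 3) (hT : TC.Covers T)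
    (hc : T ⊆ locT c) {S W : Finset (Fin n)} (hW : (S \ W).Nonempty)
    (h2 : ∀ x ∈ S \ W, TwoD c x)
    (hC : ∀ x ∈ S \ W, ∀ y ∈ S \ W, ∀ z ∈ S \ W, ¬ Cyc c univ x y z) :
    ∃ x ∈ S, (S.card - 2) ^ 2 / 4 ≤ DT T x (S.erase x) + W.card.choose 2 := by
  obtain ⟨x, hx, hmax⟩ := exists_maxS (cov_of h3 hT hc) hW hC
  have hxS : x ∈ S := (mem_sdiff.1 hx).1
  refine ⟨x, hxS, ?_⟩
  set S' := S.erase x with hS'
  set P := S'.filter fun y => c x y with hP
  have hPS : P ⊆ S' := filter_subset _ _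
  have hcol : ∀ y ∈ S', ∀ z ∈ S', y ≠ z → y ∉ W → c x y = c x z →
      ({x, y, z} : Finset (Fin n)) ∈ T := by
    intro y hy z hz hyz hyW he
    have hy' := mem_erase.1 hy
    have hz' := mem_erase.1 hz
    exact max_forced h3 hT hc hy'.1.symm hz'.1.symm hyz
      (h2 y (mem_sdiff.2 ⟨hy'.2, hyW⟩)) (hmax y (mem_sdiff.2 ⟨hy'.2, hyW⟩)) he
  have := DT_two (T := T) (x := x) (S := S') (P := P) (W := W) hPS
    (by
      intro y hy z hz hyz hyW
      have h5 := (mem_filter.1 hy).2
      have h6 := (mem_filter.1 hz).2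
      exact hcol y (hPS hy) z (hPS hz) hyz hyW (propext ⟨fun _ => h6, fun _ => h5⟩))
    (by
      intro y hy z hz hyz hyW
      have h5 : ¬ c x y := fun h => (mem_sdiff.1 hy).2 (mem_filter.2 ⟨(mem_sdiff.1 hy).1, h⟩)
      have h6 : ¬ c x z := fun h => (mem_sdiff.1 hz).2 (mem_filter.2 ⟨(mem_sdiff.1 hz).1, h⟩)
      exact hcol y (mem_sdiff.1 hy).1 z (mem_sdiff.1 hz).1 hyz hyW
        (propext ⟨fun h => absurd h h5, fun h => absurd h h6⟩))
  have h5 := two_le P.card (S' \ P).card
  have h6 : P.card + (S' \ P).card = S'.card := by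
    rw [card_sdiff_of_subset hPS]
    have := card_le_card hPS
    omega
  rw [h6] at h5
  have h7 : S'.card - 1 = S.card - 2 := by
    rw [hS', card_erase_of_mem hxS]
    omega
  rw [h7] at h5
  omega

end Pool.Agent.DL
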