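import Pool.Agent.DL.Gam1

/-! Coverings with some exceptional vertices: three vertices of large total degree. -/

set_option autoImplicit false
open Finset
open scoped Classical

namespace Pool.Agent.DL

open Pool.Agent.R810

variable {n : ℕ} {κ : Type*} {c : Fin n → Fin n → κ} {T : Finset (Finset (Fin n))}
  {g : Fin n → Fin 3}

theorem sepG (hs : Std c g) {x v w : Fin n} (hx : TwoD c x) (hv : v ≠ x) (hw : w ≠ x)
    (e1 : g v + 1 = g x) (e2 : g w + 1 ≠ g x) : c x v ≠ c x w := by
  intro e3
  obtain ⟨a, b, ha, hb, hab⟩ := hx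
  have : ∀ t, t ≠ x → c x t = c x v := by
    intro t ht
    by_cases h5 : g t + 1 = g x
    · exact hs x t v ht hv (by simp [h5, e1])
    · rw [e3]
      exact hs x t w ht hw (by simp [h5, e2])
  exact hab ((this a ha).trans (this b hb).symm)

theorem notT (hc : T ⊆ locT c) (hs : Std c g) {x v w : Fin n} (hx : TwoD c x) (hv : v ≠ x)
    (hw : w ≠ x) (hvw : v ≠ w) (e1 : g v + 1 = g x) (e2 : g w + 1 ≠ g x) :
    ({x, v, w} : Finset (Fin n)) ∉ T := fun h =>
  sepG hs hx hv hw e1 e2 ((mem_locT' hv.symm hw.symm hvw).1 (hc h)).1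

theorem one_of (h3 : ∀ e ∈ T, e.card = 3) (hT : TC.Covers T) (hc : T ⊆ locT c) (hs : Std c g)
    {x x' y z : Fin n} (hx : TwoD c x) (hxx : x' ≠ x) (hyx : y ≠ x) (hzx : z ≠ x)
    (hyx' : y ≠ x') (hzx' : z ≠ x') (hyz : y ≠ z) (e : g x' + 1 = g x) (ey : g y + 1 ≠ g x)
    (ez : g z + 1 ≠ g x) :
    ({x, y, z} : Finset (Fin n)) ∈ T ∨ ({x', y, z} : Finset (Fin n)) ∈ T := by
  rcases TC.four_T h3 hT x x' y z hxx.symm hyx.symm hzx.symm hyx'.symm hzx'.symm hyz with
    h | h | h | h
  · exact absurd h (notT hc hs hx hxx hyx hyx'.symm e ey)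
  · exact absurd h (notT hc hs hx hxx hzx hzx'.symm e ez)
  · exact Or.inl h
  · exact Or.inr h

theorem one_of' (h3 : ∀ e ∈ T, e.card = 3) (hT : TC.Covers T) (hc : T ⊆ locT c) (hs : Std c g)
    {x x' y z : Fin n} (hx : TwoD c x) (hxx : x' ≠ x) (hyx : y ≠ x) (hzx : z ≠ x)
    (hyx' : y ≠ x') (hzx' : z ≠ x') (hyz : y ≠ z) (e : g x' + 1 ≠ g x) (ey : g y + 1 = g x)
    (ez : g z + 1 = g x) :
    ({x, y, z} : Finset (Fin n)) ∈ T ∨ ({x', y, z} : Finset (Fin n)) ∈ T := by
  rcases TC.four_T h3 hT x x' y z hxx.symm hyx.symm hzx.symm hyx'.symm hzx'.symm hyz with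
    h | h | h | h
  · exact absurd (by rw [pair_comm y x']; exact h) (notT hc hs hx hyx hxx hyx' ey e)
  · exact absurd (by rw [pair_comm z x']; exact h) (notT hc hs hx hzx hxx hzx' ez e)
  · exact Or.inl h
  · exact Or.inr h

theorem forcedG (h3 : ∀ e ∈ T, e.card = 3) (hT : TC.Covers T) (hc : T ⊆ locT c) (hs : Std c g)
    {x x' y z : Fin n} (hx : TwoD c x) (hy : TwoD c y) (hxx : x' ≠ x) (hyx : y ≠ x) (hzx : z ≠ x)
    (hyx' : y ≠ x') (hzx' : z ≠ x') (hyz : y ≠ z) (e : g x' + 1 ≠ g x) (ey : g y + 1 = g x)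
    (ez : g z + 1 = g x) (e' : g x' + 1 = g y) (e'' : g z + 1 ≠ g y) :
    ({x, y, z} : Finset (Fin n)) ∈ T := by
  rcases TC.four_T h3 hT x y z x' hyx.symm hzx.symm hxx.symm hyz hyx' hzx' with h | h | h | h
  · exact h
  · exact absurd h (notT hc hs hx hyx hxx hyx' ey e)
  · exact absurd h (notT hc hs hx hzx hxx hzx' ez e)
  · exact absurd (by rw [pair_comm x' z]; exact h)
      (notT hc hs hy hyx'.symm hyz.symm hzx'.symm e' e'')

/-- exceptional vertices of a class -/
noncomputable def UC (c : Fin n → Fin n → κ) (g : Fin n → Fin 3) (S : Finset (Fin n))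
    (i : Fin 3) : Finset (Fin n) := S.filter fun y => g y = i ∧ ¬ TwoD c y

/-- regular vertices of a class -/
noncomputable def DC (c : Fin n → Fin n → κ) (g : Fin n → Fin 3) (S : Finset (Fin n))
    (i : Fin 3) : Finset (Fin n) := S.filter fun y => g y = i ∧ TwoD c y

/-- missing pairs of exceptional vertices -/
noncomputable def MP (T : Finset (Finset (Fin n))) (c : Fin n → Fin n → κ) (g : Fin n → Fin 3)
    (S : Finset (Fin n)) (i : Fin 3) (x : Fin n) : Finset (Finset (Fin n)) :=
  (powersetCard 2 (UC c g S i)).filter fun p => insert x p ∉ T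

theorem exists_few (h3 : ∀ e ∈ T, e.card = 3) (hT : TC.Covers T) (hc : T ⊆ locT c)
    (hs : Std c g) {S : Finset (Fin n)} {K : ℕ} (hK1 : 1 ≤ K) (i : Fin 3)
    (hK : K ≤ (DC c g S (i + 1)).card) :
    ∃ x ∈ DC c g S (i + 1), K * (MP T c g S i x).card ≤ (UC c g S i).card.choose 2 := by
  have hne : (DC c g S (i + 1)).Nonempty := card_pos.1 (by omega)
  obtain ⟨x, hx, hmin⟩ := exists_min_image _ (fun x => (MP T c g S i x).card) hne
  refine ⟨x, hx, ?_⟩
  have h1 : (DC c g S (i + 1)).card * (MP T c g S i x).card ≤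
      ∑ y ∈ DC c g S (i + 1), (MP T c g S i y).card := by
    have := card_nsmul_le_sum (DC c g S (i + 1)) (fun y => (MP T c g S i y).card)
      (MP T c g S i x).card (fun y hy => hmin y hy)
    simpa using this
  have h2 : ∑ y ∈ DC c g S (i + 1), (MP T c g S i y).card =
      ((DC c g S (i + 1)).biUnion (MP T c g S i)).card := by
    rw [card_biUnion]
    intro y hy z hz hyz
    change Disjoint (MP T c g S i y) (MP T c g S i z)
    rw [disjoint_left]
    intro p hp hp'
    unfold MP at hp hp'
    rw [mem_filter, mem_powersetCard] at hp hp'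
    obtain ⟨a, b, hab, rfl⟩ := card_eq_two.1 hp.1.2
    have ha := hp.1.1 (show a ∈ ({a, b} : Finset (Fin n)) by simp)
    have hb := hp.1.1 (show b ∈ ({a, b} : Finset (Fin n)) by simp)
    unfold UC at ha hb
    unfold DC at hy hz
    rw [mem_coe, mem_filter] at hy hz
    rw [mem_filter] at ha hb
    have f : ∀ j : Fin 3, j + 1 + 1 ≠ j + 1 := by decide
    have ne : ∀ a y : Fin n, TwoD c y → ¬ TwoD c a → a ≠ y := by
      rintro a y h1 h2 rfl
      exact h2 h1
    rcases one_of' h3 hT hc hs hy.2.2 hyz.symm (ne a y hy.2.2 ha.2.2) (ne b y hy.2.2 hb.2.2)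
      (ne a z hz.2.2 ha.2.2) (ne b z hz.2.2 hb.2.2) hab
      (by rw [hz.2.1, hy.2.1]; exact f i) (by rw [ha.2.1, hy.2.1]) (by rw [hb.2.1, hy.2.1]) with
      h | h
    · exact hp.2 h
    · exact hp'.2 h
  have h4 : ((DC c g S (i + 1)).biUnion (MP T c g S i)).card ≤
      (UC c g S i).card.choose 2 := by
    rw [← card_powersetCard]
    refine card_le_card ?_
    intro p hp
    obtain ⟨y, -, hp⟩ := mem_biUnion.1 hp
    exact (mem_filter.1 hp).1
  have h5 : K * (MP T c g S i x).card ≤ (DC c g S (i + 1)).card * (MP T c g S i x).card :=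
    Nat.mul_le_mul_right _ hK
  omega

theorem three_deg (h3 : ∀ e ∈ T, e.card = 3) (hT : TC.Covers T) (hc : T ⊆ locT c)
    (hs : Std c g) {S S' : Finset (Fin n)} (hS : S' ⊆ S) {x : Fin 3 → Fin n}
    (hx : ∀ i, TwoD c (x i) ∧ g (x i) = i) (hxS : ∀ i, x i ∉ S') :
    S'.card.choose 2 + ∑ i, (S'.filter fun y => g y = i).card.choose 2 ≤
      ∑ i, DT T (x i) S' + ∑ i, (MP T c g S i (x (i + 1))).card := by
  have key : ∀ p ∈ powersetCard 2 S',
      1 + ∑ i, (if p ∈ powersetCard 2 (S'.filter fun y => g y = i) then 1 else 0) ≤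
        ∑ i, (if insert (x i) p ∈ T then 1 else 0) +
          ∑ i, (if p ∈ MP T c g S i (x (i + 1)) then 1 else 0) := by
    intro p hp
    rw [mem_powersetCard] at hp
    obtain ⟨y, z, hyz, rfl⟩ := card_eq_two.1 hp.2
    have hy : y ∈ S' := hp.1 (by simp)
    have hz : z ∈ S' := hp.1 (by simp)
    have dy : ∀ i, y ≠ x i := by
      rintro i rfl
      exact hxS i hy
    have dz : ∀ i, z ≠ x i := by
      rintro i rfl
      exact hxS i hz
    have dx : ∀ i j, i ≠ j → x i ≠ x j := by
      intro i j hij e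
      apply hij
      rw [← (hx i).2, ← (hx j).2, e]
    have hone : ∀ i : Fin 3, g y + 1 ≠ i → g z + 1 ≠ i →
        ({x i, y, z} : Finset (Fin n)) ∈ T ∨ ({x (i + 2), y, z} : Finset (Fin n)) ∈ T := by
      intro i h1 h2
      have f1 : ∀ i : Fin 3, i + 2 ≠ i := by decide
      have f2 : ∀ i : Fin 3, i + 2 + 1 = i := by decide
      exact one_of h3 hT hc hs (hx i).1 (dx _ _ (f1 i)) (dy i) (dz i) (dy _) (dz _) hyz
        (by rw [(hx _).2, (hx _).2]; exact f2 i) (by rw [(hx i).2]; exact h1)
        (by rw [(hx i).2]; exact h2)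
    by_cases hgg : g y = g z
    · -- same class
      have hmono : ∀ i, ((({y, z} : Finset (Fin n)) ∈
          powersetCard 2 (S'.filter fun y => g y = i)) ↔ g y = i) := by
        intro i
        rw [mem_powersetCard]
        constructor
        · intro h
          exact (mem_filter.1 (h.1 (show y ∈ ({y, z} : Finset (Fin n)) by simp))).2
        · intro h
          refine ⟨?_, hp.2⟩
          intro t ht
          rw [mem_insert, mem_singleton] at ht
          rcases ht with rfl | rfl
          · exact mem_filter.2 ⟨hy, h⟩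
          · exact mem_filter.2 ⟨hz, hgg ▸ h⟩
      have hsum1 : ∑ i, (if ({y, z} : Finset (Fin n)) ∈
          powersetCard 2 (S'.filter fun y => g y = i) then 1 else 0) = 1 := by
        simp only [hmono]
        rw [sum_ite_eq univ (g y) (fun _ => 1), if_pos (mem_univ _)]
      rw [hsum1]
      have a1 := hone (g y) (by
        have f : ∀ i : Fin 3, i + 1 ≠ i := by decide
        exact f _) (by
        rw [← hgg]
        have f : ∀ i : Fin 3, i + 1 ≠ i := by decide
        exact f _)
      have a2 : ({x (g y + 1), y, z} : Finset (Fin n)) ∈ T ∨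
          ({y, z} : Finset (Fin n)) ∈ MP T c g S (g y) (x (g y + 1)) := by
        have f3 : ∀ i : Fin 3, i + 2 ≠ i + 1 := by decide
        have f4 : ∀ i : Fin 3, i + 2 + 1 ≠ i + 1 := by decide
        have f5 : ∀ i : Fin 3, i + 2 + 1 = i := by decide
        have f6 : ∀ i : Fin 3, i + 1 ≠ i := by decide
        by_cases ty : TwoD c y
        · left
          exact forcedG (x' := x (g y + 2)) h3 hT hc hs (hx _).1 ty (dx _ _ (f3 _)) (dy _) (dz _)
            (dy _) (dz _) hyz (by rw [(hx _).2, (hx _).2]; exact f4 _) (by rw [(hx _).2])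
            (by rw [(hx _).2, hgg]) (by rw [(hx _).2]; exact f5 _) (by rw [← hgg]; exact f6 _)
        · by_cases tz : TwoD c z
          · left
            have := forcedG (x' := x (g y + 2)) (x := x (g y + 1)) (y := z) (z := y) h3 hT hc hs
              (hx _).1 tz (dx _ _ (f3 _)) (dz _) (dy _) (dz _) (dy _) hyz.symm
              (by rw [(hx _).2, (hx _).2]; exact f4 _) (by rw [(hx _).2, hgg])
              (by rw [(hx _).2]) (by rw [(hx _).2, ← hgg]; exact f5 _) (by rw [hgg]; exact f6 _)
            rwa [pair_comm z y] at this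
          · by_cases h5 : ({x (g y + 1), y, z} : Finset (Fin n)) ∈ T
            · exact Or.inl h5
            · right
              unfold MP
              rw [mem_filter, mem_powersetCard]
              refine ⟨⟨?_, hp.2⟩, h5⟩
              intro t ht
              rw [mem_insert, mem_singleton] at ht
              unfold UC
              rw [mem_filter]
              rcases ht with rfl | rfl
              · exact ⟨hS hy, rfl, ty⟩
              · exact ⟨hS hz, hgg.symm, tz⟩
      have hf : ∀ i : Fin 3, i = 0 ∨ i = 1 ∨ i = 2 := by decide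
      have z12 : (0 : Fin 3) + 1 = 1 := rfl
      have z22 : (0 : Fin 3) + 2 = 2 := rfl
      have o12 : (1 : Fin 3) + 1 = 2 := rfl
      have o22 : (1 : Fin 3) + 2 = 0 := rfl
      have t12 : (2 : Fin 3) + 1 = 0 := rfl
      have t22 : (2 : Fin 3) + 2 = 1 := rfl
      rw [Fin.sum_univ_three, Fin.sum_univ_three, z12, o12, t12]
      have hi : ∀ q : Prop, (q → (if q then 1 else 0 : ℕ) = 1) := fun q h => if_pos h
      rcases hf (g y) with e | e | e <;> rw [e] at a1 a2 <;>
        simp only [z12, z22, o12, o22, t12, t22] at a1 a2 <;>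
        rcases a1 with a1 | a1 <;> rcases a2 with a2 | a2 <;> simp only [a1, a2, if_true] <;>
        split_ifs <;> omega
    · have hmono : ∀ i, ¬ (({y, z} : Finset (Fin n)) ∈
          powersetCard 2 (S'.filter fun y => g y = i)) := by
        intro i h
        rw [mem_powersetCard] at h
        have h1 := (mem_filter.1 (h.1 (show y ∈ ({y, z} : Finset (Fin n)) by simp))).2
        have h2 := (mem_filter.1 (h.1 (show z ∈ ({y, z} : Finset (Fin n)) by simp))).2
        exact hgg (h1.trans h2.symm)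
      have hsum1 : ∑ i, (if ({y, z} : Finset (Fin n)) ∈
          powersetCard 2 (S'.filter fun y => g y = i) then 1 else 0) = 0 :=
        sum_eq_zero fun i _ => if_neg (hmono i)
      rw [hsum1]
      have f7 : ∀ i j : Fin 3, i ≠ j → ∃ l, i + 1 ≠ l ∧ j + 1 ≠ l := by decide
      obtain ⟨l, l1, l2⟩ := f7 _ _ hgg
      have : ∃ j, ({x j, y, z} : Finset (Fin n)) ∈ T := by
        rcases hone l l1 l2 with h | h
        · exact ⟨_, h⟩
        · exact ⟨_, h⟩
      obtain ⟨j, hj⟩ := this
      have h5 : (1 : ℕ) ≤ ∑ i, (if insert (x i) ({y, z} : Finset (Fin n)) ∈ T then 1 else 0) := by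
        refine le_trans (by rw [if_pos hj]) (single_le_sum (f := fun i =>
          (if insert (x i) ({y, z} : Finset (Fin n)) ∈ T then 1 else 0)) (fun _ _ => Nat.zero_le _)
          (mem_univ j))
      omega
  have hsum := sum_le_sum key
  rw [sum_add_distrib, sum_add_distrib, sum_comm, sum_comm (s := powersetCard 2 S')
    (f := fun p i => if insert (x i) p ∈ T then 1 else 0),
    sum_comm (s := powersetCard 2 S')
    (f := fun p i => if p ∈ MP T c g S i (x (i + 1)) then 1 else 0)] at hsum
  have e1 : ∑ _p ∈ powersetCard 2 S', 1 = S'.card.choose 2 := by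
    rw [← card_eq_sum_ones, card_powersetCard]
  have e2 : ∀ i ∈ (univ : Finset (Fin 3)), ∑ p ∈ powersetCard 2 S',
      (if p ∈ powersetCard 2 (S'.filter fun y => g y = i) then 1 else 0) =
        (S'.filter fun y => g y = i).card.choose 2 := by
    intro i _
    rw [sum_ite_mem, ← card_eq_sum_ones, inter_eq_right.2 (powersetCard_mono (filter_subset _ _)),
      card_powersetCard]
  have e4 : ∀ i ∈ (univ : Finset (Fin 3)), ∑ p ∈ powersetCard 2 S',
      (if insert (x i) p ∈ T then 1 else 0) = DT T (x i) S' := by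
    intro i _
    unfold DT
    rw [card_filter]
  have e5 : ∀ i ∈ (univ : Finset (Fin 3)), ∑ p ∈ powersetCard 2 S',
      (if p ∈ MP T c g S i (x (i + 1)) then 1 else 0) ≤ (MP T c g S i (x (i + 1))).card := by
    intro i _
    rw [sum_ite_mem, ← card_eq_sum_ones]
    exact card_le_card inter_subset_right
  rw [e1, sum_congr rfl e2, sum_congr rfl e4] at hsum
  exact hsum.trans (Nat.add_le_add_left (sum_le_sum e5) _)

end Pool.Agent.DL
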