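import Pool.Agent.DL.Gam2

/-! Coverings with some exceptional vertices: the number of triples. -/

set_option autoImplicit false
open Finset
open scoped Classical

namespace Pool.Agent.DL

open Pool.Agent.R810

variable {n : ℕ} {c : Fin n → Fin n → Prop} {T : Finset (Finset (Fin n))}

theorem R.classes {g : Fin n → Fin 3} (hs : Std c g) {x y : Fin n} (hx : TwoD c x)
    (h : R c univ x y) : g x ≠ g y := by
  intro e
  obtain ⟨w, -, hwx, hwy, h1, h2⟩ := id h
  have hxy := R.ne h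
  have f : ∀ i : Fin 3, i + 1 ≠ i := by decide
  by_cases h5 : g w + 1 = g x
  · exact sepG hs hx hwx hxy.symm h5 (by rw [← e]; exact f _) h1
  · apply h2
    refine hs y w x hwy hxy ?_
    rw [← e]
    constructor
    · intro h6
      exact absurd h6 h5
    · intro h6
      exact absurd h6 (f _)

theorem choose_two_le (a : ℕ) : ((a.choose 2 : ℕ) : ℝ) ≤ (a : ℝ) ^ 2 / 2 := by
  rw [Nat.cast_choose_two]
  have : (0 : ℝ) ≤ a := Nat.cast_nonneg _
  nlinarith

theorem floor_ge (m : ℕ) : ((m : ℝ) ^ 2 - 3) / 4 ≤ ((m ^ 2 / 4 : ℕ) : ℝ) := by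
  have h : m ^ 2 ≤ 4 * (m ^ 2 / 4) + 3 := by omega
  have h1 : ((m ^ 2 : ℕ) : ℝ) ≤ ((4 * (m ^ 2 / 4) + 3 : ℕ) : ℝ) := by exact_mod_cast h
  push_cast at h1
  linarith

theorem num_a {s m b0 b1 b2 E D0 D1 D2 M0 M1 M2 : ℝ}
    (h : m * (m - 1) / 2 + (b0 * (b0 - 1) / 2 + b1 * (b1 - 1) / 2 + b2 * (b2 - 1) / 2) ≤
      D0 + D1 + D2 + (M0 + M1 + M2)) (hsum : b0 + b1 + b2 = m) (hM : M0 + M1 + M2 ≤ 3 * E)
    (h1 : s ≤ m + 3) (h2 : m ≤ s) (h4 : 4 ≤ s) :
    3 * (2 / 9 * s ^ 2 - 2 * s - E) ≤ D0 + D1 + D2 := by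
  have hbsq : m ^ 2 / 3 ≤ b0 ^ 2 + b1 ^ 2 + b2 ^ 2 := by
    rw [← hsum]
    nlinarith [sq_nonneg (b0 - b1), sq_nonneg (b0 - b2), sq_nonneg (b1 - b2)]
  have hms2 : (s - 3) ^ 2 ≤ m ^ 2 := pow_le_pow_left₀ (by linarith) (by linarith) 2
  have h5 : 2 / 3 * m ^ 2 - m - 3 * E ≤ D0 + D1 + D2 := by
    have e1 : m * (m - 1) / 2 = m ^ 2 / 2 - m / 2 := by ring
    have e2 : b0 * (b0 - 1) / 2 + b1 * (b1 - 1) / 2 + b2 * (b2 - 1) / 2 =
        (b0 ^ 2 + b1 ^ 2 + b2 ^ 2) / 2 - (b0 + b1 + b2) / 2 := by ring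
    rw [e1, e2, hsum] at h
    linarith
  nlinarith

theorem num_b {u K a0 a1 a2 M0 M1 M2 : ℝ} (hK : 1 ≤ K) (p0 : 0 ≤ a0) (p1 : 0 ≤ a1)
    (p2 : 0 ≤ a2) (hu : a0 + a1 + a2 ≤ u) (m0 : K * M0 ≤ a0 ^ 2 / 2) (m1 : K * M1 ≤ a1 ^ 2 / 2)
    (m2 : K * M2 ≤ a2 ^ 2 / 2) : M0 + M1 + M2 ≤ 3 * (u ^ 2 / (6 * K)) := by
  have husq : a0 ^ 2 + a1 ^ 2 + a2 ^ 2 ≤ u ^ 2 := by
    have h6 : (a0 + a1 + a2) ^ 2 ≤ u ^ 2 := pow_le_pow_left₀ (by positivity) hu 2
    nlinarith [mul_nonneg p0 p1, mul_nonneg p0 p2, mul_nonneg p1 p2]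
  have h6 : 3 * (u ^ 2 / (6 * K)) = (u ^ 2 / 2) / K := by
    field_simp
    ring
  rw [h6, le_div_iff₀ (by linarith)]
  linarith

/-- the first two cases -/
theorem deg_one (h3 : ∀ e ∈ T, e.card = 3) (hT : TC.Covers T) (hc : T ⊆ locT c)
    {S W : Finset (Fin n)} {w : ℕ} (hw : W.card ≤ w) (hw1 : 1 ≤ w)
    (hs : 17 / 4 * (w : ℝ) ≤ S.card) (h2 : ∀ x ∈ S \ W, TwoD c x)
    (hC : ∀ x ∈ S \ W, ∀ y ∈ S \ W, ∀ z ∈ S \ W, ¬ Cyc c univ x y z) :
    ∃ x ∈ S, 2 / 9 * (S.card : ℝ) ^ 2 - 2 * S.card ≤ DT T x (S.erase x) := by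
  have hw1' : (1 : ℝ) ≤ w := by exact_mod_cast hw1
  have hwR : (W.card : ℝ) ≤ w := by exact_mod_cast hw
  have hlt : W.card < S.card := by
    have : (W.card : ℝ) < S.card := by linarith
    exact_mod_cast this
  have hs5 : 5 ≤ S.card := by
    have : (4 : ℝ) < S.card := by linarith
    have : 4 < S.card := by exact_mod_cast this
    omega
  have hne : (S \ W).Nonempty := by
    rw [nonempty_iff_ne_empty]
    intro h
    rw [sdiff_eq_empty_iff_subset] at h
    have := card_le_card h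
    omega
  obtain ⟨x, hx, h⟩ := deg_acyclic h3 hT hc hne h2 hC
  refine ⟨x, hx, ?_⟩
  have h5 := floor_ge (S.card - 2)
  have h6 : (((S.card - 2) ^ 2 / 4 : ℕ) : ℝ) ≤ (DT T x (S.erase x) : ℝ) + (W.card.choose 2 : ℕ) := by
    exact_mod_cast h
  have h7 := choose_two_le W.card
  have h8 : ((S.card - 2 : ℕ) : ℝ) = (S.card : ℝ) - 2 := by
    rw [Nat.cast_sub (by omega)]
    norm_num
  rw [h8] at h5
  have h9 : (W.card : ℝ) ^ 2 ≤ (4 / 17 * (S.card : ℝ)) ^ 2 := by
    have h0 : (0 : ℝ) ≤ W.card := Nat.cast_nonneg _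
    exact pow_le_pow_left₀ h0 (by linarith) 2
  have h10 : (5 : ℝ) ≤ S.card := by exact_mod_cast hs5
  nlinarith

/-- a vertex of large degree -/
theorem deg_any (h3 : ∀ e ∈ T, e.card = 3) (hT : TC.Covers T) (hc : T ⊆ locT c) {u K : ℕ}
    (hu : (univ.filter fun x => ¬ TwoD c x).card ≤ u) (hK : 1 ≤ K) {S : Finset (Fin n)}
    (hS : 17 / 4 * ((u : ℝ) + K) ≤ S.card) :
    ∃ x ∈ S, 2 / 9 * (S.card : ℝ) ^ 2 - 2 * S.card - (u : ℝ) ^ 2 / (6 * K) ≤
      DT T x (S.erase x) := by
  have hK0 : (1 : ℝ) ≤ K := by exact_mod_cast hK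
  have hE : 0 ≤ (u : ℝ) ^ 2 / (6 * K) := by positivity
  have hcov := cov_of h3 hT hc
  have weaken : (∃ x ∈ S, 2 / 9 * (S.card : ℝ) ^ 2 - 2 * S.card ≤ DT T x (S.erase x)) →
      ∃ x ∈ S, 2 / 9 * (S.card : ℝ) ^ 2 - 2 * S.card - (u : ℝ) ^ 2 / (6 * K) ≤
      DT T x (S.erase x) := by
    rintro ⟨x, hx, h⟩
    exact ⟨x, hx, by linarith⟩
  have hUS : (S.filter fun x => ¬ TwoD c x).card ≤ u := by
    refine (card_le_card ?_).trans hu
    intro x hx
    rw [mem_filter] at hx ⊢
    exact ⟨mem_univ _, hx.2⟩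
  by_cases hcyc : ∃ x y z, Cyc c univ x y z
  · obtain ⟨x0, y0, z0, hcyc⟩ := hcyc
    obtain ⟨g, -, hs⟩ := hcyc.std hcov
    by_cases hsmall : ∃ i, (DC c g S i).card < K
    · obtain ⟨i, hi⟩ := hsmall
      apply weaken
      set W := (S.filter fun x => ¬ TwoD c x) ∪ DC c g S i with hW
      have hWc : W.card ≤ u + K := by
        refine (card_union_le _ _).trans ?_
        omega
      have hmem : ∀ x ∈ S \ W, TwoD c x ∧ g x ≠ i := by
        intro x hx
        rw [mem_sdiff, hW, mem_union, mem_filter] at hx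
        unfold DC at hx
        rw [mem_filter] at hx
        have h5 : TwoD c x := by
          by_contra h6
          exact hx.2 (Or.inl ⟨hx.1, h6⟩)
        exact ⟨h5, fun h6 => hx.2 (Or.inr ⟨hx.1, h6, h5⟩)⟩
      refine deg_one (w := u + K) h3 hT hc hWc (by omega) (by push_cast; exact hS)
        (fun x hx => (hmem x hx).1) ?_
      intro x hx y hy z hz hC
      have h5 := R.classes hs (hmem x hx).1 hC.2.2.2.1
      have h6 := R.classes hs (hmem y hy).1 hC.2.2.2.2.1
      have h7 := R.classes hs (hmem z hz).1 hC.2.2.2.2.2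
      have f : ∀ a b d i : Fin 3, a ≠ b → b ≠ d → d ≠ a → a ≠ i → b ≠ i → d ≠ i → False := by
        decide
      exact f _ _ _ i h5 h6 h7 (hmem x hx).2 (hmem y hy).2 (hmem z hz).2
    · push Not at hsmall
      have hex : ∀ i : Fin 3, ∃ x ∈ DC c g S (i + 1),
          K * (MP T c g S i x).card ≤ (UC c g S i).card.choose 2 := fun i =>
        exists_few h3 hT hc hs hK i (hsmall (i + 1))
      choose x' hx' hx'' using hex
      set X : Fin 3 → Fin n := fun j => x' (j + 2) with hX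
      have f1 : ∀ j : Fin 3, j + 2 + 1 = j := by decide
      have f2 : ∀ j : Fin 3, j + 1 + 2 = j := by decide
      have hXD : ∀ j, X j ∈ DC c g S j := by
        intro j
        have := hx' (j + 2)
        rwa [f1 j] at this
      have hXM : ∀ i, K * (MP T c g S i (X (i + 1))).card ≤ (UC c g S i).card.choose 2 := by
        intro i
        have := hx'' i
        simp only [hX]
        rw [f2 i]
        exact this
      have hXD' : ∀ j, X j ∈ S ∧ g (X j) = j ∧ TwoD c (X j) := by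
        intro j
        have := hXD j
        unfold DC at this
        rw [mem_filter] at this
        exact this
      set S' := S \ univ.image X with hS'
      have hS's : S' ⊆ S := sdiff_subset
      have h5 := three_deg h3 hT hc hs (S := S) (S' := S') hS's (x := X)
        (fun i => ⟨(hXD' i).2.2, (hXD' i).2.1⟩) (fun i h => by
          rw [hS', mem_sdiff] at h
          exact h.2 (mem_image_of_mem _ (mem_univ i)))
      have hm : S.card ≤ S'.card + 3 := by
        have h6 := le_card_sdiff (univ.image X) S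
        have h7 : (univ.image X).card ≤ 3 := card_image_le.trans (by simp)
        rw [hS']
        omega
      have hm' : S'.card ≤ S.card := card_le_card hS's
      have hDT : ∀ j, DT T (X j) S' ≤ DT T (X j) (S.erase (X j)) := by
        intro j
        refine DT_mono ?_
        intro y hy
        rw [hS', mem_sdiff] at hy
        refine mem_erase.2 ⟨?_, hy.1⟩
        rintro rfl
        exact hy.2 (mem_image_of_mem _ (mem_univ j))
      -- real numbers
      have h5' : ((S'.card.choose 2 : ℕ) : ℝ) +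
          ∑ i, (((S'.filter fun y => g y = i).card.choose 2 : ℕ) : ℝ) ≤
          ∑ i, ((DT T (X i) S' : ℕ) : ℝ) + ∑ i, ((MP T c g S i (X (i + 1))).card : ℝ) := by
        exact_mod_cast h5
      have hsum : (((S'.filter fun y => g y = 0).card : ℝ)) + (S'.filter fun y => g y = 1).card +
          (S'.filter fun y => g y = 2).card = S'.card := by
        have := card_eq_sum_card_fiberwise (f := g) (s := S') (t := univ)
          (fun _ _ => mem_coe.2 (mem_univ _))
        rw [Fin.sum_univ_three] at this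
        exact_mod_cast this.symm
      have husum : ((UC c g S 0).card : ℝ) + (UC c g S 1).card + (UC c g S 2).card ≤ u := by
        have h6 := card_eq_sum_card_fiberwise (f := g) (s := S.filter fun x => ¬ TwoD c x)
          (t := univ) (fun _ _ => mem_coe.2 (mem_univ _))
        rw [Fin.sum_univ_three] at h6
        have h7 : ∀ i, ((S.filter fun x => ¬ TwoD c x).filter fun x => g x = i) = UC c g S i := by
          intro i
          unfold UC
          rw [filter_filter]
          refine filter_congr fun x _ => ?_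
          exact and_comm
        rw [h7, h7, h7] at h6
        have h9 : (UC c g S 0).card + (UC c g S 1).card + (UC c g S 2).card ≤ u := by
          rw [← h6]
          exact hUS
        exact_mod_cast h9
      rw [Fin.sum_univ_three, Fin.sum_univ_three, Fin.sum_univ_three] at h5'
      have hM : ∀ i, (K : ℝ) * ((MP T c g S i (X (i + 1))).card : ℝ) ≤
          ((UC c g S i).card : ℝ) ^ 2 / 2 := by
        intro i
        have h6 : ((K * (MP T c g S i (X (i + 1))).card : ℕ) : ℝ) ≤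
            (((UC c g S i).card.choose 2 : ℕ) : ℝ) := by exact_mod_cast hXM i
        push_cast at h6
        exact h6.trans (choose_two_le _)
      have hMsum := num_b (u := (u : ℝ)) hK0 (Nat.cast_nonneg _) (Nat.cast_nonneg _)
        (Nat.cast_nonneg _) husum (hM 0) (hM 1) (hM 2)
      rw [Nat.cast_choose_two, Nat.cast_choose_two, Nat.cast_choose_two,
        Nat.cast_choose_two] at h5'
      have hms : (S.card : ℝ) ≤ (S'.card : ℝ) + 3 := by
        have : ((S.card : ℕ) : ℝ) ≤ ((S'.card + 3 : ℕ) : ℝ) := by exact_mod_cast hm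
        push_cast at this
        exact this
      have hms' : (S'.card : ℝ) ≤ (S.card : ℝ) := by
        exact_mod_cast hm'
      have hs4 : 4 ≤ (S.card : ℝ) := by
        have : (0 : ℝ) ≤ u := Nat.cast_nonneg _
        linarith
      have hfin := num_a h5' hsum hMsum hms hms' hs4
      have hd : ∀ j, ((DT T (X j) S' : ℕ) : ℝ) ≤ ((DT T (X j) (S.erase (X j)) : ℕ) : ℝ) :=
        fun j => by exact_mod_cast hDT j
      by_contra hcon
      push Not at hcon
      have c0 := hcon (X 0) (hXD' 0).1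
      have c1 := hcon (X 1) (hXD' 1).1
      have c2 := hcon (X 2) (hXD' 2).1
      have d0 := hd 0
      have d1 := hd 1
      have d2 := hd 2
      linarith
  · push Not at hcyc
    apply weaken
    refine deg_one (w := u + K) (W := S.filter fun x => ¬ TwoD c x) h3 hT hc
      (hUS.trans (by omega)) (by omega) (by push_cast; exact hS) ?_
      (fun x _ y _ z _ => hcyc x y z)
    intro x hx
    rw [mem_sdiff, mem_filter] at hx
    by_contra h6
    exact hx.2 ⟨hx.1, h6⟩

/-- **The number of triples of a covering with exceptional vertices.** -/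
theorem count_all (h3 : ∀ e ∈ T, e.card = 3) (hT : TC.Covers T) (hc : T ⊆ locT c) {u K : ℕ}
    (hu : (univ.filter fun x => ¬ TwoD c x).card ≤ u) (hK : 1 ≤ K) {ρ : ℝ} (hρ : ρ ≤ 4 / 9)
    (hρT : ∀ S : Finset (Fin n), ρ / 6 * (S.card : ℝ) ^ 3 - (S.card : ℝ) ^ 2 / 2 ≤ NT T S) :
    ∀ k : ℕ, ∀ S : Finset (Fin n), S.card = k → 2 / 27 * (k : ℝ) ^ 3 - 2 * (k : ℝ) ^ 2 -
      (u : ℝ) ^ 2 / (6 * K) * k - (2 / 27 - ρ / 6) * (17 / 4 * ((u : ℝ) + K) + 1) ^ 3 ≤ NT T S := by
  intro k
  have hE : 0 ≤ (u : ℝ) ^ 2 / (6 * K) := by positivity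
  induction k with
  | zero =>
    intro S hS
    have h0 : 0 ≤ (2 / 27 - ρ / 6) * (17 / 4 * ((u : ℝ) + K) + 1) ^ 3 :=
      mul_nonneg (by linarith) (by positivity)
    have : (0 : ℝ) ≤ NT T S := Nat.cast_nonneg _
    push_cast
    linarith
  | succ k ih =>
    intro S hS
    by_cases hk : ((k + 1 : ℕ) : ℝ) ≤ 17 / 4 * ((u : ℝ) + K) + 1
    · have h5 := hρT S
      rw [hS] at h5
      have h6 : ((k + 1 : ℕ) : ℝ) ^ 3 ≤ (17 / 4 * ((u : ℝ) + K) + 1) ^ 3 :=
        pow_le_pow_left₀ (Nat.cast_nonneg _) hk 3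
      have h7 := mul_le_mul_of_nonneg_left h6 (show (0 : ℝ) ≤ 2 / 27 - ρ / 6 by linarith)
      have h8 : 0 ≤ (u : ℝ) ^ 2 / (6 * K) * ((k + 1 : ℕ) : ℝ) := by positivity
      have h9 : (0 : ℝ) ≤ ((k + 1 : ℕ) : ℝ) ^ 2 := by positivity
      linarith
    · push Not at hk
      obtain ⟨x, hx, h5⟩ := deg_any h3 hT hc hu hK (S := S) (by rw [hS]; linarith)
      have hcard : (S.erase x).card = k := by
        rw [card_erase_of_mem hx, hS]
        rfl
      have h6 := ih (S.erase x) hcard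
      have h7 := NT_insert (T := T) (notMem_erase x S)
      rw [insert_erase hx] at h7
      have h8 : (NT T S : ℝ) = (NT T (S.erase x) : ℝ) + (DT T x (S.erase x) : ℝ) := by
        exact_mod_cast h7
      rw [h8]
      rw [hS] at h5
      push_cast at h5 ⊢
      have hk0 : (0 : ℝ) ≤ k := Nat.cast_nonneg _
      nlinarith

end Pool.Agent.DL
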