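import Pool.Agent.DL.Links

/-! An example without cyclic triples. -/

set_option autoImplicit false
open Finset
open scoped Classical

namespace Pool.Agent.DL

open Pool.Agent.R810

variable {n : ℕ}

/-- the colour of a pair is the parity of the smaller vertex -/
def parC (i j : Fin n) : ℕ := (min i.val j.val) % 2

theorem par_lm {i j l : Fin n} (h1 : i < j) (h2 : j < l) :
    LM parC i j l ↔ i.val % 2 = j.val % 2 := by
  have a1 : i.val < j.val := h1
  have a2 : j.val < l.val := h2
  unfold LM parC
  rw [min_eq_left (a := i.val) (b := j.val) (by omega),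
    min_eq_left (a := i.val) (b := l.val) (by omega),
    min_eq_right (a := j.val) (b := i.val) (by omega),
    min_eq_left (a := j.val) (b := l.val) (by omega),
    min_eq_right (a := l.val) (b := i.val) (by omega),
    min_eq_right (a := l.val) (b := j.val) (by omega)]
  tauto

/-- the example -/
noncomputable def parT (n : ℕ) : Finset (Finset (Fin n)) := locT parC

theorem mem_parT {i j l : Fin n} (h1 : i < j) (h2 : j < l) :
    ({i, j, l} : Finset (Fin n)) ∈ parT n ↔ i.val % 2 = j.val % 2 := by
  unfold parT
  rw [mem_locT' h1.ne (h1.trans h2).ne h2.ne, par_lm h1 h2]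

/-- the general form: the two smaller vertices -/
theorem mem_parT' {x y z : Fin n} (hxy : x ≠ y) (hxz : x ≠ z) (hyz : y ≠ z) :
    ({x, y, z} : Finset (Fin n)) ∈ parT n ↔
      ((x < z → y < z → x.val % 2 = y.val % 2) ∧ (x < y → z < y → x.val % 2 = z.val % 2) ∧
        (y < x → z < x → y.val % 2 = z.val % 2)) := by
  have e1 : ({x, z, y} : Finset (Fin n)) = {x, y, z} := by
    rw [pair_comm z y]
  have e2 : ({y, x, z} : Finset (Fin n)) = {x, y, z} := by
    ext t
    simp only [mem_insert, mem_singleton]
    tauto
  have e3 : ({y, z, x} : Finset (Fin n)) = {x, y, z} := by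
    ext t
    simp only [mem_insert, mem_singleton]
    tauto
  have e4 : ({z, x, y} : Finset (Fin n)) = {x, y, z} := by
    ext t
    simp only [mem_insert, mem_singleton]
    tauto
  have e5 : ({z, y, x} : Finset (Fin n)) = {x, y, z} := by
    ext t
    simp only [mem_insert, mem_singleton]
    tauto
  have hv1 : x.val ≠ y.val := fun e => hxy (Fin.ext e)
  have hv2 : x.val ≠ z.val := fun e => hxz (Fin.ext e)
  have hv3 : y.val ≠ z.val := fun e => hyz (Fin.ext e)
  simp only [Fin.lt_def]
  rcases lt_or_gt_of_ne hv1 with a | a <;> rcases lt_or_gt_of_ne hv2 with b | b <;>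
    rcases lt_or_gt_of_ne hv3 with d | d
  · rw [mem_parT (i := x) (j := y) (l := z) a d]
    omega
  · rw [← e1, mem_parT (i := x) (j := z) (l := y) b d]
    omega
  · omega
  · rw [← e4, mem_parT (i := z) (j := x) (l := y) b a]
    omega
  · rw [← e2, mem_parT (i := y) (j := x) (l := z) a b]
    omega
  · omega
  · rw [← e3, mem_parT (i := y) (j := z) (l := x) d b]
    omega
  · rw [← e5, mem_parT (i := z) (j := y) (l := x) d a]
    omega

theorem parT_three : ∀ e ∈ parT n, e.card = 3 := locT_three

theorem parT_covers : TC.Covers (parT n) := by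
  intro S hS
  have hne : S.Nonempty := card_pos.1 (by omega)
  set m := S.max' hne with hm
  have hmS : m ∈ S := max'_mem _ _
  have hc : (S.erase m).card = 3 := by
    rw [card_erase_of_mem hmS, hS]
  obtain ⟨i, hi, j, hj, hij, hpar⟩ := exists_ne_map_eq_of_card_lt_of_maps_to
    (s := S.erase m) (t := range 2) (by rw [hc, card_range]; norm_num)
    (f := fun x : Fin n => x.val % 2) (fun x _ => mem_coe.2 (mem_range.2 (Nat.mod_lt _ (by norm_num))))
  have hpar' : i.val % 2 = j.val % 2 := hpar
  have him : i < m := lt_of_le_of_ne (le_max' _ _ (mem_of_mem_erase hi)) (ne_of_mem_erase hi)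
  have hjm : j < m := lt_of_le_of_ne (le_max' _ _ (mem_of_mem_erase hj)) (ne_of_mem_erase hj)
  refine ⟨{i, j, m}, ?_, ?_⟩
  · rw [mem_parT' hij him.ne hjm.ne]
    simp only [Fin.lt_def] at him hjm ⊢
    omega
  · intro t ht
    simp only [mem_insert, mem_singleton] at ht
    rcases ht with rfl | rfl | rfl
    · exact mem_of_mem_erase hi
    · exact mem_of_mem_erase hj
    · exact hmS

theorem parT_links (hn : 3 ≤ n) (x : Fin n) : ¬ (linkGraph (parT n) x).Connected := by
  intro hC
  by_cases hx : x.val = 0
  · have h1 : (⟨1, by omega⟩ : Fin n) ≠ x := fun e => by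
      rw [← e] at hx
      simp at hx
    have h2 : (⟨2, by omega⟩ : Fin n) ≠ x := fun e => by
      rw [← e] at hx
      simp at hx
    have h3 := reach_inv (P := fun y : {y : Fin n // y ≠ x} => y.1.val = 1) ?_
      (hC.preconnected ⟨_, h1⟩ ⟨_, h2⟩)
    · simp at h3
    · rintro ⟨a, ha⟩ ⟨b, hb⟩ ⟨h4, h5⟩
      have hab : a ≠ b := fun e => h4 (Subtype.ext e)
      simp only at h5
      rw [mem_parT' ha.symm hb.symm hab] at h5
      have a1 : a.val ≠ x.val := fun e => ha (Fin.ext e)
      have b1 : b.val ≠ x.val := fun e => hb (Fin.ext e)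
      have c1 : a.val ≠ b.val := fun e => hab (Fin.ext e)
      simp only [Fin.lt_def] at h5
      simp only
      omega
  · have hxn := x.2
    have h1 : (⟨x.val - 1, by omega⟩ : Fin n) ≠ x := fun e => by
      have := congrArg Fin.val e
      simp only at this
      omega
    obtain ⟨z, hz, hz'⟩ : ∃ z : Fin n, z ≠ x ∧ ¬ (z.val < x.val ∧ z.val % 2 ≠ x.val % 2) := by
      by_cases h : x.val + 1 < n
      · refine ⟨⟨x.val + 1, h⟩, fun e => ?_, ?_⟩
        · have := congrArg Fin.val e
          simp only at this
          omega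
        · simp only
          omega
      · refine ⟨⟨x.val - 2, by omega⟩, fun e => ?_, ?_⟩
        · have := congrArg Fin.val e
          simp only at this
          omega
        · simp only
          omega
    have h3 := reach_inv (P := fun y : {y : Fin n // y ≠ x} =>
      y.1.val < x.val ∧ y.1.val % 2 ≠ x.val % 2) ?_ (hC.preconnected ⟨_, h1⟩ ⟨_, hz⟩)
    · apply hz'
      apply h3.1
      simp only
      omega
    · rintro ⟨a, ha⟩ ⟨b, hb⟩ ⟨h4, h5⟩
      have hab : a ≠ b := fun e => h4 (Subtype.ext e)
      simp only at h5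
      rw [mem_parT' ha.symm hb.symm hab] at h5
      have a1 : a.val ≠ x.val := fun e => ha (Fin.ext e)
      have b1 : b.val ≠ x.val := fun e => hb (Fin.ext e)
      have c1 : a.val ≠ b.val := fun e => hab (Fin.ext e)
      simp only [Fin.lt_def] at h5
      simp only
      omega

theorem parT_ne (hn : 3 ≤ n) : ¬ ∃ g : Fin n → Fin 3,
    (∀ i, 2 ≤ (univ.filter fun x => g x = i).card) ∧ parT n = TC.turanCovering g := by
  rintro ⟨g, hg, he⟩
  set a : Fin n := ⟨0, by omega⟩ with ha
  set b : Fin n := ⟨1, by omega⟩ with hb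
  have hab : a ≠ b := fun e => by
    have := congrArg Fin.val e
    simp [ha, hb] at this
  have hno : ∀ d, d ≠ a → d ≠ b → ({a, b, d} : Finset (Fin n)) ∉ parT n := by
    intro d hda hdb h
    rw [mem_parT' hab hda.symm hdb.symm] at h
    have a1 : d.val ≠ a.val := fun e => hda (Fin.ext e)
    have b1 : d.val ≠ b.val := fun e => hdb (Fin.ext e)
    have av : a.val = 0 := rfl
    have bv : b.val = 1 := rfl
    simp only [Fin.lt_def] at h
    omega
  have ex : ∀ (i : Fin 3) (x : Fin n), ∃ d, d ≠ x ∧ g d = i := by
    intro i x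
    obtain ⟨s, hs, t, ht, hst⟩ := one_lt_card.1 (show 1 < (univ.filter fun y => g y = i).card by
      have := hg i
      omega)
    by_cases h : s = x
    · exact ⟨t, fun e => hst (h.trans e.symm), (mem_filter.1 ht).2⟩
    · exact ⟨s, h, (mem_filter.1 hs).2⟩
  have f : ∀ i : Fin 3, i + 1 ≠ i := by decide
  have f2 : ∀ i j : Fin 3, i = j ∨ j = i + 1 ∨ i = j + 1 := by decide
  have p1 : ∀ i : Fin 3, ((∃ k, i = k ∧ i = k ∧ i + 1 = k) ∨
      ∃ k, ((if i = k then 1 else 0) + ((if i = k then 1 else 0) + (if i + 1 = k then 1 else 0)) = 2 ∧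
      (if i = k + 1 then 1 else 0) + ((if i = k + 1 then 1 else 0) +
        (if i + 1 = k + 1 then 1 else 0)) = 1)) := by decide
  have p2 : ∀ i : Fin 3, ((∃ k, i = k ∧ i + 1 = k ∧ i = k) ∨
      ∃ k, ((if i = k then 1 else 0) + ((if i + 1 = k then 1 else 0) + (if i = k then 1 else 0)) = 2 ∧
      (if i = k + 1 then 1 else 0) + ((if i + 1 = k + 1 then 1 else 0) +
        (if i = k + 1 then 1 else 0)) = 1)) := by decide
  have p3 : ∀ i : Fin 3, ((∃ k, i + 1 = k ∧ i = k ∧ i = k) ∨
      ∃ k, ((if i + 1 = k then 1 else 0) + ((if i = k then 1 else 0) + (if i = k then 1 else 0)) = 2 ∧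
      (if i + 1 = k + 1 then 1 else 0) + ((if i = k + 1 then 1 else 0) +
        (if i = k + 1 then 1 else 0)) = 1)) := by decide
  rcases f2 (g a) (g b) with h | h | h
  · obtain ⟨d, hda, hd⟩ := ex (g a + 1) a
    have hdb : d ≠ b := fun e => f (g a) (by rw [← hd, e, h])
    apply hno d hda hdb
    rw [he, TC.mem_cov g hab hda.symm hdb.symm, ← h, hd]
    exact p1 _
  · obtain ⟨d, hda, hd⟩ := ex (g a) a
    have hdb : d ≠ b := fun e => f (g a) (by rw [← h, ← e, hd])
    apply hno d hda hdb
    rw [he, TC.mem_cov g hab hda.symm hdb.symm, h, hd]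
    exact p2 _
  · obtain ⟨d, hdb, hd⟩ := ex (g b) b
    have hda : d ≠ a := fun e => f (g b) (by rw [← h, ← e, hd])
    apply hno d hda hdb
    rw [he, TC.mem_cov g hab hda.symm hdb.symm, h, hd]
    exact p3 _

/-- upper bound for the degree -/
theorem D_le {V κ : Type*} {c : V → V → κ} {S : Finset V} {x : V} (hx : x ∉ S) {P : Finset V}
    (_hP : P ⊆ S) (h : ∀ y ∈ S, ∀ z ∈ S, y ≠ z → LM c x y z → (y ∈ P ↔ z ∈ P)) :
    D c x S ≤ P.card.choose 2 + (S \ P).card.choose 2 := by
  unfold D
  rw [← card_powersetCard 2 P, ← card_powersetCard 2 (S \ P)]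
  refine le_trans (card_le_card ?_) (card_union_le _ _)
  intro p hp
  obtain ⟨h1, h2⟩ := mem_filter.1 hp
  obtain ⟨h3, h4⟩ := mem_powersetCard.1 h1
  obtain ⟨a, b, hab, rfl⟩ := card_eq_two.1 h4
  have ha : a ∈ S := h3 (by simp)
  have hb : b ∈ S := h3 (by simp)
  have nx : x ≠ a ∧ x ≠ b := ⟨by rintro rfl; exact hx ha, by rintro rfl; exact hx hb⟩
  have h5 := h a ha b hb hab ((loc_iff nx.1 nx.2 hab).1 h2)
  rw [mem_union, mem_powersetCard, mem_powersetCard]
  by_cases h6 : a ∈ P
  · left
    refine ⟨?_, h4⟩
    intro t ht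
    rw [mem_insert, mem_singleton] at ht
    rcases ht with rfl | rfl
    · exact h6
    · exact h5.1 h6
  · right
    refine ⟨?_, h4⟩
    intro t ht
    rw [mem_insert, mem_singleton] at ht
    rcases ht with rfl | rfl
    · exact mem_sdiff.2 ⟨ha, h6⟩
    · exact mem_sdiff.2 ⟨hb, fun h7 => h6 (h5.2 h7)⟩

theorem D_le' {V κ : Type*} [inst : DecidableEq V] {c : V → V → κ} {S : Finset V} {x : V}
    (hx : x ∉ S) {P : Finset V} (hP : P ⊆ S)
    (h : ∀ y ∈ S, ∀ z ∈ S, y ≠ z → LM c x y z → (y ∈ P ↔ z ∈ P)) :
    D c x S ≤ P.card.choose 2 + (S \ P).card.choose 2 := by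
  have e : inst = fun a b => Classical.propDecidable (a = b) := Subsingleton.elim _ _
  subst e
  exact D_le hx hP h

theorem N_insert' {V κ : Type*} [inst : DecidableEq V] {c : V → V → κ} {S : Finset V} {x : V}
    (hx : x ∉ S) : N c (insert x S) = N c S + D c x S := by
  have e : inst = fun a b => Classical.propDecidable (a = b) := Subsingleton.elim _ _
  subst e
  exact N_insert hx

theorem count_mod (k : ℕ) : ∀ n : ℕ, k ≤ n →
    (univ.filter fun i : Fin n => i.val < k ∧ i.val % 2 = 0).card = (k + 1) / 2 ∧
    (univ.filter fun i : Fin n => i.val < k ∧ i.val % 2 = 1).card = k / 2 := by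
  induction k with
  | zero =>
    intro n _
    simp
  | succ k ih =>
    intro n hn
    obtain ⟨h1, h2⟩ := ih n (by omega)
    have key : ∀ s : ℕ, (univ.filter fun i : Fin n => i.val < k + 1 ∧ i.val % 2 = s).card =
        (univ.filter fun i : Fin n => i.val < k ∧ i.val % 2 = s).card +
          if k % 2 = s then 1 else 0 := by
      intro s
      by_cases hs : k % 2 = s
      · rw [if_pos hs]
        have : (univ.filter fun i : Fin n => i.val < k + 1 ∧ i.val % 2 = s) =
            insert (⟨k, by omega⟩ : Fin n) (univ.filter fun i : Fin n => i.val < k ∧ i.val % 2 = s) := by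
          ext i
          simp only [mem_filter, mem_univ, true_and, mem_insert, Fin.ext_iff]
          omega
        rw [this, card_insert_of_notMem]
        simp
      · rw [if_neg hs, add_zero]
        congr 1
        ext i
        simp only [mem_filter, mem_univ, true_and]
        constructor
        · rintro ⟨h3, h4⟩
          refine ⟨?_, h4⟩
          have : i.val ≠ k := by
            intro e
            rw [e] at h4
            exact hs h4
          omega
        · rintro ⟨h3, h4⟩
          exact ⟨by omega, h4⟩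
    rw [key 0, key 1, h1, h2]
    constructor
    · split_ifs <;> omega
    · split_ifs <;> omega

theorem choose_par (l : ℕ) : ((l + 1) / 2).choose 2 + (l / 2).choose 2 = (l - 1) ^ 2 / 4 := by
  rcases Nat.even_or_odd' l with ⟨t, rfl | rfl⟩
  · have e1 : (2 * t + 1) / 2 = t := by omega
    have e2 : 2 * t / 2 = t := by omega
    rw [e1, e2, Nat.choose_two_right]
    rcases t with _ | t
    · simp
    · have e3 : 2 * (t + 1) - 1 = 2 * t + 1 := by omega
      rw [e3, Nat.add_sub_cancel]
      have e4 : (2 * t + 1) ^ 2 = 4 * (t * t + t) + 1 := by ring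
      have e5 : (t + 1) * t = t * t + t := by ring
      have e6 : 2 ∣ (t + 1) * t := by
        have := (Nat.even_mul_succ_self t).two_dvd
        rwa [mul_comm] at this
      rw [e4, e5]
      rw [e5] at e6
      omega
  · have e1 : (2 * t + 1 + 1) / 2 = t + 1 := by omega
    have e2 : (2 * t + 1) / 2 = t := by omega
    rw [e1, e2, Nat.choose_two_right, Nat.choose_two_right, Nat.add_sub_cancel, Nat.add_sub_cancel]
    have e4 : (2 * t) ^ 2 = 4 * (t * t) := by ring
    rcases t with _ | t
    · simp
    · rw [Nat.add_sub_cancel]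
      have e5 : (t + 1 + 1) * (t + 1) = (t * t + t) + 2 * (t + 1) := by ring
      have e6 : (t + 1) * t = t * t + t := by ring
      have e7 : 2 ∣ t * t + t := by
        have := (Nat.even_mul_succ_self t).two_dvd
        rwa [Nat.mul_succ] at this
      have e8 : (t + 1) * (t + 1) = (t * t + t) + (t + 1) := by ring
      rw [e4, e5, e6, e8]
      omega

theorem parT_card (n : ℕ) : (parT n).card ≤ H n := by
  have key : ∀ k : ℕ, k ≤ n → N (parC (n := n)) (univ.filter fun i : Fin n => i.val < k) ≤ H k := by
    intro k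
    induction k with
    | zero =>
      intro _
      have : (univ.filter fun i : Fin n => i.val < 0) = ∅ := by simp
      rw [this]
      unfold N
      rw [powersetCard_eq_empty.2 (by simp)]
      simp
    | succ k ih =>
      intro hk
      have ih' := ih (by omega)
      set S : Finset (Fin n) := univ.filter fun i : Fin n => i.val < k with hS
      have h1 : (univ.filter fun i : Fin n => i.val < k + 1) = insert (⟨k, by omega⟩ : Fin n) S := by
        ext i
        simp only [hS, mem_filter, mem_univ, true_and, mem_insert, Fin.ext_iff]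
        omega
      have h2 : (⟨k, by omega⟩ : Fin n) ∉ S := by simp [hS]
      rw [h1, N_insert' h2, H_succ']
      refine Nat.add_le_add ih' ?_
      obtain ⟨c1, c2⟩ := count_mod k n (by omega)
      set P : Finset (Fin n) := univ.filter fun i : Fin n => i.val < k ∧ i.val % 2 = 0 with hP
      have hPS : P ⊆ S := by
        intro i hi
        rw [hP, mem_filter] at hi
        rw [hS, mem_filter]
        exact ⟨mem_univ _, hi.2.1⟩
      have hSP : S \ P = univ.filter fun i : Fin n => i.val < k ∧ i.val % 2 = 1 := by
        ext i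
        simp only [hS, hP, mem_sdiff, mem_filter, mem_univ, true_and]
        omega
      refine (D_le' h2 hPS ?_).trans ?_
      · intro y hy z hz hyz hL
        rw [hS, mem_filter] at hy hz
        have hL1 := hL.1
        unfold parC at hL1
        simp only at hL1
        rw [min_eq_right (by omega), min_eq_right (by omega)] at hL1
        simp only [hP, mem_filter, mem_univ, true_and]
        omega
      · rw [hSP, c1, c2]
        exact (choose_par k).le
  have h := key n le_rfl
  have h1 : (univ.filter fun i : Fin n => i.val < n) = univ := by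
    ext i
    simp
  rw [h1] at h
  exact h

theorem parT_card_eq (hn : 3 ≤ n) : (parT n).card = H n := by
  refine le_antisymm (parT_card n) ?_
  rcases (links (by omega) parT_three parT_covers (parT_links hn)).2 with h | h
  · exact absurd h (parT_ne hn)
  · exact h

end Pool.Agent.DL
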