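import Pool.Agent.DL.Rob3
import Pool.Agent.DL.Par

/-! The robust form in terms of cuts of the link graphs. -/

set_option autoImplicit false
open Finset
open scoped Classical

namespace Pool.Agent.DL

open Pool.Agent.R810
open Pool.Agent.R810.LJ (ind ind_t ind_f ind_nonneg tn_le)
open Pool.Agent.R810.TC (sum_ind_card)

/-- the link graph of `x` has a balanced sparse cut -/
def SparseCut {n : ℕ} (T : Finset (Finset (Fin n))) (δ ε : ℝ) (x : Fin n) : Prop :=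
  ∃ A : Finset (Fin n), δ * n ≤ A.card ∧ (A.card : ℝ) ≤ (1 - δ) * n ∧
    ({p : Fin n × Fin n | p.1 ∈ A ∧ p.2 ∉ A ∧ ({x, p.1, p.2} : Finset (Fin n)) ∈ T}.ncard : ℝ) ≤
      ε * (n : ℝ) ^ 2

theorem SparseCut.mono {n : ℕ} {T : Finset (Finset (Fin n))} {δ δ' ε : ℝ} {x : Fin n}
    (hδ : δ' ≤ δ) (h : SparseCut T δ ε x) : SparseCut T δ' ε x := by
  obtain ⟨A, h1, h2, h3⟩ := h
  have hn : (0 : ℝ) ≤ n := Nat.cast_nonneg _
  exact ⟨A, le_trans (mul_le_mul_of_nonneg_right hδ hn) h1,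
    h2.trans (mul_le_mul_of_nonneg_right (by linarith) hn), h3⟩

theorem crs_le {n : ℕ} {T : Finset (Finset (Fin n))} {Q : Fin n → Finset (Fin n)}
    {B : Finset (Fin n)} {ε : ℝ} (hε : 0 ≤ ε)
    (h : ∀ x, x ∉ B → ({p : Fin n × Fin n | p.1 ∈ Q x ∧ p.2 ∉ Q x ∧
      ({x, p.1, p.2} : Finset (Fin n)) ∈ T}.ncard : ℝ) ≤ ε * (n : ℝ) ^ 2) :
    ((crs Q B T : ℤ) : ℝ) ≤ ε * (n : ℝ) ^ 3 := by
  unfold crs
  rw [Int.cast_sum]
  have h1 : ∀ x ∈ (univ : Finset (Fin n)),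
      ((∑ y : Fin n, ∑ z : Fin n, ind (x ∉ B ∧ Cr Q T x y z) : ℤ) : ℝ) ≤ ε * (n : ℝ) ^ 2 := by
    intro x _
    by_cases hx : x ∉ B
    · refine le_trans (le_of_eq ?_) (h x hx)
      have h2 : ∑ y : Fin n, ∑ z : Fin n, ind (x ∉ B ∧ Cr Q T x y z) =
          ∑ p : Fin n × Fin n, ind (p.1 ∈ Q x ∧ p.2 ∉ Q x ∧
            ({x, p.1, p.2} : Finset (Fin n)) ∈ T) := by
        rw [Fintype.sum_prod_type]
        refine sum_congr rfl fun y _ => sum_congr rfl fun z _ => ?_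
        congr 1
        exact propext ⟨fun h => h.2, fun h => ⟨hx, h⟩⟩
      rw [h2, sum_ind_card]
      push_cast
      congr 1
      rw [Set.ncard_eq_toFinset_card']
      congr 1
      ext p
      simp
    · have : ∑ y : Fin n, ∑ z : Fin n, ind (x ∉ B ∧ Cr Q T x y z) = 0 := by
        refine sum_eq_zero fun y _ => sum_eq_zero fun z _ => ind_f fun h => hx h.1
      rw [this]
      push_cast
      positivity
  refine (sum_le_sum h1).trans (le_of_eq ?_)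
  rw [sum_const, card_univ, Fintype.card_fin, nsmul_eq_mul]
  ring

theorem stable {δ η : ℝ} (hδ : 0 < δ) (hη : 0 < η) :
    ∃ ε : ℝ, 0 < ε ∧ ∃ n0 : ℕ, ∀ n, n0 ≤ n → ∀ T : Finset (Finset (Fin n)),
      (∀ e ∈ T, e.card = 3) → TC.Covers T →
      ({x : Fin n | ¬ SparseCut T δ ε x}.ncard : ℝ) ≤ ε * n →
      (1 / 2 - η) * (n.choose 3 : ℝ) ≤ (T.card : ℝ) ∨
        ∃ g : Fin n → Fin 3, ((symmDiff T (TC.turanCovering g)).card : ℝ) ≤ η * (n : ℝ) ^ 3 := by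
  have hδ' : 0 < min δ (1 / 2) := lt_min hδ (by norm_num)
  have hδ1 : min δ (1 / 2) < 1 := lt_of_le_of_lt (min_le_right _ _) (by norm_num)
  have hη' : 0 < min η (1 / 6) := lt_min hη (by norm_num)
  obtain ⟨ε, hε, n0, hmain⟩ := robust hδ' hδ1 hη' (min_le_right _ _)
  refine ⟨ε, hε, n0, fun n hn T h3 hT hB => ?_⟩
  have hn0 : (0 : ℝ) ≤ n := Nat.cast_nonneg _
  set B : Finset (Fin n) := univ.filter fun x => ¬ SparseCut T δ ε x with hBdef
  have hBc : (B.card : ℝ) ≤ ε * n := by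
    refine le_trans (le_of_eq ?_) hB
    congr 1
    rw [Set.ncard_eq_toFinset_card']
    congr 1
    ext p
    simp [hBdef]
  have hcut : ∀ x, x ∉ B → SparseCut T (min δ (1 / 2)) ε x := by
    intro x hx
    rw [hBdef, mem_filter] at hx
    have : SparseCut T δ ε x := by
      by_contra h
      exact hx ⟨mem_univ _, h⟩
    exact this.mono (min_le_left _ _)
  set Q : Fin n → Finset (Fin n) := fun x => if h : x ∉ B then (hcut x h).choose else ∅ with hQ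
  have hQx : ∀ x (h : x ∉ B), Q x = (hcut x h).choose := fun x h => by
    simp only [hQ]
    rw [dif_pos h]
  have hspec : ∀ x, x ∉ B → min δ (1 / 2) * n ≤ (Q x).card ∧
      ((Q x).card : ℝ) ≤ (1 - min δ (1 / 2)) * n ∧ ({p : Fin n × Fin n | p.1 ∈ Q x ∧ p.2 ∉ Q x ∧
      ({x, p.1, p.2} : Finset (Fin n)) ∈ T}.ncard : ℝ) ≤ ε * (n : ℝ) ^ 2 := by
    intro x hx
    rw [hQx x hx]
    exact (hcut x hx).choose_spec
  rcases hmain n hn T h3 hT Q B hBc (fun x hx => (hspec x hx).2.1) (fun x hx => by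
    have h1 := (hspec x hx).1
    have h2 : ((Q x).card : ℝ) + (((Q x)ᶜ).card : ℝ) = n := by
      have := card_add_card_compl (Q x)
      rw [Fintype.card_fin] at this
      exact_mod_cast this
    linarith) (crs_le hε.le fun x hx => (hspec x hx).2.2) with h | ⟨g, hg⟩
  · left
    refine le_trans ?_ h
    have := min_le_left η (1 / 6)
    exact mul_le_mul_of_nonneg_right (by linarith) (Nat.cast_nonneg _)
  · right
    refine ⟨g, hg.trans ?_⟩
    exact mul_le_mul_of_nonneg_right (min_le_left _ _) (by positivity)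

theorem choose_ge {n : ℕ} (hn : 6 ≤ n) : (n : ℝ) ^ 3 / 12 ≤ ((n.choose 3 : ℕ) : ℝ) := by
  have h6 := TC.c3 n
  have h7 : 6 * ((n.choose 3 : ℕ) : ℝ) = (n : ℝ) * ((n : ℝ) - 1) * ((n : ℝ) - 2) := by
    exact_mod_cast h6
  have h9 : (6 : ℝ) ≤ n := by exact_mod_cast hn
  have h10 : 0 ≤ (n : ℝ) * ((n : ℝ) ^ 2 - 6 * n + 4) := by
    refine mul_nonneg (by linarith) ?_
    nlinarith
  nlinarith

theorem fn_ge (n : ℕ) : 2 / 27 * (n : ℝ) ^ 3 - (n : ℝ) ^ 2 / 2 ≤ ((TC.fn n : ℕ) : ℝ) := by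
  have h1 := tn_le n
  have h2 := TC.tn_add_fn n
  have h3 : ((LJ.tn n : ℕ) : ℝ) + ((TC.fn n : ℕ) : ℝ) = ((n.choose 3 : ℕ) : ℝ) := by
    exact_mod_cast h2
  have h4 : 54 * ((LJ.tn n : ℕ) : ℝ) ≤ 5 * (n : ℝ) ^ 3 := by exact_mod_cast h1
  have h6 := TC.c3 n
  have h7 : 6 * ((n.choose 3 : ℕ) : ℝ) = (n : ℝ) * ((n : ℝ) - 1) * ((n : ℝ) - 2) := by
    exact_mod_cast h6
  have h8 : (0 : ℝ) ≤ n := Nat.cast_nonneg _
  nlinarith

/-- The stability theorem and the bound `4/9`. -/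
theorem final {δ η : ℝ} (hδ : 0 < δ) (hη : 0 < η) :
    ∃ ε : ℝ, 0 < ε ∧ ∃ n0 : ℕ, ∀ n, n0 ≤ n → ∀ T : Finset (Finset (Fin n)),
      (∀ e ∈ T, e.card = 3) → TC.Covers T →
      ({x : Fin n | ¬ SparseCut T δ ε x}.ncard : ℝ) ≤ ε * n →
      (4 / 9 - η) * (n.choose 3 : ℝ) ≤ (T.card : ℝ) ∧
      ((1 / 2 - η) * (n.choose 3 : ℝ) ≤ (T.card : ℝ) ∨
        ∃ g : Fin n → Fin 3,
          ((symmDiff T (TC.turanCovering g)).card : ℝ) ≤ η * (n : ℝ) ^ 3) := by
  have hη' : 0 < min (η / 24) (1 / 18) := lt_min (by positivity) (by norm_num)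
  obtain ⟨ε, hε, n0, hmain⟩ := stable hδ hη'
  refine ⟨ε, hε, max n0 (max 6 ⌈12 / η⌉₊), fun n hn T h3 hT hB => ?_⟩
  have hn1 : n0 ≤ n := (le_max_left _ _).trans hn
  have hn6 : 6 ≤ n := ((le_max_left _ _).trans (le_max_right _ _)).trans hn
  have hn12 : 12 / η ≤ (n : ℝ) := by
    have h1 : ⌈12 / η⌉₊ ≤ n := ((le_max_right _ _).trans (le_max_right _ _)).trans hn
    exact (Nat.le_ceil _).trans (by exact_mod_cast h1)
  have hC0 : (0 : ℝ) ≤ (n.choose 3 : ℝ) := Nat.cast_nonneg _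
  have m1 := min_le_left (η / 24) (1 / 18 : ℝ)
  have m2 := min_le_right (η / 24) (1 / 18 : ℝ)
  have hc := choose_three_le n
  have hc' := choose_ge hn6
  rcases hmain n hn1 T h3 hT hB with h | ⟨g, hg⟩
  · have h1 : (4 / 9 : ℝ) * (n.choose 3 : ℝ) ≤ (T.card : ℝ) :=
      le_trans (mul_le_mul_of_nonneg_right (by linarith) hC0) h
    have h2 : 0 ≤ η * (n.choose 3 : ℝ) := by positivity
    refine ⟨by linarith, Or.inl ?_⟩
    refine le_trans (mul_le_mul_of_nonneg_right ?_ hC0) h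
    linarith
  · have hn3 : (0 : ℝ) ≤ (n : ℝ) ^ 3 := by positivity
    have h0 : min (η / 24) (1 / 18) * (n : ℝ) ^ 3 ≤ η / 24 * (n : ℝ) ^ 3 :=
      mul_le_mul_of_nonneg_right m1 hn3
    refine ⟨?_, Or.inr ⟨g, hg.trans (h0.trans ?_)⟩⟩
    · have h1 : TC.fn n ≤ T.card + (symmDiff T (TC.turanCovering g)).card := by
        refine (TC.fn_le_cov g).trans ?_
        refine le_trans (card_le_card ?_) (card_union_le T (symmDiff T (TC.turanCovering g)))
        intro e he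
        rw [mem_union, mem_symmDiff]
        by_cases h5 : e ∈ T
        · exact Or.inl h5
        · exact Or.inr (Or.inr ⟨he, h5⟩)
      have h2 : ((TC.fn n : ℕ) : ℝ) ≤ (T.card : ℝ) +
          ((symmDiff T (TC.turanCovering g)).card : ℝ) := by exact_mod_cast h1
      have h4 := fn_ge n
      rw [div_le_iff₀ hη] at hn12
      have h5 : 12 * (n : ℝ) ^ 2 ≤ η * (n : ℝ) ^ 3 := by
        have : 0 ≤ (n : ℝ) ^ 2 * ((n : ℝ) * η - 12) := mul_nonneg (by positivity) (by linarith)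
        nlinarith
      have h6 : η * ((n : ℝ) ^ 3 / 12) ≤ η * (n.choose 3 : ℝ) :=
        mul_le_mul_of_nonneg_left hc' hη.le
      linarith
    · nlinarith

end Pool.Agent.DL
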