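import Pool.Agent.DL.Gam3
import Pool.Agent.DL.Rob4

/-! Turán density and blow-ups. -/

set_option autoImplicit false
open Finset Filter
open scoped Classical

namespace Pool.Agent.DL

open Pool.Agent.R810
open Pool.Agent.R810.LJ (ind ind_t ind_f ind_nonneg six_le ord_le_six K43Free)

/-- all `K_4^3`-free 3-graphs have at most `p m³ / 6` edges -/
def Dens (p : ℝ) : Prop := ∀ (m : ℕ) (H : Finset (Finset (Fin m))), (∀ e ∈ H, e.card = 3) →
  K43Free H → 6 * (H.card : ℝ) ≤ p * (m : ℝ) ^ 3

theorem Dens.bound {p : ℝ} (hp : Dens p) {n : ℕ} {T : Finset (Finset (Fin n))}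
    (h3 : ∀ e ∈ T, e.card = 3) (hT : TC.Covers T) (S : Finset (Fin n)) :
    (1 - p) / 6 * (S.card : ℝ) ^ 3 - (S.card : ℝ) ^ 2 / 2 ≤ NT T S := by
  set f : Fin S.card → Fin n := fun i => ((S.equivFin.symm i : S) : Fin n) with hf
  have hfi : Function.Injective f := by
    intro i j hij
    have : S.equivFin.symm i = S.equivFin.symm j := Subtype.ext hij
    exact S.equivFin.symm.injective this
  have hfS : ∀ i, f i ∈ S := fun i => (S.equivFin.symm i).2
  have hcov := pull_covers h3 hT hfi
  set H : Finset (Finset (Fin S.card)) := powersetCard 3 univ \ pull T f with hH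
  have hH3 : ∀ e ∈ H, e.card = 3 := fun e he => (mem_powersetCard.1 (mem_sdiff.1 he).1).2
  have hHK : K43Free H := by
    intro Q hQ
    obtain ⟨e, he, heQ⟩ := hcov Q hQ
    exact ⟨e, heQ, pull_three f e he, fun h => (mem_sdiff.1 h).2 he⟩
  have h5 := hp _ H hH3 hHK
  have hsub : pull T f ⊆ powersetCard 3 univ := filter_subset _ _
  have h6 : H.card + (pull T f).card = S.card.choose 3 := by
    rw [hH, card_sdiff_add_card_eq_card hsub, card_powersetCard, card_univ, Fintype.card_fin]
  have h6' : (H.card : ℝ) + (pull T f).card = (S.card.choose 3 : ℕ) := by exact_mod_cast h6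
  have h7 := TC.c3 S.card
  have h7' : 6 * ((S.card.choose 3 : ℕ) : ℝ) =
      (S.card : ℝ) * ((S.card : ℝ) - 1) * ((S.card : ℝ) - 2) := by
    exact_mod_cast h7
  have h8 : (pull T f).card ≤ NT T S := by
    unfold NT
    have h9 : ((pull T f).image fun e => e.image f).card = (pull T f).card :=
      card_image_of_injective _ (image_injective hfi)
    rw [← h9]
    refine card_le_card ?_
    intro e he
    obtain ⟨e', he', rfl⟩ := mem_image.1 he
    unfold pull at he'
    rw [mem_filter, mem_powersetCard] at he'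
    rw [mem_filter, mem_powersetCard]
    refine ⟨⟨?_, ?_⟩, he'.2⟩
    · intro t ht
      obtain ⟨i, -, rfl⟩ := mem_image.1 ht
      exact hfS i
    · rw [card_image_of_injective _ hfi, he'.1.2]
  have h8' : ((pull T f).card : ℝ) ≤ NT T S := by exact_mod_cast h8
  have hk : (0 : ℝ) ≤ S.card := Nat.cast_nonneg _
  nlinarith

/-- the maximum number of edges of a `K_4^3`-free 3-graph on `n` vertices -/
noncomputable def exK (n : ℕ) : ℕ :=
  sSup {m : ℕ | ∃ H : Finset (Finset (Fin n)), (∀ e ∈ H, e.card = 3) ∧ K43Free H ∧ H.card = m}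

theorem le_exK {n : ℕ} {H : Finset (Finset (Fin n))} (h3 : ∀ e ∈ H, e.card = 3)
    (hK : K43Free H) : H.card ≤ exK n := by
  refine le_csSup ⟨Fintype.card (Finset (Fin n)), ?_⟩ ⟨H, h3, hK, rfl⟩
  rintro m ⟨H', -, -, rfl⟩
  exact card_le_univ _

theorem sum_fibre {m t : ℕ} (F : Fin m → ℤ) :
    ∑ x : Fin (m * t), F ((finProdFinEquiv.symm x).1) = t * ∑ a, F a := by
  have h1 : ∑ x : Fin (m * t), F ((finProdFinEquiv.symm x).1) =
      ∑ q : Fin m × Fin t, F q.1 :=
    Fintype.sum_equiv finProdFinEquiv.symm _ _ fun x => rfl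
  rw [h1, Fintype.sum_prod_type, mul_sum]
  refine sum_congr rfl fun a _ => ?_
  change ∑ _y : Fin t, F a = t * F a
  rw [sum_const, card_univ, Fintype.card_fin, nsmul_eq_mul]

theorem blow {m : ℕ} {H : Finset (Finset (Fin m))} (h3 : ∀ e ∈ H, e.card = 3)
    (hK : K43Free H) (t : ℕ) : t ^ 3 * H.card ≤ exK (m * t) := by
  set ψ : Fin (m * t) → Fin m := fun x => (finProdFinEquiv.symm x).1 with hψ
  set B : Finset (Finset (Fin (m * t))) := univ.filter fun e => e.card = 3 ∧ e.image ψ ∈ H with hB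
  have hB3 : ∀ e ∈ B, e.card = 3 := fun e he => (mem_filter.1 he).2.1
  have hBK : K43Free B := by
    intro S hS
    by_contra hcon
    push Not at hcon
    have hall : ∀ e ⊆ S, e.card = 3 → e.image ψ ∈ H := fun e he h5 =>
      (mem_filter.1 (hcon e he h5)).2.2
    have hinj : Set.InjOn ψ (S : Set (Fin (m * t))) := by
      intro a ha b hb hab
      by_contra hne
      have h5 : ({a, b} : Finset (Fin (m * t))) ⊆ S := by
        intro x hx
        rw [mem_insert, mem_singleton] at hx
        rcases hx with rfl | rfl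
        · exact ha
        · exact hb
      obtain ⟨e, he1, he2, he3⟩ := exists_subsuperset_card_eq h5 (n := 3)
        (by rw [card_pair hne]; norm_num) (by rw [hS]; norm_num)
      have h6 := h3 _ (hall e he2 he3)
      have h7 : Set.InjOn ψ (e : Set (Fin (m * t))) := by
        rw [← card_image_iff, h6, he3]
      exact hne (h7 (he1 (by simp)) (he1 (by simp)) hab)
    obtain ⟨e', he', h5, h6⟩ := hK (S.image ψ) (by rw [card_image_of_injOn hinj, hS])
    obtain ⟨e, he, rfl⟩ := subset_image_iff.1 he'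
    apply h6
    apply hall e (by exact_mod_cast he)
    rw [card_image_of_injOn (hinj.mono (by exact_mod_cast he))] at h5
    exact h5
  have h5 := le_exK hB3 hBK
  refine le_trans ?_ h5
  have h6 := six_le h3
  have h7 := ord_le_six hB3
  have h8 : ∀ x y z : Fin (m * t), ind (({x, y, z} : Finset (Fin (m * t))) ∈ B) =
      ind (({ψ x, ψ y, ψ z} : Finset (Fin m)) ∈ H) := by
    intro x y z
    congr 1
    rw [hB, mem_filter]
    apply propext
    have e1 : ({x, y, z} : Finset (Fin (m * t))).image ψ = {ψ x, ψ y, ψ z} := by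
      simp [image_insert]
    rw [e1]
    constructor
    · intro h
      exact h.2.2
    · intro h
      refine ⟨mem_univ _, ?_, h⟩
      have h9 := h3 _ h
      have h10 : ({ψ x, ψ y, ψ z} : Finset (Fin m)).card ≤
          ({x, y, z} : Finset (Fin (m * t))).card := by
        rw [← e1]
        exact card_image_le
      have h11 : ({x, y, z} : Finset (Fin (m * t))).card ≤ 3 := card_le_three
      omega
  have h9 : ∑ x : Fin (m * t), ∑ y : Fin (m * t), ∑ z : Fin (m * t),
      ind (({ψ x, ψ y, ψ z} : Finset (Fin m)) ∈ H) =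
      (t : ℤ) ^ 3 * ∑ x : Fin m, ∑ y : Fin m, ∑ z : Fin m,
        ind (({x, y, z} : Finset (Fin m)) ∈ H) := by
    have a1 : ∀ a b : Fin m, ∑ z : Fin (m * t), ind (({a, b, ψ z} : Finset (Fin m)) ∈ H) =
        t * ∑ z : Fin m, ind (({a, b, z} : Finset (Fin m)) ∈ H) := fun a b =>
      sum_fibre fun z => ind (({a, b, z} : Finset (Fin m)) ∈ H)
    have a2 : ∀ a : Fin m, ∑ y : Fin (m * t), ∑ z : Fin (m * t),
        ind (({a, ψ y, ψ z} : Finset (Fin m)) ∈ H) =
        t * ∑ y : Fin m, (t * ∑ z : Fin m, ind (({a, y, z} : Finset (Fin m)) ∈ H)) := by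
      intro a
      rw [sum_congr rfl fun y _ => a1 a (ψ y)]
      exact sum_fibre fun y => (t * ∑ z : Fin m, ind (({a, y, z} : Finset (Fin m)) ∈ H))
    rw [sum_congr rfl fun x _ => a2 (ψ x)]
    rw [sum_fibre fun x => (t * ∑ y : Fin m, (t * ∑ z : Fin m,
      ind (({x, y, z} : Finset (Fin m)) ∈ H)) : ℤ)]
    simp only [← mul_sum]
    ring
  simp only [h8] at h7
  rw [h9] at h7
  have h10 : (t : ℤ) ^ 3 * (6 * (H.card : ℤ)) ≤ 6 * (B.card : ℤ) :=
    (mul_le_mul_of_nonneg_left h6 (by positivity)).trans h7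
  have h11 : (((t ^ 3 * H.card : ℕ)) : ℤ) ≤ (B.card : ℤ) := by
    push_cast
    linarith
  exact_mod_cast h11

/-- the limit is a bound -/
theorem dens_of_lim {p : ℝ}
    (hp : Tendsto (fun n : ℕ => (exK n : ℝ) / (n.choose 3 : ℝ)) atTop (nhds p)) : Dens p := by
  intro m H h3 hK
  rcases Nat.eq_zero_or_pos m with h0 | h0
  · subst h0
    have : H.card = 0 := by
      rw [card_eq_zero]
      by_contra hne
      obtain ⟨e, he⟩ := nonempty_iff_ne_empty.2 hne
      have h5 := h3 e he
      have h6 : e.card ≤ 0 := by simpa using card_le_univ e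
      omega
    rw [this]
    simp
  have hm0 : (0 : ℝ) < m := by exact_mod_cast h0
  have hsub : Tendsto (fun t : ℕ => m * t) atTop atTop :=
    tendsto_atTop_mono (fun t => Nat.le_mul_of_pos_left t h0) tendsto_id
  have h5 := hp.comp hsub
  have h6 : ∀ᶠ t : ℕ in atTop, 6 * (H.card : ℝ) / (m : ℝ) ^ 3 ≤
      ((fun n : ℕ => (exK n : ℝ) / (n.choose 3 : ℝ)) ∘ fun t : ℕ => m * t) t := by
    filter_upwards [eventually_ge_atTop 3] with t ht
    have h7 := blow h3 hK t
    have h8 : (t : ℝ) ^ 3 * (H.card : ℝ) ≤ (exK (m * t) : ℝ) := by exact_mod_cast h7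
    have h9 := choose_three_le (m * t)
    have h10 : 0 < (m * t).choose 3 := Nat.choose_pos (le_trans ht (Nat.le_mul_of_pos_left t h0))
    have h11 : (0 : ℝ) < (((m * t).choose 3 : ℕ) : ℝ) := by exact_mod_cast h10
    have ht0 : (0 : ℝ) < t := by
      have : 0 < t := by omega
      exact_mod_cast this
    simp only [Function.comp]
    rw [div_le_div_iff₀ (by positivity) h11]
    push_cast at h9
    have h12 : (m : ℝ) ^ 3 * ((t : ℝ) ^ 3 * (H.card : ℝ)) ≤ (m : ℝ) ^ 3 * (exK (m * t) : ℝ) :=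
      mul_le_mul_of_nonneg_left h8 (by positivity)
    have h13 := mul_le_mul_of_nonneg_left h9 (Nat.cast_nonneg (α := ℝ) H.card)
    nlinarith
  have h7 := ge_of_tendsto h5 h6
  rwa [div_le_iff₀ (by positivity)] at h7

end Pool.Agent.DL
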