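import Pool.Agent.DL.Gam4

/-! Samples with exceptional vertices. -/

set_option autoImplicit false
open Finset
open scoped Classical

namespace Pool.Agent.DL

open Pool.Agent.R810
open Pool.Agent.R810.LJ (ind ind_t ind_f ind_nonneg six_le ord_le_six rot_set)
open Pool.Agent.R810.TC (DI mem_DI DI_card_le DI_card_ge sum3' ind_zero sum_ind_card)

variable {n m : ℕ} {T : Finset (Finset (Fin n))} {Q : Fin n → Finset (Fin n)}
  {B : Finset (Fin n)}

/-- a good sample -/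
structure GoodX (Q : Fin n → Finset (Fin n)) (B : Finset (Fin n)) (T : Finset (Finset (Fin n)))
    (f : Fin m → Fin n) : Prop where
  inj : ∀ i j, i ≠ j → f i ≠ f j
  cut : ∀ i j l, i ≠ j → i ≠ l → j ≠ l → f i ∉ B → ¬ Cr Q T (f i) (f j) (f l)
  in1 : ∀ i, f i ∉ B → ∃ j, j ≠ i ∧ f j ∈ Q (f i)
  in2 : ∀ i, f i ∉ B → ∃ j, j ≠ i ∧ f j ∉ Q (f i)

/-- the colouring of the indices by the cuts -/
def cutX (Q : Fin n → Finset (Fin n)) (B : Finset (Fin n)) (f : Fin m → Fin n) (i j : Fin m) :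
    Prop := f i ∉ B ∧ f j ∈ Q (f i)

theorem GoodX.injective {f : Fin m → Fin n} (hG : GoodX Q B T f) : Function.Injective f := by
  intro i j hij
  by_contra h
  exact hG.inj i j h hij

theorem GoodX.sub {f : Fin m → Fin n} (hG : GoodX Q B T f) : pull T f ⊆ locT (cutX Q B f) := by
  intro e he
  obtain ⟨i, j, l, d1, d2, d3, rfl⟩ := card_eq_three.1 (pull_three f e he)
  have hT := (mem_pull d1 d2 d3).1 he
  rw [mem_locT' d1 d2 d3]
  have key : ∀ i j l : Fin m, i ≠ j → i ≠ l → j ≠ l → ({f i, f j, f l} : Finset (Fin n)) ∈ T →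
      cutX Q B f i j = cutX Q B f i l := by
    intro i j l d1 d2 d3 hT
    unfold cutX
    by_cases hB : f i ∈ B
    · simp [hB]
    have h1 := hG.cut i j l d1 d2 d3 hB
    have h2 := hG.cut i l j d2 d1 d3.symm hB
    have e : ({f i, f l, f j} : Finset (Fin n)) = {f i, f j, f l} := by
      rw [pair_comm (f l) (f j)]
    unfold Cr at h1 h2
    rw [e] at h2
    apply propext
    tauto
  have e1 : ({f j, f i, f l} : Finset (Fin n)) = {f i, f j, f l} := by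
    ext t
    simp only [mem_insert, mem_singleton]
    tauto
  have e2 : ({f l, f i, f j} : Finset (Fin n)) = {f i, f j, f l} := by
    ext t
    simp only [mem_insert, mem_singleton]
    tauto
  exact ⟨key i j l d1 d2 d3 hT, key j i l d1.symm d3 d2 (by rw [e1]; exact hT),
    key l i j d2.symm d3.symm d1 (by rw [e2]; exact hT)⟩

theorem GoodX.two {f : Fin m → Fin n} (hG : GoodX Q B T f) {i : Fin m} (hi : f i ∉ B) :
    TwoD (cutX Q B f) i := by
  obtain ⟨a, ha, ha'⟩ := hG.in1 i hi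
  obtain ⟨b, hb, hb'⟩ := hG.in2 i hi
  refine ⟨a, b, ha, hb, fun e => hb' ?_⟩
  have : cutX Q B f i a := ⟨hi, ha'⟩
  rw [e] at this
  exact this.2

/-- the indicator of the failures -/
noncomputable def fail3X (Q : Fin n → Finset (Fin n)) (B : Finset (Fin n))
    (T : Finset (Finset (Fin n))) (x y z : Fin n) : ℤ :=
  ind (x = y) + ind (x ∉ B ∧ Cr Q T x y z)

theorem bad_leX (hm : 3 ≤ m) (f : Fin m → Fin n) : ind (¬ GoodX Q B T f) ≤
    ∑ t ∈ DI (Fin m), fail3X Q B T (f t.1) (f t.2.1) (f t.2.2) + ∑ i, fail1 Q B f i := by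
  have n3 : ∀ t ∈ DI (Fin m), 0 ≤ fail3X Q B T (f t.1) (f t.2.1) (f t.2.2) := by
    intro t _
    unfold fail3X
    have h1 := ind_nonneg (f t.1 = f t.2.1)
    have h3 := ind_nonneg (f t.1 ∉ B ∧ Cr Q T (f t.1) (f t.2.1) (f t.2.2))
    linarith
  have n1 : ∀ i ∈ (univ : Finset (Fin m)), 0 ≤ fail1 Q B f i := by
    intro i _
    unfold fail1
    have h1 := ind_nonneg (f i ∉ B ∧ ∀ j, j ≠ i → f j ∈ Q (f i))
    have h2 := ind_nonneg (f i ∉ B ∧ ∀ j, j ≠ i → f j ∈ (Q (f i))ᶜ)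
    linarith
  have s3 := sum_nonneg n3
  have s1 := sum_nonneg n1
  by_cases hz : ∑ t ∈ DI (Fin m), fail3X Q B T (f t.1) (f t.2.1) (f t.2.2) +
      ∑ i, fail1 Q B f i = 0
  · have z3 : ∑ t ∈ DI (Fin m), fail3X Q B T (f t.1) (f t.2.1) (f t.2.2) = 0 := by linarith
    have z1 : ∑ i, fail1 Q B f i = 0 := by linarith
    have y3 := (sum_eq_zero_iff_of_nonneg n3).1 z3
    have y1 := (sum_eq_zero_iff_of_nonneg n1).1 z1
    have w3 : ∀ i j l : Fin m, i ≠ j → i ≠ l → j ≠ l → f i ≠ f j ∧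
        ¬ (f i ∉ B ∧ Cr Q T (f i) (f j) (f l)) := by
      intro i j l h1 h2 h3
      have := y3 (i, j, l) (mem_DI.2 ⟨h1, h2, h3⟩)
      unfold fail3X at this
      have a1 := ind_nonneg (f i = f j)
      have a3 := ind_nonneg (f i ∉ B ∧ Cr Q T (f i) (f j) (f l))
      simp only at this
      exact ⟨ind_zero (by linarith), ind_zero (by linarith)⟩
    have hinj : ∀ i j, i ≠ j → f i ≠ f j := by
      intro i j hij
      obtain ⟨l, h1, h2⟩ := third hm i j
      exact (w3 i j l hij h1 h2).1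
    have hG : GoodX Q B T f := by
      refine ⟨hinj, ?_, ?_, ?_⟩
      · intro i j l h1 h2 h3 hout h4
        exact (w3 i j l h1 h2 h3).2 ⟨hout, h4⟩
      · intro i hout
        have := y1 i (mem_univ i)
        unfold fail1 at this
        have a1 := ind_nonneg (f i ∉ B ∧ ∀ j, j ≠ i → f j ∈ Q (f i))
        have a2 := ind_nonneg (f i ∉ B ∧ ∀ j, j ≠ i → f j ∈ (Q (f i))ᶜ)
        have a3 := ind_zero (p := (f i ∉ B ∧ ∀ j, j ≠ i → f j ∈ (Q (f i))ᶜ)) (by linarith)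
        by_contra hcon
        push Not at hcon
        exact a3 ⟨hout, fun j hj => mem_compl.2 (hcon j hj)⟩
      · intro i hout
        have := y1 i (mem_univ i)
        unfold fail1 at this
        have a1 := ind_nonneg (f i ∉ B ∧ ∀ j, j ≠ i → f j ∈ Q (f i))
        have a2 := ind_nonneg (f i ∉ B ∧ ∀ j, j ≠ i → f j ∈ (Q (f i))ᶜ)
        have a3 := ind_zero (p := (f i ∉ B ∧ ∀ j, j ≠ i → f j ∈ Q (f i))) (by linarith)
        by_contra hcon
        push Not at hcon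
        exact a3 ⟨hout, hcon⟩
    rw [hz, ind_f (not_not.2 hG)]
  · have h1 : 1 ≤ ∑ t ∈ DI (Fin m), fail3X Q B T (f t.1) (f t.2.1) (f t.2.2) +
        ∑ i, fail1 Q B f i := by
      have : 0 ≤ ∑ t ∈ DI (Fin m), fail3X Q B T (f t.1) (f t.2.1) (f t.2.2) +
        ∑ i, fail1 Q B f i := by linarith
      omega
    refine le_trans ?_ h1
    unfold ind
    split_ifs <;> norm_num

theorem sum_fail3X : ∑ x : Fin n, ∑ y : Fin n, ∑ z : Fin n, fail3X Q B T x y z =
    (n : ℤ) ^ 2 + crs Q B T := by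
  unfold fail3X crs
  simp only [sum_add_distrib]
  congr 1
  · have : ∀ x y : Fin n, ∑ _z : Fin n, ind (x = y) = if x = y then (n : ℤ) else 0 := by
      intro x y
      rw [sum_const, card_univ, Fintype.card_fin, nsmul_eq_mul]
      unfold ind
      split_ifs <;> simp
    rw [sum_congr rfl fun x _ => sum_congr rfl fun y _ => this x y]
    rw [sum_congr rfl fun x _ => by rw [sum_ite_eq univ x, if_pos (mem_univ _)]]
    rw [sum_const, card_univ, Fintype.card_fin, nsmul_eq_mul]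
    ring

theorem sum_badX (hm : 3 ≤ m) : ∑ f : Fin m → Fin n, ind (¬ GoodX Q B T f) ≤
    ((DI (Fin m)).card : ℤ) * ((n : ℤ) ^ (m - 3) *
      ((n : ℤ) ^ 2 + crs Q B T)) +
    (m : ℤ) * (∑ x : Fin n, ind (x ∉ B) * ((Q x).card : ℤ) ^ (m - 1) +
      ∑ x : Fin n, ind (x ∉ B) * (((Q x)ᶜ).card : ℤ) ^ (m - 1)) := by
  have h1 := sum_le_sum fun (f : Fin m → Fin n) (_ : f ∈ univ) =>
    bad_leX (Q := Q) (B := B) (T := T) hm f
  refine h1.trans (le_of_eq ?_)
  rw [sum_add_distrib]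
  congr 1
  · rw [sum_comm, ← nsmul_eq_mul, ← sum_const]
    refine sum_congr rfl fun t ht => ?_
    obtain ⟨d1, d2, d3⟩ := mem_DI.1 ht
    have := sum3' d1 d2 d3 (fun x y z : Fin n => fail3X Q B T x y z)
    rw [Fintype.card_fin, Fintype.card_fin, sum_fail3X] at this
    exact this
  · rw [sum_comm]
    have h2 : ∀ i ∈ (univ : Finset (Fin m)), ∑ f : Fin m → Fin n, fail1 Q B f i =
        ∑ x : Fin n, ind (x ∉ B) * ((Q x).card : ℤ) ^ (m - 1) +
          ∑ x : Fin n, ind (x ∉ B) * (((Q x)ᶜ).card : ℤ) ^ (m - 1) := by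
      intro i _
      unfold fail1
      rw [sum_add_distrib, sum_star i (fun x => x ∉ B) Q, sum_star i (fun x => x ∉ B)
        (fun x => (Q x)ᶜ)]
    rw [sum_congr rfl h2, sum_const, card_univ, Fintype.card_fin, nsmul_eq_mul]

theorem bad_realX (hm : 3 ≤ m) (hn : 1 ≤ n) {δ ε : ℝ} (hδ1 : δ ≤ 1) (hε : 0 ≤ ε)
    (hQ1 : ∀ x, x ∉ B → ((Q x).card : ℝ) ≤ (1 - δ) * n)
    (hQ2 : ∀ x, x ∉ B → (((Q x)ᶜ).card : ℝ) ≤ (1 - δ) * n)
    (hcr : ((crs Q B T : ℤ) : ℝ) ≤ ε * (n : ℝ) ^ 3) :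
    ((∑ f : Fin m → Fin n, ind (¬ GoodX Q B T f) : ℤ) : ℝ) ≤ beta m n δ ε * (n : ℝ) ^ m := by
  have h1 := sum_badX (n := n) (T := T) (Q := Q) (B := B) hm
  have h2 : ((∑ f : Fin m → Fin n, ind (¬ GoodX Q B T f) : ℤ) : ℝ) ≤
      ((((DI (Fin m)).card : ℤ) * ((n : ℤ) ^ (m - 3) *
      ((n : ℤ) ^ 2 + crs Q B T)) +
    (m : ℤ) * (∑ x : Fin n, ind (x ∉ B) * ((Q x).card : ℤ) ^ (m - 1) +
      ∑ x : Fin n, ind (x ∉ B) * (((Q x)ᶜ).card : ℤ) ^ (m - 1)) : ℤ) : ℝ) := by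
    exact_mod_cast h1
  refine h2.trans ?_
  have hn0 : (0 : ℝ) < n := by exact_mod_cast hn
  have hD : (((DI (Fin m)).card : ℤ) : ℝ) ≤ (m : ℝ) ^ 3 := by
    have := DI_card_le (I := Fin m)
    rw [Fintype.card_fin] at this
    exact_mod_cast this
  have hD0 : (0 : ℝ) ≤ (((DI (Fin m)).card : ℤ) : ℝ) := by positivity
  have key : ∀ P : Fin n → Finset (Fin n), (∀ x, x ∉ B → ((P x).card : ℝ) ≤ (1 - δ) * n) →
      ((∑ x : Fin n, ind (x ∉ B) * ((P x).card : ℤ) ^ (m - 1) : ℤ) : ℝ) ≤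
        n * ((1 - δ) * n) ^ (m - 1) := by
    intro P hP
    push_cast
    have h3 : ∀ x ∈ (univ : Finset (Fin n)), ((ind (x ∉ B) : ℤ) : ℝ) * ((P x).card : ℝ) ^ (m - 1) ≤
        ((1 - δ) * n) ^ (m - 1) := by
      intro x _
      by_cases hx : x ∉ B
      · rw [ind_t hx]
        push_cast
        rw [one_mul]
        exact pow_le_pow_left₀ (Nat.cast_nonneg _) (hP x hx) _
      · rw [ind_f hx]
        push_cast
        rw [zero_mul]
        have : 0 ≤ (1 - δ) * (n : ℝ) := mul_nonneg (by linarith) hn0.le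
        positivity
    refine (sum_le_sum h3).trans (le_of_eq ?_)
    rw [sum_const, card_univ, Fintype.card_fin, nsmul_eq_mul]
  have k1 := key Q hQ1
  have k2 := key (fun x => (Q x)ᶜ) hQ2
  have e0 : ∀ a b c d e : ℤ, ((a * b + c * (d + e) : ℤ) : ℝ) =
      (a : ℝ) * (b : ℝ) + (c : ℝ) * ((d : ℝ) + (e : ℝ)) := by
    intro a b c d e
    push_cast
    ring
  rw [e0]
  have hm0 : (0 : ℝ) ≤ ((m : ℤ) : ℝ) := by positivity
  have t2 := mul_le_mul_of_nonneg_left (add_le_add k1 k2) hm0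
  have hpow : (n : ℝ) ^ m = (n : ℝ) ^ (m - 3) * (n : ℝ) ^ 3 := by
    rw [← pow_add]
    congr 1
    omega
  have hpow2 : (n : ℝ) ^ m = n * (n : ℝ) ^ (m - 1) := by
    rw [← pow_succ']
    congr 1
    omega
  have hin : (((n : ℤ) ^ (m - 3) * ((n : ℤ) ^ 2 + crs Q B T) : ℤ) : ℝ)
      ≤ (n : ℝ) ^ m * (1 / n + 2 * ε) := by
    push_cast
    have e1 : (n : ℝ) ^ m * (1 / n + 2 * ε) = (n : ℝ) ^ (m - 3) *
        ((n : ℝ) ^ 2 + 2 * ε * (n : ℝ) ^ 3) := by
      rw [hpow]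
      field_simp
    rw [e1]
    refine mul_le_mul_of_nonneg_left ?_ (by positivity)
    have e2 : 0 ≤ ε * (n : ℝ) ^ 3 := by positivity
    linarith
  have t1 : (((DI (Fin m)).card : ℤ) : ℝ) * (((n : ℤ) ^ (m - 3) *
      ((n : ℤ) ^ 2 + crs Q B T) : ℤ) : ℝ) ≤
      (m : ℝ) ^ 3 * ((n : ℝ) ^ m * (1 / n + 2 * ε)) := by
    have e3 : 0 ≤ (n : ℝ) ^ m * (1 / n + 2 * ε) := by positivity
    exact (mul_le_mul_of_nonneg_left hin hD0).trans (mul_le_mul_of_nonneg_right hD e3)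
  refine (add_le_add t1 t2).trans (le_of_eq ?_)
  unfold beta
  push_cast
  rw [mul_pow, hpow2]
  ring

end Pool.Agent.DL
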