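import Pool.Agent.DL.Gam5

/-! The asymptotic theorem with a positive proportion of exceptional vertices. -/

set_option autoImplicit false
open Finset
open scoped Classical

namespace Pool.Agent.DL

open Pool.Agent.R810
open Pool.Agent.R810.LJ (ind ind_t ind_f ind_nonneg six_le ord_le_six rot_set)
open Pool.Agent.R810.TC (DI mem_DI DI_card_le DI_card_ge sum3' ind_zero sum_ind_card sum_triple)

variable {n m : ℕ} {T : Finset (Finset (Fin n))} {Q : Fin n → Finset (Fin n)}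
  {B : Finset (Fin n)}

/-- the number of exceptional indices -/
noncomputable def uX (B : Finset (Fin n)) (f : Fin m → Fin n) : ℕ :=
  (univ.filter fun i => f i ∈ B).card

theorem uX_le (B : Finset (Fin n)) (f : Fin m → Fin n) : uX B f ≤ m := by
  unfold uX
  refine (card_le_univ _).trans ?_
  simp

theorem GoodX.count (h3 : ∀ e ∈ T, e.card = 3) (hT : TC.Covers T) {f : Fin m → Fin n}
    (hG : GoodX Q B T f) {p : ℝ} (hp : Dens p) (hp5 : 5 / 9 ≤ p) {K : ℕ} (hK : 1 ≤ K) :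
    2 / 27 * (m : ℝ) ^ 3 - 2 * (m : ℝ) ^ 2 - (uX B f : ℝ) ^ 2 / (6 * K) * m -
      (2 / 27 - (1 - p) / 6) * (17 / 4 * ((uX B f : ℝ) + K) + 1) ^ 3 ≤ ((pull T f).card : ℝ) := by
  have hcov := pull_covers h3 hT hG.injective
  have h5 := count_all (T := pull T f) (c := cutX Q B f) (u := uX B f) (K := K) (ρ := 1 - p)
    (pull_three f) hcov hG.sub (by
      unfold uX
      refine card_le_card ?_
      intro i hi
      rw [mem_filter] at hi ⊢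
      refine ⟨mem_univ _, ?_⟩
      by_contra h6
      exact hi.2 (hG.two h6)) hK (by linarith) (fun S => hp.bound (pull_three f) hcov S) m univ
      (by simp)
  refine h5.trans ?_
  have h6 : NT (pull T f) univ ≤ (pull T f).card := by
    unfold NT
    refine card_le_card ?_
    intro e he
    exact (mem_filter.1 he).2
  exact_mod_cast h6

/-- the constant of the error term -/
noncomputable def CK (K : ℕ) : ℝ := 3 * (17 / 4) ^ 2 * (17 / 4 * K + 1) +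
  3 * (17 / 4) * (17 / 4 * K + 1) ^ 2 + (17 / 4 * K + 1) ^ 3

theorem num_c {u m K L b : ℝ} (hu0 : 0 ≤ u) (hu : u ≤ m) (hm : 1 ≤ m) (hK : 1 ≤ K) (hL : 0 ≤ L)
    (hb : b = 17 / 4 * K + 1) :
    (2 / 27 - 1 / (6 * K)) * m ^ 3 - 2 * m ^ 2 - L * ((17 / 4) ^ 3 * u ^ 3 +
      (3 * (17 / 4) ^ 2 * b + 3 * (17 / 4) * b ^ 2 + b ^ 3) * m ^ 2) ≤
    2 / 27 * m ^ 3 - 2 * m ^ 2 - u ^ 2 / (6 * K) * m - L * (17 / 4 * (u + K) + 1) ^ 3 := by
  have hb0 : 0 ≤ b := by rw [hb]; linarith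
  have h1 : u ^ 2 / (6 * K) * m ≤ 1 / (6 * K) * m ^ 3 := by
    have h2 : u ^ 2 ≤ m ^ 2 := pow_le_pow_left₀ hu0 hu 2
    have h3 : u ^ 2 * m ≤ m ^ 2 * m := mul_le_mul_of_nonneg_right h2 (by linarith)
    have h4 : 0 ≤ 1 / (6 * K) := by positivity
    have h5 := mul_le_mul_of_nonneg_left h3 h4
    calc u ^ 2 / (6 * K) * m = 1 / (6 * K) * (u ^ 2 * m) := by ring
      _ ≤ 1 / (6 * K) * (m ^ 2 * m) := h5
      _ = 1 / (6 * K) * m ^ 3 := by ring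
  have h2 : (17 / 4 * (u + K) + 1) ^ 3 ≤ (17 / 4) ^ 3 * u ^ 3 +
      (3 * (17 / 4) ^ 2 * b + 3 * (17 / 4) * b ^ 2 + b ^ 3) * m ^ 2 := by
    have e : 17 / 4 * (u + K) + 1 = 17 / 4 * u + b := by rw [hb]; ring
    rw [e]
    have a1 : u ^ 2 ≤ m ^ 2 := pow_le_pow_left₀ hu0 hu 2
    have a2 : u ≤ m ^ 2 := by nlinarith
    have a3 : 1 ≤ m ^ 2 := by nlinarith
    have b2 : 0 ≤ b ^ 2 := by positivity
    have b3 : 0 ≤ b ^ 3 := by positivity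
    have c1 := mul_le_mul_of_nonneg_left a1 hb0
    have c2 := mul_le_mul_of_nonneg_left a2 b2
    have c3 := mul_le_mul_of_nonneg_left a3 b3
    have e2 : (17 / 4 * u + b) ^ 3 = (17 / 4) ^ 3 * u ^ 3 + 3 * (17 / 4) ^ 2 * (b * u ^ 2) +
        3 * (17 / 4) * (b ^ 2 * u) + b ^ 3 * 1 := by ring
    rw [e2]
    linarith
  have h3 := mul_le_mul_of_nonneg_left h2 hL
  have e3 : (2 / 27 - 1 / (6 * K)) * m ^ 3 = 2 / 27 * m ^ 3 - 1 / (6 * K) * m ^ 3 := by ring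
  rw [e3]
  linarith

theorem sum_u3 (hm : 3 ≤ m) : ∑ f : Fin m → Fin n, (uX B f : ℤ) ^ 3 ≤
    ((DI (Fin m)).card : ℤ) * ((n : ℤ) ^ (m - 3) * (B.card : ℤ) ^ 3) +
      3 * (m : ℤ) ^ 2 * (n : ℤ) ^ m := by
  have h1 : ∀ f : Fin m → Fin n, (uX B f : ℤ) ^ 3 =
      ∑ t : Fin m × Fin m × Fin m, ind (f t.1 ∈ B) * ind (f t.2.1 ∈ B) * ind (f t.2.2 ∈ B) := by
    intro f
    have h2 : (uX B f : ℤ) = ∑ i, ind (f i ∈ B) := by
      unfold uX
      rw [sum_ind_card]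
    rw [h2, ← sum_triple fun x y z : Fin m => ind (f x ∈ B) * ind (f y ∈ B) * ind (f z ∈ B)]
    simp only [← mul_sum, ← sum_mul]
    ring
  have h2 : ∀ f : Fin m → Fin n, (uX B f : ℤ) ^ 3 ≤
      ∑ t ∈ DI (Fin m), ind (f t.1 ∈ B) * ind (f t.2.1 ∈ B) * ind (f t.2.2 ∈ B) +
        3 * (m : ℤ) ^ 2 := by
    intro f
    rw [h1 f, ← sum_add_sum_compl (DI (Fin m))]
    have h3 : ∑ t ∈ (DI (Fin m))ᶜ, ind (f t.1 ∈ B) * ind (f t.2.1 ∈ B) * ind (f t.2.2 ∈ B) ≤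
        ∑ _t ∈ (DI (Fin m))ᶜ, (1 : ℤ) := by
      refine sum_le_sum fun t _ => ?_
      unfold ind
      split_ifs <;> norm_num
    rw [sum_const, nsmul_eq_mul, mul_one] at h3
    have h4 : ((DI (Fin m)).card : ℤ) + (((DI (Fin m))ᶜ).card : ℤ) = (m : ℤ) ^ 3 := by
      have := card_add_card_compl (DI (Fin m))
      have h5 : Fintype.card (Fin m × Fin m × Fin m) = m * (m * m) := by simp
      rw [h5] at this
      have h6 : (((DI (Fin m)).card + ((DI (Fin m))ᶜ).card : ℕ) : ℤ) = ((m * (m * m) : ℕ) : ℤ) := by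
        rw [this]
      push_cast at h6
      rw [h6]
      ring
    have h5 := DI_card_ge (I := Fin m)
    rw [Fintype.card_fin] at h5
    linarith
  refine (sum_le_sum fun f _ => h2 f).trans ?_
  rw [sum_add_distrib, sum_comm]
  have h4 : ∀ t ∈ DI (Fin m), ∑ f : Fin m → Fin n,
      ind (f t.1 ∈ B) * ind (f t.2.1 ∈ B) * ind (f t.2.2 ∈ B) =
        (n : ℤ) ^ (m - 3) * (B.card : ℤ) ^ 3 := by
    intro t ht
    obtain ⟨d1, d2, d3⟩ := mem_DI.1 ht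
    have h5 := sum3' d1 d2 d3 (fun x y z : Fin n => ind (x ∈ B) * ind (y ∈ B) * ind (z ∈ B))
    rw [Fintype.card_fin, Fintype.card_fin] at h5
    rw [h5]
    congr 1
    simp only [← mul_sum, ← sum_mul]
    have h6 : ∑ x : Fin n, ind (x ∈ B) = (B.card : ℤ) := by
      rw [sum_ind_card]
      congr 1
      congr 1
      ext x
      simp
    rw [h6]
    ring
  rw [sum_congr rfl h4, sum_const, nsmul_eq_mul, sum_const, card_univ, Fintype.card_fun,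
    Fintype.card_fin, Fintype.card_fin, nsmul_eq_mul]
  push_cast
  linarith

theorem robustX {p : ℝ} (hp : Dens p) (hp5 : 5 / 9 ≤ p) {γ δ η : ℝ} (hγ : 0 ≤ γ) (hδ : 0 < δ)
    (hδ1 : δ < 1) (hη : 0 < η) (hη1 : η ≤ 1 / 2) :
    ∃ ε : ℝ, 0 < ε ∧ ∃ n0 : ℕ, ∀ n, n0 ≤ n → ∀ T : Finset (Finset (Fin n)),
      (∀ e ∈ T, e.card = 3) → TC.Covers T → ∀ (Q : Fin n → Finset (Fin n)) (B : Finset (Fin n)),
      (B.card : ℝ) ≤ γ * n → (∀ x, x ∉ B → ((Q x).card : ℝ) ≤ (1 - δ) * n) →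
      (∀ x, x ∉ B → (((Q x)ᶜ).card : ℝ) ≤ (1 - δ) * n) →
      ((crs Q B T : ℤ) : ℝ) ≤ ε * (n : ℝ) ^ 3 →
      (4 / 9 - (17 / 4) ^ 3 * (p - 5 / 9) * γ ^ 3 - η) * (n : ℝ) ^ 3 ≤ 6 * (T.card : ℝ) := by
  obtain ⟨K, hKη⟩ := exists_nat_gt (4 / η)
  have hK0 : (0 : ℝ) < K := lt_trans (by positivity) hKη
  have hK1 : 1 ≤ K := by
    have : 0 < K := by exact_mod_cast hK0
    omega
  have hK1' : (1 : ℝ) ≤ K := by exact_mod_cast hK1
  have hKinv : 1 / (K : ℝ) ≤ η / 4 := by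
    rw [div_le_div_iff₀ hK0 (by norm_num)]
    rw [div_lt_iff₀ hη] at hKη
    linarith
  set L : ℝ := 2 / 27 - (1 - p) / 6 with hL
  have hL0 : 0 ≤ L := by rw [hL]; linarith
  set Λ : ℝ := (17 / 4) ^ 3 * (p - 5 / 9) with hΛ
  have hΛL : Λ = 6 * L * (17 / 4) ^ 3 := by rw [hΛ, hL]; ring
  have hΛ0 : 0 ≤ Λ := by rw [hΛL]; positivity
  have hCK0 : 0 ≤ CK K := by
    unfold CK
    positivity
  set C' : ℝ := 12 + 6 * L * CK K + 3 * Λ with hC'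
  have hC'0 : 0 ≤ C' := by rw [hC']; positivity
  obtain ⟨m, hmM, hm1, -⟩ := choose_big (q := 1 - δ) (c := η / 8) (by linarith)
    (by linarith) (by positivity) (max 3 (⌈4 * C' / η⌉₊))
  have hm3 : 3 ≤ m := (le_max_left _ _).trans hmM
  have hmC : 4 * C' / η ≤ (m : ℝ) := by
    have h1 : ⌈4 * C' / η⌉₊ ≤ m := (le_max_right _ _).trans hmM
    exact (Nat.le_ceil _).trans (by exact_mod_cast h1)
  have hm0 : (3 : ℝ) ≤ m := by exact_mod_cast hm3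
  have hmC' : C' ≤ η / 4 * m := by
    rw [div_le_iff₀ hη] at hmC
    linarith
  have hm30 : (0 : ℝ) < (m : ℝ) ^ 3 := by positivity
  set ε : ℝ := η / (64 * (m : ℝ) ^ 3) with hε
  have hε0 : 0 < ε := by positivity
  refine ⟨ε, hε0, max 1 (⌈16 * (m : ℝ) ^ 3 / η⌉₊), ?_⟩
  intro n hn T h3 hT Q B hB hQ1 hQ2 hcr
  have hn1 : 1 ≤ n := (le_max_left _ _).trans hn
  have hn0 : (0 : ℝ) < n := by exact_mod_cast hn1
  have hnR : 16 * (m : ℝ) ^ 3 / η ≤ n := by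
    have h1 : ⌈16 * (m : ℝ) ^ 3 / η⌉₊ ≤ n := (le_max_right _ _).trans hn
    exact (Nat.le_ceil _).trans (by exact_mod_cast h1)
  have hinv : (m : ℝ) ^ 3 * (1 / (n : ℝ)) ≤ η / 16 := by
    rw [div_le_iff₀ hη] at hnR
    rw [mul_one_div, div_le_div_iff₀ hn0 (by norm_num)]
    linarith
  have hbeta : beta m n δ ε ≤ η / 4 := by
    unfold beta
    have h1 : (m : ℝ) ^ 3 * (1 / n + 2 * ε) = (m : ℝ) ^ 3 * (1 / n) + η / 32 := by
      rw [hε]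
      field_simp
      ring
    rw [h1]
    linarith
  have hbeta0 : 0 ≤ beta m n δ ε := by
    unfold beta
    have : 0 ≤ (1 - δ) ^ (m - 1) := pow_nonneg (by linarith) _
    positivity
  have hbad := bad_realX (m := m) (n := n) (T := T) (Q := Q) (B := B) hm3 hn1 hδ1.le hε0.le
    hQ1 hQ2 hcr
  -- the main quantity
  set A : ℝ := (4 / 9 - 1 / K) * (m : ℝ) ^ 3 - (12 + 6 * L * CK K) * (m : ℝ) ^ 2 with hA
  have hC2 : (12 + 6 * L * CK K) * (m : ℝ) ^ 2 ≤ η / 4 * (m : ℝ) ^ 3 - 3 * Λ * (m : ℝ) ^ 2 := by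
    have h1 : C' * (m : ℝ) ^ 2 ≤ η / 4 * m * (m : ℝ) ^ 2 :=
      mul_le_mul_of_nonneg_right hmC' (by positivity)
    rw [hC'] at h1
    have e1 : η / 4 * m * (m : ℝ) ^ 2 = η / 4 * (m : ℝ) ^ 3 := by ring
    have e2 : (12 + 6 * L * CK K + 3 * Λ) * (m : ℝ) ^ 2 =
      (12 + 6 * L * CK K) * (m : ℝ) ^ 2 + 3 * Λ * (m : ℝ) ^ 2 := by ring
    linarith
  have hΛm : 0 ≤ 3 * Λ * (m : ℝ) ^ 2 := by positivity
  have hKm : 1 / (K : ℝ) * (m : ℝ) ^ 3 ≤ η / 4 * (m : ℝ) ^ 3 :=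
    mul_le_mul_of_nonneg_right hKinv hm30.le
  have hηm : η * (m : ℝ) ^ 3 ≤ 1 / 2 * (m : ℝ) ^ 3 := mul_le_mul_of_nonneg_right hη1 hm30.le
  have hA0 : 0 ≤ A := by
    have e1 : (4 / 9 - 1 / (K : ℝ)) * (m : ℝ) ^ 3 = 4 / 9 * (m : ℝ) ^ 3 -
      1 / (K : ℝ) * (m : ℝ) ^ 3 := by ring
    rw [hA, e1]
    linarith
  have hA1 : A ≤ (m : ℝ) ^ 3 := by
    have e1 : (4 / 9 - 1 / (K : ℝ)) * (m : ℝ) ^ 3 = 4 / 9 * (m : ℝ) ^ 3 -
      1 / (K : ℝ) * (m : ℝ) ^ 3 := by ring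
    have e2 : 0 ≤ 1 / (K : ℝ) * (m : ℝ) ^ 3 := by positivity
    have e3 : 0 ≤ (12 + 6 * L * CK K) * (m : ℝ) ^ 2 := by positivity
    rw [hA, e1]
    linarith
  have hfin : (4 / 9 - η) * (m : ℝ) ^ 3 ≤ A - A * beta m n δ ε - 3 * Λ * (m : ℝ) ^ 2 := by
    have h1 : A * beta m n δ ε ≤ (m : ℝ) ^ 3 * (η / 4) := mul_le_mul hA1 hbeta hbeta0 hm30.le
    have e1 : (4 / 9 - 1 / (K : ℝ)) * (m : ℝ) ^ 3 = 4 / 9 * (m : ℝ) ^ 3 -
      1 / (K : ℝ) * (m : ℝ) ^ 3 := by ring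
    have h2 : A = 4 / 9 * (m : ℝ) ^ 3 - 1 / (K : ℝ) * (m : ℝ) ^ 3 -
        (12 + 6 * L * CK K) * (m : ℝ) ^ 2 := by rw [hA, e1]
    have h4 : 0 ≤ η * (m : ℝ) ^ 3 := by positivity
    linarith
  -- one map
  have hone : ∀ f : Fin m → Fin n, A - Λ * (uX B f : ℝ) ^ 3 -
      A * ((ind (¬ GoodX Q B T f) : ℤ) : ℝ) ≤
      ((∑ t ∈ DI (Fin m), ind (({f t.1, f t.2.1, f t.2.2} : Finset (Fin n)) ∈ T) : ℤ) : ℝ) := by
    intro f
    by_cases hG : GoodX Q B T f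
    · rw [ind_f (not_not.2 hG)]
      push_cast
      rw [mul_zero, sub_zero]
      have h1 := hG.count h3 hT hp hp5 hK1
      have hu : (uX B f : ℝ) ≤ m := by exact_mod_cast uX_le B f
      have h2 := num_c (u := (uX B f : ℝ)) (m := (m : ℝ)) (K := (K : ℝ)) (L := L)
        (b := 17 / 4 * K + 1) (Nat.cast_nonneg _) hu (by linarith) hK1' hL0 rfl
      have h4 : (6 * ((pull T f).card : ℝ)) ≤
          ((∑ t ∈ DI (Fin m), ind (({f t.1, f t.2.1, f t.2.2} : Finset (Fin n)) ∈ T) : ℤ) : ℝ) := by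
        have := six_pull (T := T) f
        exact_mod_cast this
      push_cast at h4
      refine le_trans ?_ h4
      have h5 := h2.trans h1
      have e1 : 6 * ((2 / 27 - 1 / (6 * (K : ℝ))) * (m : ℝ) ^ 3 - 2 * (m : ℝ) ^ 2 -
          L * ((17 / 4) ^ 3 * (uX B f : ℝ) ^ 3 + (3 * (17 / 4) ^ 2 * (17 / 4 * (K : ℝ) + 1) +
          3 * (17 / 4) * (17 / 4 * (K : ℝ) + 1) ^ 2 + (17 / 4 * (K : ℝ) + 1) ^ 3) *
          (m : ℝ) ^ 2)) = A - Λ * (uX B f : ℝ) ^ 3 := by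
        rw [hA, hΛL]
        unfold CK
        field_simp
        ring
      rw [← e1]
      linarith
    · rw [ind_t hG]
      have h1 : (0 : ℤ) ≤ ∑ t ∈ DI (Fin m),
          ind (({f t.1, f t.2.1, f t.2.2} : Finset (Fin n)) ∈ T) :=
        sum_nonneg fun t _ => ind_nonneg _
      have h2 : (0 : ℝ) ≤ ((∑ t ∈ DI (Fin m),
          ind (({f t.1, f t.2.1, f t.2.2} : Finset (Fin n)) ∈ T) : ℤ) : ℝ) := by exact_mod_cast h1
      have h4 : 0 ≤ Λ * (uX B f : ℝ) ^ 3 := by positivity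
      push_cast at h2 ⊢
      linarith
  have hsum := sum_le_sum fun (f : Fin m → Fin n) (_ : f ∈ univ) => hone f
  rw [sum_sub_distrib, sum_sub_distrib, ← mul_sum, ← mul_sum, sum_const, card_univ,
    Fintype.card_fun, Fintype.card_fin, Fintype.card_fin, nsmul_eq_mul] at hsum
  have hR : ((∑ f : Fin m → Fin n, ∑ t ∈ DI (Fin m),
      ind (({f t.1, f t.2.1, f t.2.2} : Finset (Fin n)) ∈ T) : ℤ) : ℝ) ≤
      (m : ℝ) ^ 3 * ((n : ℝ) ^ (m - 3) * (6 * (T.card : ℝ))) := by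
    have h1 : ∑ f : Fin m → Fin n, ∑ t ∈ DI (Fin m),
        ind (({f t.1, f t.2.1, f t.2.2} : Finset (Fin n)) ∈ T) ≤
        ((DI (Fin m)).card : ℤ) * ((n : ℤ) ^ (m - 3) * (6 * (T.card : ℤ))) := by
      rw [sum_comm]
      have h2 : ∀ t ∈ DI (Fin m), ∑ f : Fin m → Fin n,
          ind (({f t.1, f t.2.1, f t.2.2} : Finset (Fin n)) ∈ T) ≤
            (n : ℤ) ^ (m - 3) * (6 * (T.card : ℤ)) := by
        intro t ht
        obtain ⟨d1, d2, d3⟩ := mem_DI.1 ht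
        have := sum3' d1 d2 d3 (fun x y z : Fin n => ind (({x, y, z} : Finset (Fin n)) ∈ T))
        rw [Fintype.card_fin, Fintype.card_fin] at this
        rw [this]
        exact mul_le_mul_of_nonneg_left (ord_le_six h3) (by positivity)
      refine (sum_le_sum h2).trans (le_of_eq ?_)
      rw [sum_const, nsmul_eq_mul]
    have h2 : ((∑ f : Fin m → Fin n, ∑ t ∈ DI (Fin m),
        ind (({f t.1, f t.2.1, f t.2.2} : Finset (Fin n)) ∈ T) : ℤ) : ℝ) ≤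
        ((DI (Fin m)).card : ℝ) * ((n : ℝ) ^ (m - 3) * (6 * (T.card : ℝ))) := by
      exact_mod_cast h1
    refine h2.trans ?_
    have hD : ((DI (Fin m)).card : ℝ) ≤ (m : ℝ) ^ 3 := by
      have := DI_card_le (I := Fin m)
      rw [Fintype.card_fin] at this
      exact_mod_cast this
    exact mul_le_mul_of_nonneg_right hD (by positivity)
  have hU : (∑ f : Fin m → Fin n, (uX B f : ℝ) ^ 3) ≤
      ((m : ℝ) ^ 3 * γ ^ 3 + 3 * (m : ℝ) ^ 2) * (n : ℝ) ^ m := by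
    have h1 := sum_u3 (n := n) (B := B) hm3
    have h2 : (∑ f : Fin m → Fin n, (uX B f : ℝ) ^ 3) ≤
        ((DI (Fin m)).card : ℝ) * ((n : ℝ) ^ (m - 3) * (B.card : ℝ) ^ 3) +
          3 * (m : ℝ) ^ 2 * (n : ℝ) ^ m := by
      exact_mod_cast h1
    refine h2.trans ?_
    have hD : ((DI (Fin m)).card : ℝ) ≤ (m : ℝ) ^ 3 := by
      have := DI_card_le (I := Fin m)
      rw [Fintype.card_fin] at this
      exact_mod_cast this
    have h4 : (B.card : ℝ) ^ 3 ≤ (γ * n) ^ 3 := pow_le_pow_left₀ (Nat.cast_nonneg _) hB 3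
    have hpow : (n : ℝ) ^ m = (n : ℝ) ^ (m - 3) * (n : ℝ) ^ 3 := by
      rw [← pow_add]
      congr 1
      omega
    have h5 : ((DI (Fin m)).card : ℝ) * ((n : ℝ) ^ (m - 3) * (B.card : ℝ) ^ 3) ≤
        (m : ℝ) ^ 3 * ((n : ℝ) ^ (m - 3) * (γ * n) ^ 3) :=
      mul_le_mul hD (mul_le_mul_of_nonneg_left h4 (by positivity)) (by positivity)
        (by positivity)
    have e1 : ((m : ℝ) ^ 3 * γ ^ 3 + 3 * (m : ℝ) ^ 2) * (n : ℝ) ^ m =
        (m : ℝ) ^ 3 * ((n : ℝ) ^ (m - 3) * (γ * n) ^ 3) + 3 * (m : ℝ) ^ 2 * (n : ℝ) ^ m := by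
      rw [hpow]
      ring
    rw [e1]
    linarith
  have hnm : (0 : ℝ) < (n : ℝ) ^ m := by positivity
  have hX0 : (0 : ℝ) < (n : ℝ) ^ (m - 3) := by positivity
  have hXr : (n : ℝ) ^ m = (n : ℝ) ^ (m - 3) * (n : ℝ) ^ 3 := by
    rw [← pow_add]
    congr 1
    omega
  have hbad' : A * ((∑ f : Fin m → Fin n, ind (¬ GoodX Q B T f) : ℤ) : ℝ) ≤
      A * (beta m n δ ε * (n : ℝ) ^ m) := mul_le_mul_of_nonneg_left hbad hA0
  have hU' := mul_le_mul_of_nonneg_left hU hΛ0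
  have hS : (n : ℝ) ^ m * A - Λ * (((m : ℝ) ^ 3 * γ ^ 3 + 3 * (m : ℝ) ^ 2) * (n : ℝ) ^ m) -
      A * (beta m n δ ε * (n : ℝ) ^ m) ≤
      (m : ℝ) ^ 3 * ((n : ℝ) ^ (m - 3) * (6 * (T.card : ℝ))) := by
    refine le_trans ?_ hR
    push_cast at hsum hbad' ⊢
    linarith
  have h9 : ((m : ℝ) ^ 3 * (n : ℝ) ^ (m - 3)) *
      ((4 / 9 - Λ * γ ^ 3 - η) * (n : ℝ) ^ 3) ≤
      ((m : ℝ) ^ 3 * (n : ℝ) ^ (m - 3)) * (6 * (T.card : ℝ)) := by
    have h10 := mul_le_mul_of_nonneg_right hfin hnm.le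
    have e1 : ((m : ℝ) ^ 3 * (n : ℝ) ^ (m - 3)) * ((4 / 9 - Λ * γ ^ 3 - η) * (n : ℝ) ^ 3) =
        (4 / 9 - η) * (m : ℝ) ^ 3 * (n : ℝ) ^ m - Λ * ((m : ℝ) ^ 3 * γ ^ 3 * (n : ℝ) ^ m) := by
      rw [hXr]
      ring
    rw [e1]
    linarith
  exact le_of_mul_le_mul_left h9 (by positivity)

end Pool.Agent.DL
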