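import Pool.Agent.DL.Gam6

/-! The exact form and the lower bound for the Turán density. -/

set_option autoImplicit false
open Finset
open scoped Classical

namespace Pool.Agent.DL

open Pool.Agent.R810

theorem Dens.ge {p : ℝ} (hp : Dens p) : 5 / 9 ≤ p := by
  by_contra hcon
  push Not at hcon
  obtain ⟨q, hq⟩ := exists_nat_gt (1 / (3 * (5 / 9 - p)) + 2)
  have hd : 0 < 5 / 9 - p := by linarith
  have hq1 : 1 / (3 * (5 / 9 - p)) < (q : ℝ) := by linarith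
  have hq2 : (2 : ℝ) < q := by
    have : 0 < 1 / (3 * (5 / 9 - p)) := by positivity
    linarith
  have hq2' : 2 < q := by exact_mod_cast hq2
  obtain ⟨g, -, hg⟩ := LJ.exists_balanced (3 * q) (by omega)
  have h1 := hp (3 * q) (LJ.turanGraph g) (fun e he => LJ.card_of_turan he) (LJ.turan_free g)
  rw [hg] at h1
  have h2 := LJ.tn_zero q
  have h3 : 6 * ((LJ.tn (3 * q) : ℕ) : ℝ) = 15 * (q : ℝ) ^ 3 - 9 * (q : ℝ) ^ 2 := by
    exact_mod_cast h2
  rw [h3] at h1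
  push_cast at h1
  have h4 : (q : ℝ) ^ 2 * (27 * (5 / 9 - p) * q) ≤ (q : ℝ) ^ 2 * 9 := by nlinarith
  have h5 := le_of_mul_le_mul_left h4 (by positivity)
  rw [div_lt_iff₀ (by positivity)] at hq1
  linarith

theorem num_d {n u r K b : ℝ} (hn : 1 ≤ n) (hr : r ^ 2 = n) (hr0 : 0 ≤ r) (hu0 : 0 ≤ u)
    (hu : u ≤ n) (hK1 : r ≤ K) (hK2 : K ≤ 2 * r) (hb : b = 17 / 4 * K + 1) :
    (17 / 4 * (u + K) + 1) ^ 3 ≤ (17 / 4) ^ 3 * u ^ 3 + 2600 * (n ^ 2 * r) ∧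
      u ^ 2 / (6 * K) * n ≤ n ^ 2 * r ∧ n ^ 2 ≤ n ^ 2 * r := by
  have hr1 : 1 ≤ r := by nlinarith
  have hb0 : 0 ≤ b := by rw [hb]; linarith
  have hb1 : b ≤ 19 / 2 * r := by rw [hb]; linarith
  have hn2 : 0 ≤ n ^ 2 := by positivity
  have a1 : u ^ 2 ≤ n ^ 2 := pow_le_pow_left₀ hu0 hu 2
  have a3 : n ^ 2 ≤ n ^ 2 * r := le_mul_of_one_le_right hn2 hr1
  refine ⟨?_, ?_, a3⟩
  · have e : 17 / 4 * (u + K) + 1 = 17 / 4 * u + b := by rw [hb]; ring
    rw [e]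
    have e2 : (17 / 4 * u + b) ^ 3 = (17 / 4) ^ 3 * u ^ 3 + 3 * (17 / 4) ^ 2 * (u ^ 2 * b) +
        3 * (17 / 4) * (b ^ 2 * u) + b ^ 3 := by ring
    have b1 : u ^ 2 * b ≤ n ^ 2 * (19 / 2 * r) := mul_le_mul a1 hb1 hb0 hn2
    have b2 : b ^ 2 ≤ (19 / 2 * r) ^ 2 := pow_le_pow_left₀ hb0 hb1 2
    have b2' : b ^ 2 ≤ 361 / 4 * n := by
      rw [← hr]
      linarith
    have b3 : b ^ 2 * u ≤ 361 / 4 * n * n := mul_le_mul b2' hu hu0 (by positivity)
    have b4 : b ^ 3 ≤ (19 / 2 * r) ^ 3 := pow_le_pow_left₀ hb0 hb1 3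
    have b5 : (19 / 2 * r) ^ 3 = 6859 / 8 * (n * r) := by
      rw [← hr]
      ring
    have b6 : n * r ≤ n ^ 2 * r := by
      have : n * r * 1 ≤ n * r * n := mul_le_mul_of_nonneg_left hn (by positivity)
      linarith
    have b7 : 361 / 4 * n * n = 361 / 4 * n ^ 2 := by ring
    have b8 : n ^ 2 * (19 / 2 * r) = 19 / 2 * (n ^ 2 * r) := by ring
    rw [e2]
    linarith
  · have h1 : u ^ 2 / (6 * K) ≤ n * r / 6 := by
      rw [div_le_div_iff₀ (by linarith) (by norm_num)]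
      have h2 : n * r * r ≤ n * r * K := mul_le_mul_of_nonneg_left hK1 (by positivity)
      have h3 : n * r * r = n ^ 2 := by
        rw [← hr]
        ring
      linarith
    have h2 := mul_le_mul_of_nonneg_right h1 (show (0 : ℝ) ≤ n by linarith)
    have h3 : n * r / 6 * n = n ^ 2 * r / 6 := by ring
    have h4 : 0 ≤ n ^ 2 * r := by positivity
    linarith

/-- **Few exceptional vertices, exact cuts.** -/
theorem exactA {p : ℝ} (hp : Dens p) {n : ℕ} {T : Finset (Finset (Fin n))}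
    {c : Fin n → Fin n → Prop} (h3 : ∀ e ∈ T, e.card = 3) (hT : TC.Covers T)
    (hc : T ⊆ locT c) :
    2 / 27 * (n : ℝ) ^ 3 - (17 / 4) ^ 3 * (p - 5 / 9) / 6 *
        (((univ.filter fun x => ¬ TwoD c x).card : ℕ) : ℝ) ^ 3 -
      (3 + 450 * (p - 5 / 9)) * ((n : ℝ) ^ 2 * Real.sqrt n) ≤ T.card := by
  have hp5 := hp.ge
  rcases Nat.eq_zero_or_pos n with h0 | h0
  · subst h0
    simp
  have hn1 : (1 : ℝ) ≤ n := by exact_mod_cast h0
  set u := (univ.filter fun x => ¬ TwoD c x).card with hu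
  have hun : (u : ℝ) ≤ n := by
    have : u ≤ n := by
      rw [hu]
      refine (card_le_univ _).trans ?_
      simp
    exact_mod_cast this
  set r : ℝ := Real.sqrt n with hr
  have hr2 : r ^ 2 = n := Real.sq_sqrt (Nat.cast_nonneg _)
  have hr0 : 0 ≤ r := Real.sqrt_nonneg _
  have hr1 : 1 ≤ r := by nlinarith
  set K : ℕ := ⌈r⌉₊ with hK
  have hK1 : r ≤ K := Nat.le_ceil r
  have hK2 : (K : ℝ) ≤ 2 * r := by
    have := Nat.ceil_lt_add_one hr0
    linarith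
  have hK3 : 1 ≤ K := by
    have : (0 : ℝ) < K := by linarith
    have : 0 < K := by exact_mod_cast this
    omega
  have h5 := count_all (u := u) (K := K) (ρ := 1 - p) h3 hT hc hu.ge hK3 (by linarith)
    (fun S => hp.bound h3 hT S) n univ (by simp)
  have h6 : NT T univ ≤ T.card := by
    unfold NT
    refine card_le_card ?_
    intro e he
    exact (mem_filter.1 he).2
  have h6' : ((NT T univ : ℕ) : ℝ) ≤ T.card := by exact_mod_cast h6
  obtain ⟨d1, d2, d3⟩ := num_d (n := (n : ℝ)) (u := (u : ℝ)) (r := r) (K := (K : ℝ))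
    (b := 17 / 4 * K + 1) hn1 hr2 hr0 (Nat.cast_nonneg _) hun hK1 hK2 rfl
  have hL : (2 : ℝ) / 27 - (1 - p) / 6 = (p - 5 / 9) / 6 := by ring
  rw [hL] at h5
  have hL0 : 0 ≤ (p - 5 / 9) / 6 := by linarith
  have h7 := mul_le_mul_of_nonneg_left d1 hL0
  have h8 : (p - 5 / 9) / 6 * ((17 / 4) ^ 3 * (u : ℝ) ^ 3 + 2600 * ((n : ℝ) ^ 2 * r)) =
      (17 / 4) ^ 3 * (p - 5 / 9) / 6 * (u : ℝ) ^ 3 +
        1300 / 3 * ((p - 5 / 9) * ((n : ℝ) ^ 2 * r)) := by ring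
  have h9 : 0 ≤ (p - 5 / 9) * ((n : ℝ) ^ 2 * r) := mul_nonneg (by linarith) (by positivity)
  have h10 : (3 + 450 * (p - 5 / 9)) * ((n : ℝ) ^ 2 * r) = 3 * ((n : ℝ) ^ 2 * r) +
      450 * ((p - 5 / 9) * ((n : ℝ) ^ 2 * r)) := by ring
  rw [h10]
  linarith

end Pool.Agent.DL
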