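import Pool.Agent.DL.Main

/-! Disconnected link graphs. -/

set_option autoImplicit false
open Finset
open scoped Classical

namespace Pool.Agent.DL

open Pool.Agent.R810

variable {n : ℕ} {T : Finset (Finset (Fin n))}

/-- the link graph of `x`: its vertices are the vertices other than `x` -/
def linkGraph (T : Finset (Finset (Fin n))) (x : Fin n) : SimpleGraph {y : Fin n // y ≠ x} where
  Adj y z := y ≠ z ∧ ({x, y.1, z.1} : Finset (Fin n)) ∈ T
  symm := ⟨fun y z h => ⟨h.1.symm, by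
    have : ({x, z.1, y.1} : Finset (Fin n)) = {x, y.1, z.1} := by
      rw [pair_comm z.1 y.1]
    rw [this]
    exact h.2⟩⟩
  loopless := ⟨fun _ h => h.1 rfl⟩

/-- the component of `y` in the link graph of `x` -/
def cc (T : Finset (Finset (Fin n))) (x y : Fin n) : Set (Fin n) :=
  {z | ∃ (hy : y ≠ x) (hz : z ≠ x), (linkGraph T x).Reachable ⟨y, hy⟩ ⟨z, hz⟩}

theorem cc_eq {x y z : Fin n} (hy : y ≠ x) (hz : z ≠ x) :
    cc T x y = cc T x z ↔ (linkGraph T x).Reachable ⟨y, hy⟩ ⟨z, hz⟩ := by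
  constructor
  · intro h
    have : z ∈ cc T x z := ⟨hz, hz, SimpleGraph.Reachable.refl _⟩
    rw [← h] at this
    obtain ⟨_, _, h1⟩ := this
    exact h1
  · intro h
    ext w
    constructor
    · rintro ⟨_, hw, h1⟩
      exact ⟨hz, hw, h.symm.trans h1⟩
    · rintro ⟨_, hw, h1⟩
      exact ⟨hy, hw, h.trans h1⟩

theorem cc_adj {x y z : Fin n} (hxy : x ≠ y) (hxz : x ≠ z) (hyz : y ≠ z)
    (h : ({x, y, z} : Finset (Fin n)) ∈ T) : cc T x y = cc T x z := by
  rw [cc_eq hxy.symm hxz.symm]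
  apply SimpleGraph.Adj.reachable
  exact ⟨fun e => hyz (congrArg Subtype.val e), h⟩

theorem sub_loc (h3 : ∀ e ∈ T, e.card = 3) : T ⊆ locT (cc T) := by
  intro e he
  obtain ⟨x, y, z, d1, d2, d3, rfl⟩ := card_eq_three.1 (h3 e he)
  rw [mem_locT' d1 d2 d3]
  have e1 : ({y, x, z} : Finset (Fin n)) = {x, y, z} := by
    ext t
    simp only [mem_insert, mem_singleton]
    tauto
  have e2 : ({z, x, y} : Finset (Fin n)) = {x, y, z} := by
    ext t
    simp only [mem_insert, mem_singleton]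
    tauto
  exact ⟨cc_adj d1 d2 d3 he, cc_adj d1.symm d3 d2 (by rw [e1]; exact he),
    cc_adj d2.symm d3.symm d1 (by rw [e2]; exact he)⟩

theorem two_of (hn : 2 ≤ n) (hd : ∀ x, ¬ (linkGraph T x).Connected) : TwoAt (cc T) := by
  intro u
  have hne : Nonempty {y : Fin n // y ≠ u} := by
    have : ∃ y : Fin n, y ≠ u := by
      have h1 : Nontrivial (Fin n) := Fin.nontrivial_iff_two_le.2 hn
      exact exists_ne u
    obtain ⟨y, hy⟩ := this
    exact ⟨⟨y, hy⟩⟩
  have h1 : ¬ (linkGraph T u).Preconnected := fun h => hd u ⟨h⟩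
  rw [SimpleGraph.Preconnected] at h1
  push Not at h1
  obtain ⟨⟨a, ha⟩, ⟨b, hb⟩, hab⟩ := h1
  exact ⟨a, b, ha, hb, fun e => hab ((cc_eq ha hb).1 e)⟩

theorem links (hn : 2 ≤ n) (h3 : ∀ e ∈ T, e.card = 3) (hT : TC.Covers T)
    (hd : ∀ x, ¬ (linkGraph T x).Connected) :
    T = locT (cc T) ∧ ((∃ g : Fin n → Fin 3, (∀ i, 2 ≤ (univ.filter fun x => g x = i).card) ∧
      T = TC.turanCovering g) ∨ H n ≤ T.card) :=
  main h3 hT (sub_loc h3) (two_of hn hd)

theorem patr : ∀ i j l : Fin 3, ((∃ k, i = k ∧ j = k ∧ l = k) ∨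
      ∃ k, ((if i = k then 1 else 0) + ((if j = k then 1 else 0) + (if l = k then 1 else 0)) = 2 ∧
      (if i = k + 1 then 1 else 0) + ((if j = k + 1 then 1 else 0) +
        (if l = k + 1 then 1 else 0)) = 1)) → (j + 1 = i ↔ l + 1 = i) := by
  decide

theorem reach_inv {α : Type*} {G : SimpleGraph α} {P : α → Prop} (h : ∀ a b, G.Adj a b → (P a ↔ P b))
    {a b : α} (hab : G.Reachable a b) : P a ↔ P b := by
  obtain ⟨w⟩ := hab
  induction w with
  | nil => exact Iff.rfl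
  | cons h1 _ ih => exact (h _ _ h1).trans ih

/-- the link graphs of Turán's construction are disconnected -/
theorem turan_links {g : Fin n → Fin 3} (hg : ∀ i, 2 ≤ (univ.filter fun x => g x = i).card)
    (x : Fin n) : ¬ (linkGraph (TC.turanCovering g) x).Connected := by
  intro hC
  have h1 : ∃ t, g t + 1 = g x := by
    have h2 := hg (g x - 1)
    obtain ⟨t, ht⟩ := card_pos.1 (show 0 < (univ.filter fun y => g y = g x - 1).card by omega)
    exact ⟨t, by rw [(mem_filter.1 ht).2, sub_add_cancel]⟩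
  have h2 : ∃ t, t ≠ x ∧ g t = g x := by
    have h2 := hg (g x)
    obtain ⟨a, ha, b, hb, hab⟩ := one_lt_card.1 (show 1 < (univ.filter fun y => g y = g x).card by
      omega)
    by_cases h : a = x
    · exact ⟨b, fun e => hab (h.trans e.symm), (mem_filter.1 hb).2⟩
    · exact ⟨a, h, (mem_filter.1 ha).2⟩
  obtain ⟨t, ht⟩ := h1
  obtain ⟨s, hs, hs'⟩ := h2
  have f : ∀ i : Fin 3, i + 1 ≠ i := by decide
  have htx : t ≠ x := by
    rintro rfl
    exact f _ ht
  have h5 := reach_inv (P := fun y : {y : Fin n // y ≠ x} => g y.1 + 1 = g x) ?_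
    (hC.preconnected ⟨t, htx⟩ ⟨s, hs⟩)
  · have h6 : g s + 1 = g x := h5.1 ht
    rw [hs'] at h6
    exact f _ h6
  · rintro ⟨a, ha⟩ ⟨b, hb⟩ ⟨h6, h7⟩
    have hab : a ≠ b := fun e => h6 (Subtype.ext e)
    exact patr _ _ _ ((TC.mem_cov g ha.symm hb.symm hab).1 h7)

end Pool.Agent.DL
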