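import Pool.Agent.DL.Count
import Pool.Agent.R810.TC.Tight

/-! The dichotomy for sets of triples. -/

set_option autoImplicit false
open Finset
open scoped Classical

namespace Pool.Agent.DL

open Pool.Agent.R810

variable {n : ℕ} {κ : Type*} {c : Fin n → Fin n → κ} {T : Finset (Finset (Fin n))}

/-- the locally monochromatic triples -/
noncomputable def locT (c : Fin n → Fin n → κ) : Finset (Finset (Fin n)) :=
  (powersetCard 3 univ).filter (Loc c)

theorem mem_locT {e : Finset (Fin n)} : e ∈ locT c ↔ e.card = 3 ∧ Loc c e := by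
  unfold locT
  rw [mem_filter, mem_powersetCard]
  simp

theorem mem_locT' {x y z : Fin n} (hxy : x ≠ y) (hxz : x ≠ z) (hyz : y ≠ z) :
    ({x, y, z} : Finset (Fin n)) ∈ locT c ↔ LM c x y z := by
  rw [mem_locT, loc_iff hxy hxz hyz]
  have : ({x, y, z} : Finset (Fin n)).card = 3 := card_eq_three.2 ⟨x, y, z, hxy, hxz, hyz, rfl⟩
  simp [this]

theorem locT_three : ∀ e ∈ locT c, e.card = 3 := fun _ he => (mem_locT.1 he).1

theorem cov_of (h3 : ∀ e ∈ T, e.card = 3) (hT : TC.Covers T) (hc : T ⊆ locT c) : Cov c := by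
  intro a b d e h1 h2 h4 h5 h6 h7
  rcases TC.four_T h3 hT a b d e h1 h2 h4 h5 h6 h7 with h | h | h | h
  · exact Or.inl ((mem_locT' h1 h2 h5).1 (hc h))
  · exact Or.inr (Or.inl ((mem_locT' h1 h4 h6).1 (hc h)))
  · exact Or.inr (Or.inr (Or.inl ((mem_locT' h2 h4 h7).1 (hc h))))
  · exact Or.inr (Or.inr (Or.inr ((mem_locT' h5 h6 h7).1 (hc h))))

theorem forced (h3 : ∀ e ∈ T, e.card = 3) (hT : TC.Covers T) (hc : T ⊆ locT c) {u v w t : Fin n}
    (huv : u ≠ v) (huw : u ≠ w) (hvw : v ≠ w) (htu : t ≠ u) (htv : t ≠ v) (htw : t ≠ w)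
    (h1 : ¬ LM c u v t) (h2 : ¬ LM c u w t) (h4 : ¬ LM c v w t) :
    ({u, v, w} : Finset (Fin n)) ∈ T := by
  rcases TC.four_T h3 hT u v w t huv huw htu.symm hvw htv.symm htw.symm with h | h | h | h
  · exact h
  · exact absurd ((mem_locT' huv htu.symm htv.symm).1 (hc h)) h1
  · exact absurd ((mem_locT' huw htu.symm htw.symm).1 (hc h)) h2
  · exact absurd ((mem_locT' hvw htv.symm htw.symm).1 (hc h)) h4

/-- every vertex sees two colours -/
def TwoAt (c : Fin n → Fin n → κ) : Prop := ∀ u, ∃ a b, a ≠ u ∧ b ≠ u ∧ c u a ≠ c u b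

/-- In the case of a maximal vertex all locally monochromatic triples belong to `T`. -/
theorem full_of_max (h3 : ∀ e ∈ T, e.card = 3) (hT : TC.Covers T) (hc : T ⊆ locT c)
    (h2 : TwoAt c) {x : Fin n} (hx : ∀ y, ¬ R c univ x y) : locT c ⊆ T := by
  have hcov := cov_of h3 hT hc
  have hmax : ∀ y z, y ≠ x → z ≠ x → y ≠ z → c x y = c x z → LM c x y z := fun y z hy hz hyz e =>
    max_same (S := univ) (fun y _ => hx y) (mem_univ _) (mem_univ _) hy hz hyz e
  -- two vertices of the same colour at x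
  have key : ∀ u v w : Fin n, u ≠ v → u ≠ w → v ≠ w → u ≠ x → v ≠ x → c x u = c x v →
      LM c u v w → ({u, v, w} : Finset (Fin n)) ∈ T := by
    intro u v w huv huw hvw hux hvx e hL
    have hM := hmax u v hux hvx huv e
    have ex : ∀ u, u ≠ x → ∃ t, t ≠ u ∧ c u t ≠ c u x := by
      intro u hux
      obtain ⟨a, b, ha, hb, hab⟩ := h2 u
      by_cases h5 : c u a = c u x
      · exact ⟨b, hb, fun h6 => hab (h5.trans h6.symm)⟩
      · exact ⟨a, ha, h5⟩
    have main : ∃ t, t ≠ u ∧ t ≠ v ∧ c u t ≠ c u x ∧ c v t ≠ c v x := by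
      obtain ⟨t, htu, ht⟩ := ex u hux
      obtain ⟨s, hsv, hs⟩ := ex v hvx
      have htv : t ≠ v := by
        rintro rfl
        exact ht hM.2.1.symm
      have hsu : s ≠ u := by
        rintro rfl
        exact hs hM.2.2.symm
      by_cases h5 : c v t = c v x
      · by_cases h6 : c u s = c u x
        · exfalso
          have := nest' hcov huv hsu hsv (h6.trans hM.2.1)
            (by rw [← hM.2.2]; exact hs) htu htv (by rw [← hM.2.1]; exact ht)
          exact this (h5.trans hM.2.2)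
        · exact ⟨s, hsu, hsv, h6, hs⟩
      · exact ⟨t, htu, htv, ht, h5⟩
    obtain ⟨t, htu, htv, ht1, ht2⟩ := main
    have htw : t ≠ w := by
      rintro rfl
      exact ht1 (hL.1.symm.trans hM.2.1.symm)
    refine forced h3 hT hc huv huw hvw htu htv htw ?_ ?_ ?_
    · intro e'
      exact ht1 (e'.1.symm.trans hM.2.1.symm)
    · intro e'
      exact ht1 ((e'.1.symm.trans hL.1.symm).trans hM.2.1.symm)
    · intro e'
      exact ht2 ((e'.1.symm.trans hL.2.1.symm).trans hM.2.2.symm)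
  intro e he
  obtain ⟨u, v, w, huv, huw, hvw, rfl⟩ := card_eq_three.1 (locT_three e he)
  have hL := (mem_locT' huv huw hvw).1 he
  by_cases hu : u = x
  · subst hu
    have := key v w u hvw huv.symm huw.symm huv.symm huw.symm hL.1 hL.rot
    rwa [LJ.rot_set u v w]
  by_cases hv : v = x
  · subst hv
    have := key w u v huw.symm hvw.symm huv (fun e => hvw e.symm) huv hL.rot.1 hL.rot.rot
    rwa [LJ.rot_set, LJ.rot_set]
  by_cases hw : w = x
  · subst hw
    exact key u v w huv huw hvw huw hvw hL.rot.rot.1 hL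
  by_cases e1 : c x u = c x v
  · exact key u v w huv huw hvw hu hv e1 hL
  by_cases e2 : c x v = c x w
  · have := key v w u hvw huv.symm huw.symm hv hw e2 hL.rot
    rwa [LJ.rot_set u v w]
  by_cases e3 : c x w = c x u
  · have := key w u v huw.symm hvw.symm huv hw hu e3 hL.rot.rot
    rwa [LJ.rot_set, LJ.rot_set]
  refine forced h3 hT hc huv huw hvw (Ne.symm hu) (Ne.symm hv) (Ne.symm hw) ?_ ?_ ?_
  · intro e'
    exact e1 e'.2.2
  · intro e'
    exact e3 e'.2.2.symm
  · intro e'
    exact e2 e'.2.2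

theorem pat3 : ∀ i j l : Fin 3, (j + 1 = i ↔ l + 1 = i) → (i + 1 = j ↔ l + 1 = j) →
    (i + 1 = l ↔ j + 1 = l) → ((∃ k, i = k ∧ j = k ∧ l = k) ∨
      ∃ k, ((if i = k then 1 else 0) + ((if j = k then 1 else 0) + (if l = k then 1 else 0)) = 2 ∧
      (if i = k + 1 then 1 else 0) + ((if j = k + 1 then 1 else 0) +
        (if l = k + 1 then 1 else 0)) = 1)) := by
  decide

theorem std_lm {g : Fin n → Fin 3} (hs : Std c g) {x y z : Fin n} (hxy : x ≠ y) (hxz : x ≠ z)
    (hyz : y ≠ z) (h1 : g x = g y) (h2 : g z = g x ∨ g z = g x + 1) : LM c x y z := by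
  have f : ∀ i j : Fin 3, (j = i ∨ j = i + 1) → (i + 1 = i ↔ j + 1 = i) := by decide
  refine ⟨hs x y z hxy.symm hxz.symm ?_, hs y x z hxy hyz.symm ?_, hs z x y hxz hyz ?_⟩
  · rw [← h1]
    exact f _ _ h2
  · rw [← h1]
    exact f _ _ h2
  · rw [h1]

/-- in Turán's case -/
theorem std_eq (h3 : ∀ e ∈ T, e.card = 3) (hT : TC.Covers T) (hc : T ⊆ locT c)
    (h2 : TwoAt c) {g : Fin n → Fin 3} (hg : ∀ i, ∃ t, g t = i) (hs : Std c g) :
    T = TC.turanCovering g ∧ locT c = TC.turanCovering g := by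
  have sep : ∀ u v w, v ≠ u → w ≠ u → g v + 1 = g u → g w + 1 ≠ g u → c u v ≠ c u w := by
    intro u v w hv hw e1 e2 e3
    obtain ⟨a, b, ha, hb, hab⟩ := h2 u
    have : ∀ t, t ≠ u → c u t = c u v := by
      intro t ht
      by_cases h5 : g t + 1 = g u
      · exact hs u t v ht hv (by simp [h5, e1])
      · rw [e3]
        exact hs u t w ht hw (by simp [h5, e2])
    exact hab ((this a ha).trans (this b hb).symm)
  have hsub : locT c ⊆ TC.turanCovering g := by
    intro e he
    obtain ⟨x, y, z, d1, d2, d3, rfl⟩ := card_eq_three.1 (locT_three e he)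
    have hL := (mem_locT' d1 d2 d3).1 he
    rw [TC.mem_cov g d1 d2 d3]
    refine pat3 _ _ _ ?_ ?_ ?_
    · by_contra h
      by_cases h5 : g y + 1 = g x
      · exact sep x y z d1.symm d2.symm h5 (fun h6 => h (by simp [h5, h6])) hL.1
      · exact sep x z y d2.symm d1.symm (by
          by_contra h6
          exact h (by simp [h5, h6])) h5 hL.1.symm
    · by_contra h
      by_cases h5 : g x + 1 = g y
      · exact sep y x z d1 d3.symm h5 (fun h6 => h (by simp [h5, h6])) hL.2.1
      · exact sep y z x d3.symm d1 (by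
          by_contra h6
          exact h (by simp [h5, h6])) h5 hL.2.1.symm
    · by_contra h
      by_cases h5 : g x + 1 = g z
      · exact sep z x y d2 d3 h5 (fun h6 => h (by simp [h5, h6])) hL.2.2
      · exact sep z y x d3 d2 (by
          by_contra h6
          exact h (by simp [h5, h6])) h5 hL.2.2.symm
  have hsup : TC.turanCovering g ⊆ T := by
    refine (TC.of_turan h3 ?_).1
    intro x y z hxy hxz hyz h1 h5
    obtain ⟨t, ht⟩ := hg (g x - 1)
    have ht' : g t + 1 = g x := by rw [ht, sub_add_cancel]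
    have f1 : ∀ i j l : Fin 3, i + 1 = j → l = j ∨ l = j + 1 → i ≠ j ∧ i ≠ l ∧ j + 1 ≠ j ∧
      l + 1 ≠ j := by decide
    have f2 := f1 _ _ _ ht' h5
    have htx : t ≠ x := fun e => f2.1 (by rw [e])
    have hty : t ≠ y := fun e => f2.1 (by rw [e, h1])
    have htz : t ≠ z := fun e => f2.2.1 (by rw [e])
    refine forced h3 hT hc hxy hxz hyz htx hty htz ?_ ?_ ?_
    · intro e
      exact sep x t y htx hxy.symm ht' (by rw [← h1]; exact f2.2.2.1) e.1.symm
    · intro e
      exact sep x t z htx hxz.symm ht' f2.2.2.2 e.1.symm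
    · intro e
      exact sep y t z hty hyz.symm (by rw [← h1]; exact ht') (by rw [← h1]; exact f2.2.2.2)
        e.1.symm
  exact ⟨Subset.antisymm (hc.trans hsub) hsup, Subset.antisymm hsub (hsup.trans hc)⟩

theorem std_or (hcov : Cov c) : (∃ g : Fin n → Fin 3,
    (∀ i, 2 ≤ (univ.filter fun x => g x = i).card) ∧ Std c g) ∨
      (H n ≤ (locT c).card ∧ (0 < n → ∃ x, ∀ y, ¬ R c univ x y)) := by
  by_cases hC : ∃ x y z, Cyc c univ x y z
  · left
    obtain ⟨x, y, z, hC⟩ := hC
    obtain ⟨g, hg, hs⟩ := hC.std hcov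
    refine ⟨g, fun i => ?_, hs⟩
    obtain ⟨a, -, b, -, hab, ha, hb⟩ := hg i
    rw [← card_pair hab]
    refine card_le_card ?_
    intro t ht
    rw [mem_insert, mem_singleton] at ht
    rw [mem_filter]
    rcases ht with rfl | rfl
    · exact ⟨mem_univ _, ha⟩
    · exact ⟨mem_univ _, hb⟩
  · right
    push Not at hC
    constructor
    · have := acyclic_bound hcov n univ (by simp) hC
      exact this
    · intro hn
      obtain ⟨x, -, hx⟩ := exists_max hcov (S := univ) ⟨⟨0, hn⟩, mem_univ _⟩ hC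
      exact ⟨x, fun y => hx y (mem_univ _)⟩

/-- **The dichotomy for sets of triples.** -/
theorem main (h3 : ∀ e ∈ T, e.card = 3) (hT : TC.Covers T) (hc : T ⊆ locT c) (h2 : TwoAt c) :
    T = locT c ∧ ((∃ g : Fin n → Fin 3, (∀ i, 2 ≤ (univ.filter fun x => g x = i).card) ∧
      T = TC.turanCovering g) ∨ H n ≤ T.card) := by
  rcases std_or (cov_of h3 hT hc) with ⟨g, hg, hs⟩ | ⟨h5, h6⟩
  · have hg' : ∀ i, ∃ t, g t = i := by
      intro i
      have : 0 < (univ.filter fun x => g x = i).card := by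
        have := hg i
        omega
      obtain ⟨t, ht⟩ := card_pos.1 this
      exact ⟨t, (mem_filter.1 ht).2⟩
    obtain ⟨e1, e2⟩ := std_eq h3 hT hc h2 hg' hs
    exact ⟨e1.trans e2.symm, Or.inl ⟨g, hg, e1⟩⟩
  · have heq : T = locT c := by
      rcases Nat.eq_zero_or_pos n with h0 | h0
      · subst h0
        refine Subset.antisymm hc fun e he => ?_
        have h7 := locT_three e he
        have h8 : e.card ≤ 0 := by simpa using card_le_univ e
        omega
      · obtain ⟨x, hx⟩ := h6 h0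
        exact Subset.antisymm hc (full_of_max h3 hT hc h2 hx)
    exact ⟨heq, Or.inr (by rw [heq]; exact h5)⟩

/-! ### The numbers -/

theorem H_succ' (n : ℕ) : H (n + 1) = H n + (n - 1) ^ 2 / 4 := by
  unfold H
  rcases n with _ | n
  · simp
  · simp only [Nat.add_sub_cancel]
    rw [sum_range_succ]

theorem H_formula (k : ℕ) : (24 * (H (2 * k) : ℤ) = 2 * k * (2 * k - 2) * (4 * k - 5)) ∧
    (24 * (H (2 * k + 1) : ℤ) = (2 * k + 1) * (2 * k - 1) * (4 * k - 3) - 3) := by
  induction k with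
  | zero => simp [H]
  | succ k ih =>
    obtain ⟨h1, h2⟩ := ih
    have e1 : H (2 * (k + 1)) = H (2 * k + 1) + k ^ 2 := by
      rw [show 2 * (k + 1) = 2 * k + 1 + 1 by ring, H_succ', Nat.add_sub_cancel]
      have : (2 * k) ^ 2 / 4 = k ^ 2 := by
        rw [show (2 * k) ^ 2 = 4 * k ^ 2 by ring]
        omega
      rw [this]
    have e2 : H (2 * (k + 1) + 1) = H (2 * (k + 1)) + (k ^ 2 + k) := by
      rw [H_succ', show 2 * (k + 1) - 1 = 2 * k + 1 by omega]
      have : (2 * k + 1) ^ 2 / 4 = k ^ 2 + k := by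
        rw [show (2 * k + 1) ^ 2 = 4 * (k ^ 2 + k) + 1 by ring]
        omega
      rw [this]
    have h3 : 24 * (H (2 * (k + 1)) : ℤ) = 2 * ((k + 1 : ℕ) : ℤ) * (2 * ((k + 1 : ℕ) : ℤ) - 2) *
        (4 * ((k + 1 : ℕ) : ℤ) - 5) := by
      rw [e1]
      push_cast
      linear_combination h2
    refine ⟨h3, ?_⟩
    rw [e2]
    push_cast
    push_cast at h3
    linear_combination h3

theorem H_ge (n : ℕ) : (n : ℤ) * (n - 2) * (2 * n - 5) - 3 ≤ 24 * (H n : ℤ) := by
  rcases Nat.even_or_odd' n with ⟨k, rfl | rfl⟩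
  · have := (H_formula k).1
    push_cast
    nlinarith
  · have := (H_formula k).2
    push_cast
    nlinarith

theorem fn_le_H (n : ℕ) : TC.fn n ≤ H n := by
  rcases Nat.eq_zero_or_pos n with h | h
  · subst h
    decide
  · apply TC.fn_le_of
    have := H_ge n
    have h1 : (1 : ℤ) ≤ n := by exact_mod_cast h
    nlinarith

theorem fn_lt_H {n : ℕ} (hn : 6 ≤ n) : TC.fn n < H n := by
  have h8 : n = 6 ∨ n = 7 ∨ n = 8 ∨ 9 ≤ n := by omega
  rcases h8 with rfl | rfl | rfl | h9
  · decide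
  · decide
  · decide
  · have h2 := H_ge n
    have h1 : (9 : ℤ) ≤ n := by exact_mod_cast h9
    have hpos : 1 ≤ H n := by
      have h4 : (1 : ℤ) ≤ H n := by
        have h5 := sub_nonneg.2 h1
        nlinarith [mul_nonneg h5 h5, mul_nonneg (mul_nonneg h5 h5) h5]
      exact_mod_cast h4
    have h5 : TC.fn n ≤ H n - 1 := by
      apply TC.fn_le_of
      push_cast [hpos]
      nlinarith
    omega

end Pool.Agent.DL
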