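import Pool.Agent.DL.Links

/-! Restrictions to samples. -/

set_option autoImplicit false
open Finset
open scoped Classical

namespace Pool.Agent.DL

open Pool.Agent.R810
open Pool.Agent.R810.LJ (ind ind_t ind_f ind_nonneg six_le ord_le_six rot_set)
open Pool.Agent.R810.TC (DI mem_DI DI_card_le sum3')

variable {n m : ℕ} {T : Finset (Finset (Fin n))} {Q : Fin n → Finset (Fin n)}
  {B : Finset (Fin n)}

/-- the triples of indices whose images are in `T` -/
noncomputable def pull (T : Finset (Finset (Fin n))) (f : Fin m → Fin n) :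
    Finset (Finset (Fin m)) :=
  (powersetCard 3 univ).filter fun e => e.image f ∈ T

theorem mem_pull {f : Fin m → Fin n} {i j l : Fin m} (h1 : i ≠ j) (h2 : i ≠ l) (h3 : j ≠ l) :
    ({i, j, l} : Finset (Fin m)) ∈ pull T f ↔ ({f i, f j, f l} : Finset (Fin n)) ∈ T := by
  unfold pull
  rw [mem_filter, mem_powersetCard]
  have : ({i, j, l} : Finset (Fin m)).card = 3 := card_eq_three.2 ⟨i, j, l, h1, h2, h3, rfl⟩
  simp [this, image_insert]

theorem pull_three (f : Fin m → Fin n) : ∀ e ∈ pull T f, e.card = 3 := fun _ he =>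
  (mem_powersetCard.1 (mem_filter.1 he).1).2

theorem pull_covers (h3 : ∀ e ∈ T, e.card = 3) (hT : TC.Covers T) {f : Fin m → Fin n}
    (hf : Function.Injective f) : TC.Covers (pull T f) := by
  intro S hS
  obtain ⟨e, he, heS⟩ := hT (S.image f) (by rw [card_image_of_injective _ hf, hS])
  obtain ⟨s, hs, rfl⟩ := subset_image_iff.1 heS
  refine ⟨s, ?_, hs⟩
  unfold pull
  rw [mem_filter, mem_powersetCard]
  refine ⟨⟨subset_univ _, ?_⟩, he⟩
  have := h3 _ he
  rwa [card_image_of_injective _ hf] at this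

/-- a triple of `T` with `y` and `z` on different sides of the cut at `x` -/
def Cr (Q : Fin n → Finset (Fin n)) (T : Finset (Finset (Fin n))) (x y z : Fin n) : Prop :=
  y ∈ Q x ∧ z ∉ Q x ∧ ({x, y, z} : Finset (Fin n)) ∈ T

/-- a good sample -/
structure Good (Q : Fin n → Finset (Fin n)) (B : Finset (Fin n)) (T : Finset (Finset (Fin n)))
    (f : Fin m → Fin n) : Prop where
  inj : ∀ i j, i ≠ j → f i ≠ f j
  out : ∀ i, f i ∉ B
  cut : ∀ i j l, i ≠ j → i ≠ l → j ≠ l → ¬ Cr Q T (f i) (f j) (f l)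
  in1 : ∀ i, ∃ j, j ≠ i ∧ f j ∈ Q (f i)
  in2 : ∀ i, ∃ j, j ≠ i ∧ f j ∉ Q (f i)

/-- the colouring of the vertices by the cuts -/
def cutC (Q : Fin n → Finset (Fin n)) (x y : Fin n) : Prop := y ∈ Q x

/-- the colouring of the indices by the cuts -/
def cutI (Q : Fin n → Finset (Fin n)) (f : Fin m → Fin n) (i j : Fin m) : Prop :=
  cutC Q (f i) (f j)

theorem Good.injective {f : Fin m → Fin n} (hG : Good Q B T f) : Function.Injective f := by
  intro i j hij
  by_contra h
  exact hG.inj i j h hij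

theorem Good.sub {f : Fin m → Fin n} (hG : Good Q B T f) : pull T f ⊆ locT (cutI Q f) := by
  intro e he
  obtain ⟨i, j, l, d1, d2, d3, rfl⟩ := card_eq_three.1 (pull_three f e he)
  have hT := (mem_pull d1 d2 d3).1 he
  rw [mem_locT' d1 d2 d3]
  have key : ∀ i j l : Fin m, i ≠ j → i ≠ l → j ≠ l → ({f i, f j, f l} : Finset (Fin n)) ∈ T →
      cutI Q f i j = cutI Q f i l := by
    intro i j l d1 d2 d3 hT
    have h1 := hG.cut i j l d1 d2 d3
    have h2 := hG.cut i l j d2 d1 d3.symm
    have e : ({f i, f l, f j} : Finset (Fin n)) = {f i, f j, f l} := by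
      rw [pair_comm (f l) (f j)]
    unfold Cr at h1 h2
    rw [e] at h2
    unfold cutI cutC
    apply propext
    tauto
  have e1 : ({f j, f i, f l} : Finset (Fin n)) = {f i, f j, f l} := by
    ext t
    simp only [mem_insert, mem_singleton]
    tauto
  have e2 : ({f l, f i, f j} : Finset (Fin n)) = {f i, f j, f l} := by
    ext t
    simp only [mem_insert, mem_singleton]
    tauto
  exact ⟨key i j l d1 d2 d3 hT, key j i l d1.symm d3 d2 (by rw [e1]; exact hT),
    key l i j d2.symm d3.symm d1 (by rw [e2]; exact hT)⟩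

theorem Good.two {f : Fin m → Fin n} (hG : Good Q B T f) : TwoAt (cutI Q f) := by
  intro u
  obtain ⟨a, ha, ha'⟩ := hG.in1 u
  obtain ⟨b, hb, hb'⟩ := hG.in2 u
  refine ⟨a, b, ha, hb, fun e => hb' ?_⟩
  have : cutI Q f u a := ha'
  rw [e] at this
  exact this

/-- without cyclic triples -/
theorem Good.many (h3 : ∀ e ∈ T, e.card = 3) (hT : TC.Covers T) {f : Fin m → Fin n}
    (hG : Good Q B T f) (hC : ¬ ∃ x y z, Cyc (cutI Q f) univ x y z) : H m ≤ (pull T f).card := by
  have hc := pull_covers h3 hT hG.injective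
  have h1 := (main (pull_three f) hc hG.sub hG.two).1
  rw [h1]
  push Not at hC
  exact acyclic_bound (cov_of (pull_three f) hc hG.sub) m univ (by simp) hC

/-- with a cyclic triple -/
theorem Good.turan (h3 : ∀ e ∈ T, e.card = 3) (hT : TC.Covers T) {f : Fin m → Fin n}
    (hG : Good Q B T f) {x y z : Fin m} (hC : Cyc (cutI Q f) univ x y z) :
    pull T f = TC.turanCovering (sideFn (cutI Q f) x y z) := by
  have hc := pull_covers h3 hT hG.injective
  obtain ⟨h1, h2⟩ := hC.std' (cov_of (pull_three f) hc hG.sub)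
  exact (std_eq (pull_three f) hc hG.sub hG.two (fun i => by
    obtain ⟨a, -, -, -, -, ha, -⟩ := h1 i
    exact ⟨a, ha⟩) h2).1

theorem A_iff {f : Fin m → Fin n} (hf : Function.Injective f) (x y z w : Fin m) :
    A (cutI Q f) x y z w ↔ A (cutC Q) (f x) (f y) (f z) (f w) := by
  unfold A cutI
  rw [hf.ne_iff, hf.ne_iff, hf.ne_iff]

theorem side_iff {f : Fin m → Fin n} (hf : Function.Injective f) (x y z w : Fin m) :
    Side (cutI Q f) x y z w ↔ Side (cutC Q) (f x) (f y) (f z) (f w) := by
  unfold Side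
  rw [hf.eq_iff, A_iff hf]

theorem sideFn_eq {f : Fin m → Fin n} (hf : Function.Injective f) (x y z w : Fin m) :
    sideFn (cutI Q f) x y z w = sideFn (cutC Q) (f x) (f y) (f z) (f w) := by
  unfold sideFn
  simp only [side_iff hf]

/-- extension of a sample with a cyclic triple by three vertices -/
theorem extend {r : ℕ} (h3 : ∀ e ∈ T, e.card = 3) (hT : TC.Covers T) {h : Fin r → Fin n}
    {x y z : Fin r} (hC : Cyc (cutI Q h) univ x y z) {u : Fin 3 → Fin n}
    (hG : Good Q B T (Fin.append h u)) :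
    ({u 0, u 1, u 2} : Finset (Fin n)) ∈ T ↔
      ({u 0, u 1, u 2} : Finset (Fin n)) ∈
        TC.turanCovering (sideFn (cutC Q) (h x) (h y) (h z)) := by
  have hR : ∀ a b : Fin r, R (cutI Q h) univ a b →
      R (cutI Q (Fin.append h u)) univ (Fin.castAdd 3 a) (Fin.castAdd 3 b) := by
    rintro a b ⟨w, -, h1, h2, h4, h5⟩
    refine ⟨Fin.castAdd 3 w, mem_univ _, ?_, ?_, ?_, ?_⟩
    · exact fun e => h1 (Fin.castAdd_injective _ _ e)
    · exact fun e => h2 (Fin.castAdd_injective _ _ e)
    · unfold cutI at h4 ⊢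
      rw [Fin.append_left, Fin.append_left, Fin.append_left]
      exact h4
    · unfold cutI at h5 ⊢
      rw [Fin.append_left, Fin.append_left, Fin.append_left]
      exact h5
  have hC' : Cyc (cutI Q (Fin.append h u)) univ (Fin.castAdd 3 x) (Fin.castAdd 3 y)
      (Fin.castAdd 3 z) := ⟨mem_univ _, mem_univ _, mem_univ _, hR _ _ hC.2.2.2.1,
    hR _ _ hC.2.2.2.2.1, hR _ _ hC.2.2.2.2.2⟩
  have h6 := hG.turan h3 hT hC'
  have inj := hG.injective
  have d : ∀ i j : Fin 3, i ≠ j → Fin.natAdd r i ≠ Fin.natAdd r j := fun i j hij e =>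
    hij (Fin.natAdd_injective _ _ e)
  have d' : ∀ i j : Fin 3, i ≠ j → u i ≠ u j := by
    intro i j hij e
    have := inj.ne (d i j hij)
    rw [Fin.append_right, Fin.append_right] at this
    exact this e
  have h7 := mem_pull (T := T) (f := Fin.append h u) (d 0 1 (by decide)) (d 0 2 (by decide))
    (d 1 2 (by decide))
  rw [Fin.append_right, Fin.append_right, Fin.append_right] at h7
  rw [← h7, h6, TC.mem_cov _ (d 0 1 (by decide)) (d 0 2 (by decide)) (d 1 2 (by decide)),
    TC.mem_cov _ (d' 0 1 (by decide)) (d' 0 2 (by decide)) (d' 1 2 (by decide))]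
  simp only [sideFn_eq inj, Fin.append_left, Fin.append_right]

end Pool.Agent.DL
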