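import Pool.Agent.DL.Rob1

/-! Counting bad samples. -/

set_option autoImplicit false
open Finset
open scoped Classical

namespace Pool.Agent.DL

open Pool.Agent.R810
open Pool.Agent.R810.LJ (ind ind_t ind_f ind_nonneg six_le ord_le_six rot_set)
open Pool.Agent.R810.TC (DI mem_DI DI_card_le sum3' ind_zero)

/-- one index with a prescribed property, the others in a set depending on its value -/
theorem sum_star {V : Type*} [Fintype V] {m : ℕ} (i : Fin m) (P : V → Prop) (Q : V → Finset V) :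
    ∑ f : Fin m → V, ind (P (f i) ∧ ∀ j, j ≠ i → f j ∈ Q (f i)) =
      ∑ x, ind (P x) * ((Q x).card : ℤ) ^ (m - 1) := by
  have h1 := sum_fiberwise_of_maps_to (s := (univ : Finset (Fin m → V)))
    (t := (univ : Finset V)) (g := fun f => f i) (fun x _ => mem_univ _)
    (fun f => ind (P (f i) ∧ ∀ j, j ≠ i → f j ∈ Q (f i)))
  rw [← h1]
  refine sum_congr rfl fun x _ => ?_
  by_cases hP : P x
  · rw [ind_t hP, one_mul]
    have h2 : ∀ f ∈ univ.filter (fun f : Fin m → V => f i = x),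
        ind (P (f i) ∧ ∀ j, j ≠ i → f j ∈ Q (f i)) = ind (∀ j, j ≠ i → f j ∈ Q x) := by
      intro f hf
      have hx := (mem_filter.1 hf).2
      congr 1
      rw [hx]
      exact propext ⟨fun h => h.2, fun h => ⟨hP, h⟩⟩
    rw [sum_congr rfl h2]
    have h3 : ∑ f ∈ univ.filter (fun f : Fin m → V => f i = x), ind (∀ j, j ≠ i → f j ∈ Q x) =
        (((univ.filter (fun f : Fin m → V => f i = x)).filter
          (fun f => ∀ j, j ≠ i → f j ∈ Q x)).card : ℤ) := by
      rw [card_filter]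
      push_cast
      refine sum_congr rfl fun f _ => ?_
      unfold ind
      split_ifs <;> simp_all
    rw [h3]
    have h4 : ((univ.filter (fun f : Fin m → V => f i = x)).filter
          (fun f => ∀ j, j ≠ i → f j ∈ Q x)) =
        Fintype.piFinset fun j : Fin m => if j = i then ({x} : Finset V) else Q x := by
      ext f
      simp only [mem_filter, mem_univ, true_and, Fintype.mem_piFinset]
      constructor
      · rintro ⟨h5, h6⟩ j
        split_ifs with e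
        · rw [e, h5]
          exact mem_singleton_self _
        · exact h6 j e
      · intro h5
        constructor
        · have := h5 i
          rwa [if_pos rfl, mem_singleton] at this
        · intro j hj
          have := h5 j
          rwa [if_neg hj] at this
    rw [h4, Fintype.card_piFinset, ← mul_prod_erase univ _ (mem_univ i), if_pos rfl,
      card_singleton, one_mul]
    have h5 : ∀ j ∈ univ.erase i, (if j = i then ({x} : Finset V) else Q x).card = (Q x).card := by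
      intro j hj
      rw [if_neg (ne_of_mem_erase hj)]
    rw [prod_congr rfl h5, prod_const, card_erase_of_mem (mem_univ i), card_univ, Fintype.card_fin]
    push_cast
    rfl
  · rw [ind_f hP, zero_mul]
    refine sum_eq_zero fun f hf => ?_
    have hx := (mem_filter.1 hf).2
    exact ind_f (fun h => hP (by rw [← hx]; exact h.1))

variable {n m : ℕ} {T : Finset (Finset (Fin n))} {Q : Fin n → Finset (Fin n)}
  {B : Finset (Fin n)}

/-- the indicator of the failures -/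
noncomputable def fail3 (Q : Fin n → Finset (Fin n)) (B : Finset (Fin n))
    (T : Finset (Finset (Fin n))) (x y z : Fin n) : ℤ :=
  ind (x = y) + ind (x ∈ B) + ind (x ∉ B ∧ Cr Q T x y z)

/-- the indicator of the failures -/
noncomputable def fail1 (Q : Fin n → Finset (Fin n)) (B : Finset (Fin n))
    (f : Fin m → Fin n) (i : Fin m) : ℤ :=
  ind (f i ∉ B ∧ ∀ j, j ≠ i → f j ∈ Q (f i)) + ind (f i ∉ B ∧ ∀ j, j ≠ i → f j ∈ (Q (f i))ᶜ)

theorem third (hm : 3 ≤ m) (a b : Fin m) : ∃ d, a ≠ d ∧ b ≠ d := by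
  have hc : ({a, b} : Finset (Fin m)).card < (univ : Finset (Fin m)).card := by
    rw [card_univ, Fintype.card_fin]
    have := card_le_two (a := a) (b := b)
    omega
  obtain ⟨d, -, hd⟩ := exists_mem_notMem_of_card_lt_card hc
  simp only [mem_insert, mem_singleton, not_or] at hd
  exact ⟨d, fun e => hd.1 e.symm, fun e => hd.2 e.symm⟩

theorem bad_le (hm : 3 ≤ m) (f : Fin m → Fin n) : ind (¬ Good Q B T f) ≤
    ∑ t ∈ DI (Fin m), fail3 Q B T (f t.1) (f t.2.1) (f t.2.2) + ∑ i, fail1 Q B f i := by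
  have n3 : ∀ t ∈ DI (Fin m), 0 ≤ fail3 Q B T (f t.1) (f t.2.1) (f t.2.2) := by
    intro t _
    unfold fail3
    have h1 := ind_nonneg (f t.1 = f t.2.1)
    have h2 := ind_nonneg (f t.1 ∈ B)
    have h3 := ind_nonneg (f t.1 ∉ B ∧ Cr Q T (f t.1) (f t.2.1) (f t.2.2))
    linarith
  have n1 : ∀ i ∈ (univ : Finset (Fin m)), 0 ≤ fail1 Q B f i := by
    intro i _
    unfold fail1
    have h1 := ind_nonneg (f i ∉ B ∧ ∀ j, j ≠ i → f j ∈ Q (f i))
    have h2 := ind_nonneg (f i ∉ B ∧ ∀ j, j ≠ i → f j ∈ (Q (f i))ᶜ)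
    linarith
  have s3 := sum_nonneg n3
  have s1 := sum_nonneg n1
  by_cases hz : ∑ t ∈ DI (Fin m), fail3 Q B T (f t.1) (f t.2.1) (f t.2.2) +
      ∑ i, fail1 Q B f i = 0
  · have z3 : ∑ t ∈ DI (Fin m), fail3 Q B T (f t.1) (f t.2.1) (f t.2.2) = 0 := by linarith
    have z1 : ∑ i, fail1 Q B f i = 0 := by linarith
    have y3 := (sum_eq_zero_iff_of_nonneg n3).1 z3
    have y1 := (sum_eq_zero_iff_of_nonneg n1).1 z1
    have w3 : ∀ i j l : Fin m, i ≠ j → i ≠ l → j ≠ l → f i ≠ f j ∧ f i ∉ B ∧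
        ¬ (f i ∉ B ∧ Cr Q T (f i) (f j) (f l)) := by
      intro i j l h1 h2 h3
      have := y3 (i, j, l) (mem_DI.2 ⟨h1, h2, h3⟩)
      unfold fail3 at this
      have a1 := ind_nonneg (f i = f j)
      have a2 := ind_nonneg (f i ∈ B)
      have a3 := ind_nonneg (f i ∉ B ∧ Cr Q T (f i) (f j) (f l))
      simp only at this
      exact ⟨ind_zero (by linarith), ind_zero (by linarith), ind_zero (by linarith)⟩
    have hinj : ∀ i j, i ≠ j → f i ≠ f j := by
      intro i j hij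
      obtain ⟨l, h1, h2⟩ := third hm i j
      exact (w3 i j l hij h1 h2).1
    have hout : ∀ i, f i ∉ B := by
      intro i
      obtain ⟨l, h1, -⟩ := third hm i i
      obtain ⟨k, h2, h3⟩ := third hm i l
      exact (w3 i l k h1 h2 h3).2.1
    have hG : Good Q B T f := by
      refine ⟨hinj, hout, ?_, ?_, ?_⟩
      · intro i j l h1 h2 h3 h4
        exact (w3 i j l h1 h2 h3).2.2 ⟨hout i, h4⟩
      · intro i
        have := y1 i (mem_univ i)
        unfold fail1 at this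
        have a1 := ind_nonneg (f i ∉ B ∧ ∀ j, j ≠ i → f j ∈ Q (f i))
        have a2 := ind_nonneg (f i ∉ B ∧ ∀ j, j ≠ i → f j ∈ (Q (f i))ᶜ)
        have a3 := ind_zero (p := (f i ∉ B ∧ ∀ j, j ≠ i → f j ∈ (Q (f i))ᶜ)) (by linarith)
        by_contra hcon
        push Not at hcon
        exact a3 ⟨hout i, fun j hj => mem_compl.2 (hcon j hj)⟩
      · intro i
        have := y1 i (mem_univ i)
        unfold fail1 at this
        have a1 := ind_nonneg (f i ∉ B ∧ ∀ j, j ≠ i → f j ∈ Q (f i))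
        have a2 := ind_nonneg (f i ∉ B ∧ ∀ j, j ≠ i → f j ∈ (Q (f i))ᶜ)
        have a3 := ind_zero (p := (f i ∉ B ∧ ∀ j, j ≠ i → f j ∈ Q (f i))) (by linarith)
        by_contra hcon
        push Not at hcon
        exact a3 ⟨hout i, hcon⟩
    rw [hz, ind_f (not_not.2 hG)]
  · have h1 : 1 ≤ ∑ t ∈ DI (Fin m), fail3 Q B T (f t.1) (f t.2.1) (f t.2.2) +
        ∑ i, fail1 Q B f i := by
      have : 0 ≤ ∑ t ∈ DI (Fin m), fail3 Q B T (f t.1) (f t.2.1) (f t.2.2) +
        ∑ i, fail1 Q B f i := by linarith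
      omega
    refine le_trans ?_ h1
    unfold ind
    split_ifs <;> norm_num

/-- the number of crossing triples -/
noncomputable def crs (Q : Fin n → Finset (Fin n)) (B : Finset (Fin n))
    (T : Finset (Finset (Fin n))) : ℤ :=
  ∑ x : Fin n, ∑ y : Fin n, ∑ z : Fin n, ind (x ∉ B ∧ Cr Q T x y z)

theorem sum_fail3 : ∑ x : Fin n, ∑ y : Fin n, ∑ z : Fin n, fail3 Q B T x y z =
    (n : ℤ) ^ 2 + (B.card : ℤ) * (n : ℤ) ^ 2 + crs Q B T := by
  unfold fail3 crs
  simp only [sum_add_distrib]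
  congr 1
  congr 1
  · have : ∀ x y : Fin n, ∑ _z : Fin n, ind (x = y) = if x = y then (n : ℤ) else 0 := by
      intro x y
      rw [sum_const, card_univ, Fintype.card_fin, nsmul_eq_mul]
      unfold ind
      split_ifs <;> simp
    rw [sum_congr rfl fun x _ => sum_congr rfl fun y _ => this x y]
    rw [sum_congr rfl fun x _ => by rw [sum_ite_eq univ x, if_pos (mem_univ _)]]
    rw [sum_const, card_univ, Fintype.card_fin, nsmul_eq_mul]
    ring
  · have : ∀ x : Fin n, ∑ _y : Fin n, ∑ _z : Fin n, ind (x ∈ B) =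
        (if x ∈ B then (1 : ℤ) else 0) * (n : ℤ) ^ 2 := by
      intro x
      rw [sum_const, sum_const, card_univ, Fintype.card_fin, nsmul_eq_mul, nsmul_eq_mul]
      unfold ind
      split_ifs <;> ring
    rw [sum_congr rfl fun x _ => this x, ← sum_mul]
    congr 1
    rw [sum_ite_mem, univ_inter, sum_const, nsmul_eq_mul, mul_one]

theorem sum_bad (hm : 3 ≤ m) : ∑ f : Fin m → Fin n, ind (¬ Good Q B T f) ≤
    ((DI (Fin m)).card : ℤ) * ((n : ℤ) ^ (m - 3) *
      ((n : ℤ) ^ 2 + (B.card : ℤ) * (n : ℤ) ^ 2 + crs Q B T)) +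
    (m : ℤ) * (∑ x : Fin n, ind (x ∉ B) * ((Q x).card : ℤ) ^ (m - 1) +
      ∑ x : Fin n, ind (x ∉ B) * (((Q x)ᶜ).card : ℤ) ^ (m - 1)) := by
  have h1 := sum_le_sum fun (f : Fin m → Fin n) (_ : f ∈ univ) =>
    bad_le (Q := Q) (B := B) (T := T) hm f
  refine h1.trans (le_of_eq ?_)
  rw [sum_add_distrib]
  congr 1
  · rw [sum_comm, ← nsmul_eq_mul, ← sum_const]
    refine sum_congr rfl fun t ht => ?_
    obtain ⟨d1, d2, d3⟩ := mem_DI.1 ht
    have := sum3' d1 d2 d3 (fun x y z : Fin n => fail3 Q B T x y z)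
    rw [Fintype.card_fin, Fintype.card_fin, sum_fail3] at this
    exact this
  · rw [sum_comm]
    have h2 : ∀ i ∈ (univ : Finset (Fin m)), ∑ f : Fin m → Fin n, fail1 Q B f i =
        ∑ x : Fin n, ind (x ∉ B) * ((Q x).card : ℤ) ^ (m - 1) +
          ∑ x : Fin n, ind (x ∉ B) * (((Q x)ᶜ).card : ℤ) ^ (m - 1) := by
      intro i _
      unfold fail1
      rw [sum_add_distrib, sum_star i (fun x => x ∉ B) Q, sum_star i (fun x => x ∉ B)
        (fun x => (Q x)ᶜ)]
    rw [sum_congr rfl h2, sum_const, card_univ, Fintype.card_fin, nsmul_eq_mul]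

/-- the bound for the number of bad samples -/
noncomputable def beta (m n : ℕ) (δ ε : ℝ) : ℝ :=
  (m : ℝ) ^ 3 * (1 / n + 2 * ε) + 2 * m * (1 - δ) ^ (m - 1)

theorem bad_real (hm : 3 ≤ m) (hn : 1 ≤ n) {δ ε : ℝ} (hδ1 : δ ≤ 1) (hε : 0 ≤ ε)
    (hB : (B.card : ℝ) ≤ ε * n) (hQ1 : ∀ x, x ∉ B → ((Q x).card : ℝ) ≤ (1 - δ) * n)
    (hQ2 : ∀ x, x ∉ B → (((Q x)ᶜ).card : ℝ) ≤ (1 - δ) * n)
    (hcr : ((crs Q B T : ℤ) : ℝ) ≤ ε * (n : ℝ) ^ 3) :
    ((∑ f : Fin m → Fin n, ind (¬ Good Q B T f) : ℤ) : ℝ) ≤ beta m n δ ε * (n : ℝ) ^ m := by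
  have h1 := sum_bad (n := n) (T := T) (Q := Q) (B := B) hm
  have h2 : ((∑ f : Fin m → Fin n, ind (¬ Good Q B T f) : ℤ) : ℝ) ≤
      ((((DI (Fin m)).card : ℤ) * ((n : ℤ) ^ (m - 3) *
      ((n : ℤ) ^ 2 + (B.card : ℤ) * (n : ℤ) ^ 2 + crs Q B T)) +
    (m : ℤ) * (∑ x : Fin n, ind (x ∉ B) * ((Q x).card : ℤ) ^ (m - 1) +
      ∑ x : Fin n, ind (x ∉ B) * (((Q x)ᶜ).card : ℤ) ^ (m - 1)) : ℤ) : ℝ) := by
    exact_mod_cast h1
  refine h2.trans ?_
  have hn0 : (0 : ℝ) < n := by exact_mod_cast hn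
  have hD : (((DI (Fin m)).card : ℤ) : ℝ) ≤ (m : ℝ) ^ 3 := by
    have := DI_card_le (I := Fin m)
    rw [Fintype.card_fin] at this
    exact_mod_cast this
  have hD0 : (0 : ℝ) ≤ (((DI (Fin m)).card : ℤ) : ℝ) := by positivity
  have key : ∀ P : Fin n → Finset (Fin n), (∀ x, x ∉ B → ((P x).card : ℝ) ≤ (1 - δ) * n) →
      ((∑ x : Fin n, ind (x ∉ B) * ((P x).card : ℤ) ^ (m - 1) : ℤ) : ℝ) ≤
        n * ((1 - δ) * n) ^ (m - 1) := by
    intro P hP
    push_cast
    have h3 : ∀ x ∈ (univ : Finset (Fin n)), ((ind (x ∉ B) : ℤ) : ℝ) * ((P x).card : ℝ) ^ (m - 1) ≤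
        ((1 - δ) * n) ^ (m - 1) := by
      intro x _
      by_cases hx : x ∉ B
      · rw [ind_t hx]
        push_cast
        rw [one_mul]
        exact pow_le_pow_left₀ (Nat.cast_nonneg _) (hP x hx) _
      · rw [ind_f hx]
        push_cast
        rw [zero_mul]
        have : 0 ≤ (1 - δ) * (n : ℝ) := mul_nonneg (by linarith) hn0.le
        positivity
    refine (sum_le_sum h3).trans (le_of_eq ?_)
    rw [sum_const, card_univ, Fintype.card_fin, nsmul_eq_mul]
  have k1 := key Q hQ1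
  have k2 := key (fun x => (Q x)ᶜ) hQ2
  have e0 : ∀ a b c d e : ℤ, ((a * b + c * (d + e) : ℤ) : ℝ) =
      (a : ℝ) * (b : ℝ) + (c : ℝ) * ((d : ℝ) + (e : ℝ)) := by
    intro a b c d e
    push_cast
    ring
  rw [e0]
  have hm0 : (0 : ℝ) ≤ ((m : ℤ) : ℝ) := by positivity
  have t2 := mul_le_mul_of_nonneg_left (add_le_add k1 k2) hm0
  have hpow : (n : ℝ) ^ m = (n : ℝ) ^ (m - 3) * (n : ℝ) ^ 3 := by
    rw [← pow_add]
    congr 1
    omega
  have hpow2 : (n : ℝ) ^ m = n * (n : ℝ) ^ (m - 1) := by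
    rw [← pow_succ']
    congr 1
    omega
  have hin : (((n : ℤ) ^ (m - 3) * ((n : ℤ) ^ 2 + (B.card : ℤ) * (n : ℤ) ^ 2 + crs Q B T) : ℤ) : ℝ)
      ≤ (n : ℝ) ^ m * (1 / n + 2 * ε) := by
    push_cast
    have e1 : (n : ℝ) ^ m * (1 / n + 2 * ε) = (n : ℝ) ^ (m - 3) *
        ((n : ℝ) ^ 2 + 2 * ε * (n : ℝ) ^ 3) := by
      rw [hpow]
      field_simp
    rw [e1]
    refine mul_le_mul_of_nonneg_left ?_ (by positivity)
    have e2 : (B.card : ℝ) * (n : ℝ) ^ 2 ≤ ε * n * (n : ℝ) ^ 2 :=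
      mul_le_mul_of_nonneg_right hB (by positivity)
    nlinarith
  have t1 : (((DI (Fin m)).card : ℤ) : ℝ) * (((n : ℤ) ^ (m - 3) *
      ((n : ℤ) ^ 2 + (B.card : ℤ) * (n : ℤ) ^ 2 + crs Q B T) : ℤ) : ℝ) ≤
      (m : ℝ) ^ 3 * ((n : ℝ) ^ m * (1 / n + 2 * ε)) := by
    have e3 : 0 ≤ (n : ℝ) ^ m * (1 / n + 2 * ε) := by positivity
    exact (mul_le_mul_of_nonneg_left hin hD0).trans (mul_le_mul_of_nonneg_right hD e3)
  refine (add_le_add t1 t2).trans (le_of_eq ?_)
  unfold beta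
  push_cast
  rw [mul_pow, hpow2]
  ring

end Pool.Agent.DL
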