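import Pool.Agent.DL.Rob2

/-! The robust form. -/

set_option autoImplicit false
open Finset
open scoped Classical

namespace Pool.Agent.DL

open Pool.Agent.R810
open Pool.Agent.R810.LJ (ind ind_t ind_f ind_nonneg six_le ord_le_six rot_set)
open Pool.Agent.R810.TC (DI mem_DI DI_card_le sum3' ind_zero sum_triple sum_ind_card)

variable {n m : ℕ} {T : Finset (Finset (Fin n))} {Q : Fin n → Finset (Fin n)}
  {B : Finset (Fin n)}

/-- the sample has a cyclic triple -/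
def Cc (Q : Fin n → Finset (Fin n)) (f : Fin m → Fin n) : Prop :=
  ∃ x y z, Cyc (cutI Q f) univ x y z

theorem six_pull (f : Fin m → Fin n) : 6 * ((pull T f).card : ℤ) ≤
    ∑ t ∈ DI (Fin m), ind (({f t.1, f t.2.1, f t.2.2} : Finset (Fin n)) ∈ T) := by
  refine (six_le (pull_three f)).trans ?_
  rw [sum_triple (fun x y z : Fin m => ind (({x, y, z} : Finset (Fin m)) ∈ pull T f))]
  unfold DI
  rw [sum_filter]
  refine sum_le_sum fun t _ => ?_
  by_cases h : t.1 ≠ t.2.1 ∧ t.1 ≠ t.2.2 ∧ t.2.1 ≠ t.2.2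
  · rw [if_pos h]
    by_cases h5 : ({t.1, t.2.1, t.2.2} : Finset (Fin m)) ∈ pull T f
    · rw [ind_t h5, ind_t ((mem_pull h.1 h.2.1 h.2.2).1 h5)]
    · rw [ind_f h5]
      exact ind_nonneg _
  · rw [if_neg h]
    have h5 : ({t.1, t.2.1, t.2.2} : Finset (Fin m)) ∉ pull T f := fun h6 =>
      h (LJ.dist_of (pull_three f) h6)
    rw [ind_f h5]

theorem many_sum (h3 : ∀ e ∈ T, e.card = 3) (hT : TC.Covers T) :
    (∑ f : Fin m → Fin n, ind (Good Q B T f ∧ ¬ Cc Q f)) * (6 * (H m : ℤ)) ≤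
      ((DI (Fin m)).card : ℤ) * ((n : ℤ) ^ (m - 3) * (6 * (T.card : ℤ))) := by
  have h1 : ∀ f : Fin m → Fin n, ind (Good Q B T f ∧ ¬ Cc Q f) * (6 * (H m : ℤ)) ≤
      ∑ t ∈ DI (Fin m), ind (({f t.1, f t.2.1, f t.2.2} : Finset (Fin n)) ∈ T) := by
    intro f
    by_cases h : Good Q B T f ∧ ¬ Cc Q f
    · rw [ind_t h, one_mul]
      have h5 : (H m : ℤ) ≤ ((pull T f).card : ℤ) := by exact_mod_cast h.1.many h3 hT h.2
      have := six_pull (T := T) f
      linarith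
    · rw [ind_f h, zero_mul]
      exact sum_nonneg fun t _ => ind_nonneg _
  rw [sum_mul]
  refine (sum_le_sum fun f _ => h1 f).trans ?_
  rw [sum_comm]
  have h2 : ∀ t ∈ DI (Fin m), ∑ f : Fin m → Fin n,
      ind (({f t.1, f t.2.1, f t.2.2} : Finset (Fin n)) ∈ T) ≤
        (n : ℤ) ^ (m - 3) * (6 * (T.card : ℤ)) := by
    intro t ht
    obtain ⟨d1, d2, d3⟩ := mem_DI.1 ht
    have := sum3' d1 d2 d3 (fun x y z : Fin n => ind (({x, y, z} : Finset (Fin n)) ∈ T))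
    rw [Fintype.card_fin, Fintype.card_fin] at this
    rw [this]
    exact mul_le_mul_of_nonneg_left (ord_le_six h3) (by positivity)
  refine (sum_le_sum h2).trans (le_of_eq ?_)
  rw [sum_const, nsmul_eq_mul]

theorem split_sum {r : ℕ} (F : (Fin (r + 3) → Fin n) → ℤ) :
    ∑ f, F f = ∑ h : Fin r → Fin n, ∑ u : Fin 3 → Fin n, F (Fin.append h u) := by
  rw [← Fintype.sum_prod_type']
  refine (Fintype.sum_equiv (Fin.appendEquiv r 3) _ _ fun p => ?_).symm
  rfl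

theorem close_sum {r : ℕ} (h3 : ∀ e ∈ T, e.card = 3) (hT : TC.Covers T) {h : Fin r → Fin n}
    (hC : Cc Q h) : ∃ g : Fin n → Fin 3, 6 * ((symmDiff T (TC.turanCovering g)).card : ℤ) ≤
      ∑ u : Fin 3 → Fin n, ind (¬ Good Q B T (Fin.append h u)) := by
  obtain ⟨x, y, z, hC⟩ := hC
  refine ⟨sideFn (cutC Q) (h x) (h y) (h z), ?_⟩
  set g := sideFn (cutC Q) (h x) (h y) (h z) with hg
  have hD3 : ∀ e ∈ symmDiff T (TC.turanCovering g), e.card = 3 := by
    intro e he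
    rcases mem_symmDiff.1 he with h5 | h5
    · exact h3 e h5.1
    · exact TC.cov_three h5.1
  refine (six_le hD3).trans ?_
  have h4 := sum3' (I := Fin 3) (i := 0) (j := 1) (l := 2) (by decide) (by decide) (by decide)
    (fun x y z : Fin n => ind (({x, y, z} : Finset (Fin n)) ∈ symmDiff T (TC.turanCovering g)))
  rw [Fintype.card_fin, Fintype.card_fin, Nat.sub_self, pow_zero, one_mul] at h4
  rw [← h4]
  refine sum_le_sum fun u _ => ?_
  by_cases h5 : Good Q B T (Fin.append h u)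
  · rw [ind_f (not_not.2 h5)]
    have h6 := extend h3 hT hC h5
    rw [← hg] at h6
    rw [ind_f]
    intro h7
    rcases mem_symmDiff.1 h7 with h8 | h8
    · exact h8.2 (h6.1 h8.1)
    · exact h8.2 (h6.2 h8.1)
  · rw [ind_t h5]
    unfold ind
    split_ifs <;> norm_num

theorem choose_big {q c : ℝ} (hq0 : 0 < q) (hq : q < 1) (hc : 0 < c) (M : ℕ) :
    ∃ r : ℕ, M ≤ r ∧ 2 * (r : ℝ) * q ^ (r - 1) < c ∧
      2 * ((r + 3 : ℕ) : ℝ) * q ^ (r + 3 - 1) < c := by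
  have h1 := tendsto_self_mul_const_pow_of_lt_one hq0.le hq
  have h2 : ∀ᶠ k : ℕ in Filter.atTop, (k : ℝ) * q ^ k < c * q / 2 :=
    (tendsto_order.1 h1).2 _ (by positivity)
  obtain ⟨K, hK⟩ := Filter.eventually_atTop.1 h2
  have key : ∀ k : ℕ, K ≤ k → 1 ≤ k → 2 * (k : ℝ) * q ^ (k - 1) < c := by
    intro k hk hk1
    have h3 := hK k hk
    have h4 : q ^ k = q * q ^ (k - 1) := by
      rw [← pow_succ']
      congr 1
      omega
    rw [h4] at h3
    have h5 : q * (2 * (k : ℝ) * q ^ (k - 1)) < q * c := by nlinarith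
    exact lt_of_mul_lt_mul_left h5 hq0.le
  refine ⟨max (max K M) 1, (le_max_right _ _).trans (le_max_left _ _), ?_, ?_⟩
  · exact key _ ((le_max_left _ _).trans (le_max_left _ _)) (le_max_right _ _)
  · exact key _ (((le_max_left _ _).trans (le_max_left _ _)).trans (Nat.le_add_right _ _))
      (by omega)

theorem H_real {r : ℕ} (hr : 1 ≤ r) : (r : ℝ) ^ 3 / 12 - 3 / 8 * (r : ℝ) ^ 2 ≤ (H r : ℝ) := by
  have h1 := H_ge r
  have h2 : ((r : ℝ)) * (r - 2) * (2 * r - 5) - 3 ≤ 24 * (H r : ℝ) := by exact_mod_cast h1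
  have h3 : (1 : ℝ) ≤ r := by exact_mod_cast hr
  nlinarith

theorem choose_three_le (n : ℕ) : 6 * ((n.choose 3 : ℕ) : ℝ) ≤ (n : ℝ) ^ 3 := by
  have h6 := TC.c3 n
  have h7 : 6 * ((n.choose 3 : ℕ) : ℝ) = (n : ℝ) * ((n : ℝ) - 1) * ((n : ℝ) - 2) := by
    exact_mod_cast h6
  rw [h7]
  rcases Nat.eq_zero_or_pos n with h8 | h8
  · subst h8
    norm_num
  · have h9 : (1 : ℝ) ≤ n := by exact_mod_cast h8
    nlinarith

theorem num_aux {η : ℝ} (h : 0 ≤ η) :
    (1 / 2 - η) / 6 ≤ (1 - 2 * (η / 4)) * (1 / 12 - η / 24) := by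
  nlinarith [mul_nonneg h h]

/-- **The robust form.** -/
theorem robust {δ η : ℝ} (hδ : 0 < δ) (hδ1 : δ < 1) (hη : 0 < η) (hη1 : η ≤ 1 / 6) :
    ∃ ε : ℝ, 0 < ε ∧ ∃ n0 : ℕ, ∀ n, n0 ≤ n → ∀ T : Finset (Finset (Fin n)),
      (∀ e ∈ T, e.card = 3) → TC.Covers T → ∀ (Q : Fin n → Finset (Fin n)) (B : Finset (Fin n)),
      (B.card : ℝ) ≤ ε * n → (∀ x, x ∉ B → ((Q x).card : ℝ) ≤ (1 - δ) * n) →
      (∀ x, x ∉ B → (((Q x)ᶜ).card : ℝ) ≤ (1 - δ) * n) →
      ((crs Q B T : ℤ) : ℝ) ≤ ε * (n : ℝ) ^ 3 →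
      (1 / 2 - η) * (n.choose 3 : ℝ) ≤ (T.card : ℝ) ∨
        ∃ g : Fin n → Fin 3, ((symmDiff T (TC.turanCovering g)).card : ℝ) ≤ η * (n : ℝ) ^ 3 := by
  set θ : ℝ := η / 4 with hθ
  have hθ0 : 0 < θ := by positivity
  -- the size of the samples
  obtain ⟨r, hrM, hr1, hr2⟩ := choose_big (q := 1 - δ) (c := θ * (6 * η) / 2) (by linarith)
    (by linarith) (by positivity) (max 3 (⌈9 / η⌉₊))
  have hr3 : 3 ≤ r := (le_max_left _ _).trans hrM
  have hr9 : 9 / η ≤ (r : ℝ) := by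
    have h1 : ⌈9 / η⌉₊ ≤ r := (le_max_right _ _).trans hrM
    exact (Nat.le_ceil _).trans (by exact_mod_cast h1)
  have hr0 : (0 : ℝ) < r := by
    have : 0 < r := by omega
    exact_mod_cast this
  set R3 : ℝ := ((r + 3 : ℕ) : ℝ) ^ 3 with hR3
  have hR0 : 0 < R3 := by
    rw [hR3]
    positivity
  set ε : ℝ := θ * (6 * η) / (8 * R3) with hε
  have hε0 : 0 < ε := by positivity
  refine ⟨ε, hε0, max 1 (⌈8 * R3 / (θ * (6 * η))⌉₊), ?_⟩
  intro n hn T h3 hT Q B hB hQ1 hQ2 hcr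
  have hn1 : 1 ≤ n := (le_max_left _ _).trans hn
  have hn0 : (0 : ℝ) < n := by exact_mod_cast hn1
  have hnR : 8 * R3 / (θ * (6 * η)) ≤ n := by
    have h1 : ⌈8 * R3 / (θ * (6 * η))⌉₊ ≤ n := (le_max_right _ _).trans hn
    exact (Nat.le_ceil _).trans (by exact_mod_cast h1)
  have hinv : 1 / (n : ℝ) ≤ θ * (6 * η) / (8 * R3) := by
    rw [div_le_iff₀ (by positivity)] at hnR
    rw [div_le_div_iff₀ hn0 (by positivity)]
    linarith
  -- the bound for beta
  have hbeta : ∀ k : ℕ, ((k : ℝ)) ^ 3 ≤ R3 → 2 * (k : ℝ) * (1 - δ) ^ (k - 1) < θ * (6 * η) / 2 →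
      beta k n δ ε < θ * (6 * η) := by
    intro k hk1 hk2
    unfold beta
    have h1 : (k : ℝ) ^ 3 * (1 / n + 2 * ε) ≤ R3 * (3 * (θ * (6 * η) / (8 * R3))) := by
      have h2 : 1 / (n : ℝ) + 2 * ε ≤ 3 * (θ * (6 * η) / (8 * R3)) := by
        rw [hε]
        linarith
      have h4 : (0 : ℝ) ≤ 1 / (n : ℝ) + 2 * ε := by positivity
      exact mul_le_mul hk1 h2 h4 hR0.le
    have h5 : R3 * (3 * (θ * (6 * η) / (8 * R3))) = 3 / 8 * (θ * (6 * η)) := by
      field_simp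
    have h6 : 0 < θ * (6 * η) := by positivity
    linarith
  have hb1 : beta r n δ ε < θ * (6 * η) := hbeta r (by
    rw [hR3]
    gcongr
    exact Nat.le_add_right _ _) hr1
  have hb2 : beta (r + 3) n δ ε < θ * (6 * η) := hbeta (r + 3) le_rfl hr2
  have bad1 := bad_real (m := r) (n := n) (T := T) (Q := Q) (B := B) hr3 hn1 hδ1.le hε0.le hB hQ1
    hQ2 hcr
  have bad2 := bad_real (m := r + 3) (n := n) (T := T) (Q := Q) (B := B) (by omega) hn1 hδ1.le
    hε0.le hB hQ1 hQ2 hcr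
  have hnr : (0 : ℝ) < (n : ℝ) ^ r := by positivity
  by_cases hcase : ((∑ h : Fin r → Fin n, ind (Cc Q h) : ℤ) : ℝ) < θ * (n : ℝ) ^ r
  · left
    have h1 := many_sum (m := r) (Q := Q) (B := B) h3 hT
    -- the number of good samples without cyclic triples
    have h2 : ((n : ℤ) ^ r) - ∑ f : Fin r → Fin n, ind (¬ Good Q B T f) -
        ∑ f : Fin r → Fin n, ind (Cc Q f) ≤
          ∑ f : Fin r → Fin n, ind (Good Q B T f ∧ ¬ Cc Q f) := by
      have h4 : ((n : ℤ) ^ r) = ∑ _f : Fin r → Fin n, (1 : ℤ) := by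
        rw [sum_const, card_univ, Fintype.card_fun, Fintype.card_fin, Fintype.card_fin,
          nsmul_eq_mul, mul_one]
        push_cast
        rfl
      rw [h4, ← sum_sub_distrib, ← sum_sub_distrib]
      refine sum_le_sum fun f _ => ?_
      by_cases a1 : Good Q B T f
      · by_cases a2 : Cc Q f
        · rw [ind_f (not_not.2 a1), ind_t a2,
            ind_f (show ¬ (Good Q B T f ∧ ¬ Cc Q f) from fun h => h.2 a2)]
          norm_num
        · rw [ind_f (not_not.2 a1), ind_f a2,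
            ind_t (show Good Q B T f ∧ ¬ Cc Q f from ⟨a1, a2⟩)]
          norm_num
      · rw [ind_t a1, ind_f (show ¬ (Good Q B T f ∧ ¬ Cc Q f) from fun h => a1 h.1)]
        have := ind_nonneg (Cc Q f)
        linarith
    have h2' : ((n : ℝ) ^ r) - ((∑ f : Fin r → Fin n, ind (¬ Good Q B T f) : ℤ) : ℝ) -
        ((∑ f : Fin r → Fin n, ind (Cc Q f) : ℤ) : ℝ) ≤
          ((∑ f : Fin r → Fin n, ind (Good Q B T f ∧ ¬ Cc Q f) : ℤ) : ℝ) := by
      exact_mod_cast h2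
    have h1' : ((∑ f : Fin r → Fin n, ind (Good Q B T f ∧ ¬ Cc Q f) : ℤ) : ℝ) * (6 * (H r : ℝ)) ≤
        ((DI (Fin r)).card : ℝ) * ((n : ℝ) ^ (r - 3) * (6 * (T.card : ℝ))) := by
      exact_mod_cast h1
    have hD : ((DI (Fin r)).card : ℝ) ≤ (r : ℝ) ^ 3 := by
      have := DI_card_le (I := Fin r)
      rw [Fintype.card_fin] at this
      exact_mod_cast this
    have h5 : (1 - 2 * θ) * (n : ℝ) ^ r ≤
        ((∑ f : Fin r → Fin n, ind (Good Q B T f ∧ ¬ Cc Q f) : ℤ) : ℝ) := by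
      have h6 : beta r n δ ε * (n : ℝ) ^ r ≤ θ * (n : ℝ) ^ r := by
        refine mul_le_mul_of_nonneg_right ?_ hnr.le
        have h7 : θ * (6 * η) ≤ θ * 1 := mul_le_mul_of_nonneg_left (by linarith) hθ0.le
        linarith
      linarith
    set X : ℝ := (n : ℝ) ^ (r - 3) with hX
    have hX0 : 0 < X := by positivity
    have hXr : (n : ℝ) ^ r = X * (n : ℝ) ^ 3 := by
      rw [hX, ← pow_add]
      congr 1
      omega
    have hH : (r : ℝ) ^ 3 * (1 / 12 - η / 24) ≤ (H r : ℝ) := by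
      have h7 := H_real (r := r) (by omega)
      rw [div_le_iff₀ hη] at hr9
      have h8 : 0 ≤ (r : ℝ) ^ 2 * ((r : ℝ) * η - 9) := mul_nonneg (by positivity) (by linarith)
      nlinarith
    have hθ2 : 0 ≤ 1 - 2 * θ := by
      rw [hθ]
      linarith
    have h7 : ((1 - 2 * θ) * (X * (n : ℝ) ^ 3)) * (6 * ((r : ℝ) ^ 3 * (1 / 12 - η / 24))) ≤
        (r : ℝ) ^ 3 * (X * (6 * (T.card : ℝ))) := by
      rw [hXr] at h5
      have a1 : 0 ≤ (r : ℝ) ^ 3 * (1 / 12 - η / 24) :=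
        mul_nonneg (by positivity) (by linarith)
      have a2 : 0 ≤ (1 - 2 * θ) * (X * (n : ℝ) ^ 3) := mul_nonneg hθ2 (by positivity)
      calc ((1 - 2 * θ) * (X * (n : ℝ) ^ 3)) * (6 * ((r : ℝ) ^ 3 * (1 / 12 - η / 24)))
          ≤ ((∑ f : Fin r → Fin n, ind (Good Q B T f ∧ ¬ Cc Q f) : ℤ) : ℝ) * (6 * (H r : ℝ)) :=
            mul_le_mul h5 (by linarith) (by linarith) (a2.trans h5)
        _ ≤ ((DI (Fin r)).card : ℝ) * (X * (6 * (T.card : ℝ))) := h1'
        _ ≤ (r : ℝ) ^ 3 * (X * (6 * (T.card : ℝ))) :=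
            mul_le_mul_of_nonneg_right hD (by positivity)
    have h8 : (1 - 2 * θ) * (1 / 12 - η / 24) * (n : ℝ) ^ 3 ≤ (T.card : ℝ) := by
      have h9 : (6 * (r : ℝ) ^ 3 * X) * ((1 - 2 * θ) * (1 / 12 - η / 24) * (n : ℝ) ^ 3) ≤
          (6 * (r : ℝ) ^ 3 * X) * (T.card : ℝ) := by linarith
      exact le_of_mul_le_mul_left h9 (by positivity)
    have h10 := choose_three_le n
    have h11 : (1 / 2 - η) * (n.choose 3 : ℝ) ≤ (1 / 2 - η) * ((n : ℝ) ^ 3 / 6) :=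
      mul_le_mul_of_nonneg_left (by linarith) (by linarith)
    have h12 : (1 / 2 - η) * ((n : ℝ) ^ 3 / 6) ≤
        (1 - 2 * θ) * (1 / 12 - η / 24) * (n : ℝ) ^ 3 := by
      have h13 : (1 / 2 - η) / 6 ≤ (1 - 2 * θ) * (1 / 12 - η / 24) := by
        rw [hθ]
        exact num_aux hη.le
      have h14 : (0 : ℝ) ≤ (n : ℝ) ^ 3 := by positivity
      have h15 := mul_le_mul_of_nonneg_right h13 h14
      linarith
    exact (h11.trans h12).trans h8
  · right
    push Not at hcase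
    have hex : ∃ h : Fin r → Fin n, Cc Q h ∧
        ((∑ u : Fin 3 → Fin n, ind (¬ Good Q B T (Fin.append h u)) : ℤ) : ℝ) ≤
          6 * η * (n : ℝ) ^ 3 := by
      by_contra hcon
      push Not at hcon
      have h1 : ∀ h : Fin r → Fin n, ((ind (Cc Q h) : ℤ) : ℝ) * (6 * η * (n : ℝ) ^ 3) ≤
          ((∑ u : Fin 3 → Fin n, ind (¬ Good Q B T (Fin.append h u)) : ℤ) : ℝ) := by
        intro h
        by_cases h5 : Cc Q h
        · rw [ind_t h5]
          push_cast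
          have := (hcon h h5).le
          push_cast at this
          linarith
        · rw [ind_f h5]
          have : (0 : ℤ) ≤ ∑ u : Fin 3 → Fin n, ind (¬ Good Q B T (Fin.append h u)) :=
            sum_nonneg fun u _ => ind_nonneg _
          have h6 : (0 : ℝ) ≤
              ((∑ u : Fin 3 → Fin n, ind (¬ Good Q B T (Fin.append h u)) : ℤ) : ℝ) := by
            exact_mod_cast this
          push_cast at h6 ⊢
          linarith
      have h2 := sum_le_sum fun (h : Fin r → Fin n) (_ : h ∈ univ) => h1 h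
      rw [← sum_mul] at h2
      have h4 : ∑ h : Fin r → Fin n,
          ((∑ u : Fin 3 → Fin n, ind (¬ Good Q B T (Fin.append h u)) : ℤ) : ℝ) =
          ((∑ f : Fin (r + 3) → Fin n, ind (¬ Good Q B T f) : ℤ) : ℝ) := by
        rw [split_sum (fun f : Fin (r + 3) → Fin n => ind (¬ Good Q B T f))]
        push_cast
        rfl
      rw [h4] at h2
      have h5 : ∑ h : Fin r → Fin n, ((ind (Cc Q h) : ℤ) : ℝ) =
          ((∑ h : Fin r → Fin n, ind (Cc Q h) : ℤ) : ℝ) := by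
        push_cast
        rfl
      rw [h5] at h2
      have h6 : θ * (n : ℝ) ^ r * (6 * η * (n : ℝ) ^ 3) ≤
          ((∑ h : Fin r → Fin n, ind (Cc Q h) : ℤ) : ℝ) * (6 * η * (n : ℝ) ^ 3) :=
        mul_le_mul_of_nonneg_right hcase (by positivity)
      have h7 : beta (r + 3) n δ ε * (n : ℝ) ^ (r + 3) < θ * (6 * η) * (n : ℝ) ^ (r + 3) :=
        mul_lt_mul_of_pos_right hb2 (by positivity)
      have h8 : θ * (n : ℝ) ^ r * (6 * η * (n : ℝ) ^ 3) = θ * (6 * η) * (n : ℝ) ^ (r + 3) := by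
        rw [pow_add]
        ring
      linarith
    obtain ⟨h, hC, hu⟩ := hex
    obtain ⟨g, hg⟩ := close_sum (B := B) h3 hT hC
    refine ⟨g, ?_⟩
    have hg' : 6 * ((symmDiff T (TC.turanCovering g)).card : ℝ) ≤
        ((∑ u : Fin 3 → Fin n, ind (¬ Good Q B T (Fin.append h u)) : ℤ) : ℝ) := by
      exact_mod_cast hg
    linarith

end Pool.Agent.DL
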