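import Pool.Agent.DL.Core

/-! A cyclic triple: the colouring is Turán's. -/

set_option autoImplicit false
open Finset

namespace Pool.Agent.DL

variable {V κ : Type*} {c : V → V → κ} {S : Finset V}

theorem Cyc.two (h : Cov c) {x y z w : V} (hC : Cyc c S x y z) (hw : w ≠ x) :
    c x w = c x y ∨ c x w = c x z := by
  by_contra hcon
  push Not at hcon
  obtain ⟨e1, e2, e3⟩ := hC.sep h
  obtain ⟨-, -, -, h1, h2, h3⟩ := hC
  obtain ⟨w', hw', h4, h5, h6, h7⟩ := id h3
  have := three h (v := x) (p := y) (q := z) (r := w) h1.ne.symm h3.ne hw e1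
    (fun e => hcon.1 e.symm) (fun e => hcon.2 e.symm) (u := z) (a := w') (b := y) h3.ne h5
    h1.ne.symm h7 e1
  exact e3 (h6.symm.trans this)

/-- `w` is on the side of `x` -/
def A (c : V → V → κ) (x y z w : V) : Prop :=
  w ≠ x ∧ w ≠ y ∧ w ≠ z ∧ c x w = c x y ∧ c y w = c y x ∧ c z w = c z x ∧ c w x = c w y

theorem Cyc.typ (h : Cov c) {x y z w : V} (hC : Cyc c S x y z) (hx : w ≠ x) (hy : w ≠ y)
    (hz : w ≠ z) (hL : LM c x y w) : A c x y z w := by
  obtain ⟨e1, e2, e3⟩ := hC.sep h
  have h3 : c z w ≠ c z y := hC.2.2.2.2.1.nest h hy hz (by rw [← hL.2.1]; exact e2)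
  have h4 := (hC.rot.rot.two h hz).resolve_right h3
  exact ⟨hx, hy, hz, hL.1.symm, hL.2.1.symm, h4, hL.2.2⟩

theorem Cyc.types (h : Cov c) {x y z w : V} (hC : Cyc c S x y z) (hx : w ≠ x) (hy : w ≠ y)
    (hz : w ≠ z) : A c x y z w ∨ A c y z x w ∨ A c z x y w := by
  obtain ⟨e1, e2, e3⟩ := hC.sep h
  have d1 := hC.2.2.2.1.ne
  have d2 := hC.2.2.2.2.1.ne
  have d3 := hC.2.2.2.2.2.ne
  rcases h x y z w d1 d3.symm hx.symm d2 hy.symm hz.symm with e | e | e | e
  · exact absurd e.1 e1
  · exact Or.inl (hC.typ h hx hy hz e)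
  · exact Or.inr (Or.inr (hC.rot.rot.typ h hz hx hy e.rot.swap))
  · exact Or.inr (Or.inl (hC.rot.typ h hy hz hx e))

theorem Cyc.wit (h : Cov c) {x y z : V} (hC : Cyc c S x y z) : ∃ w ∈ S, A c y z x w := by
  obtain ⟨e1, e2, e3⟩ := hC.sep h
  obtain ⟨w, hw, h1, h2, h3, h4⟩ := id hC.2.2.2.1
  have hwz : w ≠ z := by
    rintro rfl
    exact e1 h3.symm
  rcases hC.types h h1 h2 hwz with e | e | e
  · exact absurd e.2.2.2.2.1 h4
  · exact ⟨w, hw, e⟩
  · exact absurd (h3.symm.trans e.2.2.2.2.1) e1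

/-- vertices on the same side -/
theorem Cyc.same (h : Cov c) {x y z w w' : V} (hC : Cyc c S x y z) (hw : A c x y z w)
    (hw' : A c x y z w') (hne : w' ≠ w) : c w w' = c w x := by
  by_contra h0
  obtain ⟨e1, e2, e3⟩ := hC.sep h
  obtain ⟨wx, wy, wz, a1, a2, a3, a4⟩ := hw
  obtain ⟨wx', wy', wz', a1', a2', a3', a4'⟩ := hw'
  obtain ⟨p, hp, py, pz, px, b1, b2, b3, b4⟩ := hC.wit h
  have pw : p ≠ w := by
    rintro rfl
    exact e2 (a2.symm.trans b1)
  have zx : z ≠ x := hC.2.2.2.2.2.ne
  have n1 : c w z ≠ c w x := nest' h wx.symm wx' hne (a1'.trans a1.symm) h0 zx wz.symm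
    (by rw [a1]; exact fun e => e1 e.symm)
  have n2 : c w p ≠ c w y := nest' h wy.symm wy' hne (a2'.trans a2.symm)
    (by rw [← a4]; exact h0) py pw (by rw [b1, a2]; exact fun e => e2 e.symm)
  have n3 : c w p ≠ c w z := nest' h wz.symm zx.symm wx.symm a3.symm (fun e => n1 e.symm) pz pw
    (by rw [b2, a3]; exact fun e => e3 e.symm)
  have := three h (v := w) (p := x) (q := z) (r := p) wx.symm wz.symm pw (fun e => n1 e.symm)
    (fun e => n2 (by rw [← a4, e])) (fun e => n3 e.symm) (u := z) (a := x) (b := y) wz.symm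
    wx.symm wy.symm (fun e => n1 e.symm) (by rw [← a4]; exact fun e => n1 e.symm)
  exact e3 this

/-- `w` on the side of `x`, `w'` on the side of `z` -/
theorem Cyc.cross (h : Cov c) {x y z w w' : V} (hC : Cyc c S x y z) (hw : A c x y z w)
    (hw' : A c z x y w') : LM c z w w' := by
  obtain ⟨e1, e2, e3⟩ := hC.sep h
  obtain ⟨wx, wy, wz, a1, a2, a3, a4⟩ := hw
  obtain ⟨wz', wx', wy', b1, b2, b3, b4⟩ := hw'
  have hne : w ≠ w' := by
    rintro rfl
    exact e1 (a1.symm.trans b2)
  have d2 := hC.2.2.2.2.1.ne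
  rcases h z y w w' d2.symm wz.symm wz'.symm wy.symm wy'.symm hne with e | e | e | e
  · exact absurd (a2.symm.trans e.2.1.symm) e2
  · exact absurd (e.1.trans b1).symm e3
  · exact e
  · exact absurd ((a2.symm.trans e.1).trans b3) e2

/-- the class of `x` -/
def Side (c : V → V → κ) (x y z u : V) : Prop := u = x ∨ A c x y z u

theorem Cyc.side (h : Cov c) {x y z : V} (hC : Cyc c S x y z) (u : V) :
    Side c x y z u ∨ Side c y z x u ∨ Side c z x y u := by
  by_cases hx : u = x
  · exact Or.inl (Or.inl hx)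
  by_cases hy : u = y
  · exact Or.inr (Or.inl (Or.inl hy))
  by_cases hz : u = z
  · exact Or.inr (Or.inr (Or.inl hz))
  rcases hC.types h hx hy hz with e | e | e
  · exact Or.inl (Or.inr e)
  · exact Or.inr (Or.inl (Or.inr e))
  · exact Or.inr (Or.inr (Or.inr e))

theorem Cyc.view (h : Cov c) {x y z u v : V} (hC : Cyc c S x y z) (hu : Side c x y z u)
    (huv : v ≠ u) : (Side c x y z v → c u v = c u y) ∧ (Side c y z x v → c u v = c u y) ∧
      (Side c z x y v → c u v = c u z) := by
  rcases hu with rfl | hu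
  · refine ⟨?_, ?_, ?_⟩
    · rintro (e | e)
      · exact absurd e huv
      · exact e.2.2.2.1
    · rintro (e | e)
      · rw [e]
      · exact e.2.2.2.2.2.1
    · rintro (e | e)
      · rw [e]
      · exact e.2.2.2.2.1
  · refine ⟨?_, ?_, ?_⟩
    · rintro (e | e)
      · rw [e]
        exact hu.2.2.2.2.2.2
      · rw [hC.same h hu e huv]
        exact hu.2.2.2.2.2.2
    · rintro (e | e)
      · rw [e]
      · have := hC.rot.cross h e hu
        rw [← hu.2.2.2.2.2.2, ← this.2.2]
    · rintro (e | e)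
      · rw [e]
      · have := hC.cross h hu e
        rw [← this.2.1]

/-- the colouring at `u` only depends on the class, and only distinguishes the preceding class -/
def Std (c : V → V → κ) (g : V → Fin 3) : Prop :=
  ∀ u v w, v ≠ u → w ≠ u → (g v + 1 = g u ↔ g w + 1 = g u) → c u v = c u w

open Classical in
/-- the classes given by a cyclic triple -/
noncomputable def sideFn (c : V → V → κ) (x y z u : V) : Fin 3 :=
  if Side c x y z u then 0 else if Side c y z x u then 1 else 2

theorem Cyc.std' (h : Cov c) {x y z : V} (hC : Cyc c S x y z) :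
    (∀ i, ∃ a ∈ S, ∃ b ∈ S, a ≠ b ∧ sideFn c x y z a = i ∧ sideFn c x y z b = i) ∧
      Std c (sideFn c x y z) := by
  classical
  obtain ⟨e1, e2, e3⟩ := hC.sep h
  set g : V → Fin 3 := sideFn c x y z with hg0
  have hg : g = fun u => if Side c x y z u then 0 else if Side c y z x u then 1 else 2 := by
    funext u
    rw [hg0]
    unfold sideFn
    congr!
  have g0 : ∀ u, g u = 0 → Side c x y z u := by
    intro u hu
    by_contra h1
    simp only [hg, h1, if_false] at hu
    split_ifs at hu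
    · exact absurd hu (by decide)
    · exact absurd hu (by decide)
  have g1 : ∀ u, g u = 1 → Side c y z x u := by
    intro u hu
    by_contra h1
    simp only [hg, h1, if_false] at hu
    split_ifs at hu
    · exact absurd hu (by decide)
    · exact absurd hu (by decide)
  have g2 : ∀ u, g u = 2 → Side c z x y u := by
    intro u hu
    by_contra h1
    rcases hC.side h u with e | e | e
    · simp only [hg, e, if_true] at hu
      exact absurd hu (by decide)
    · simp only [hg, e, if_true] at hu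
      split_ifs at hu
      · exact absurd hu (by decide)
      · exact absurd hu (by decide)
    · exact h1 e
  have dx : y ≠ x := hC.2.2.2.1.ne.symm
  have dy : z ≠ y := hC.2.2.2.2.1.ne.symm
  have dz : x ≠ z := hC.2.2.2.2.2.ne.symm
  -- exclusive
  have x01 : ∀ u, Side c y z x u → ¬ Side c x y z u := by
    rintro u (rfl | hu) (hu' | hu')
    · exact dx hu'
    · exact hu'.2.1 rfl
    · exact hu.2.2.1 hu'
    · exact e2 (hu'.2.2.2.2.1.symm.trans hu.2.2.2.1)
  have x02 : ∀ u, Side c z x y u → ¬ Side c x y z u := by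
    rintro u (rfl | hu) (hu' | hu')
    · exact dz hu'.symm
    · exact hu'.2.2.1 rfl
    · exact hu.2.1 hu'
    · exact e1 (hu'.2.2.2.1.symm.trans hu.2.2.2.2.1)
  have x12 : ∀ u, Side c z x y u → ¬ Side c y z x u := by
    rintro u (rfl | hu) (hu' | hu')
    · exact dy hu'
    · exact hu'.2.1 rfl
    · exact hu.2.2.1 hu'
    · exact e3 (hu.2.2.2.1.symm.trans hu'.2.2.2.2.1)
  have k0 : ∀ u, Side c x y z u → g u = 0 := fun u hu => by simp only [hg, hu, if_true]
  have k1 : ∀ u, Side c y z x u → g u = 1 := fun u hu => by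
    simp only [hg, x01 u hu, hu, if_true, if_false]
  have k2 : ∀ u, Side c z x y u → g u = 2 := fun u hu => by
    simp only [hg, x02 u hu, x12 u hu, if_false]
  refine ⟨?_, ?_⟩
  · obtain ⟨a1, m1, h1⟩ := hC.wit h
    obtain ⟨a2, m2, h2⟩ := hC.rot.wit h
    obtain ⟨a0, m0, h0⟩ := hC.rot.rot.wit h
    intro i
    fin_cases i
    · exact ⟨x, hC.1, a0, m0, h0.1.symm, k0 _ (Or.inl rfl), k0 _ (Or.inr h0)⟩
    · exact ⟨y, hC.2.1, a1, m1, h1.1.symm, k1 _ (Or.inl rfl), k1 _ (Or.inr h1)⟩
    · exact ⟨z, hC.2.2.1, a2, m2, h2.1.symm, k2 _ (Or.inl rfl), k2 _ (Or.inr h2)⟩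
  · intro u v w hvu hwu hvw
    have hf : ∀ i : Fin 3, i = 0 ∨ i = 1 ∨ i = 2 := by decide
    have main : ∀ v, v ≠ u → (g u = 0 → c u v = if g v + 1 = g u then c u z else c u y) ∧
        (g u = 1 → c u v = if g v + 1 = g u then c u x else c u z) ∧
        (g u = 2 → c u v = if g v + 1 = g u then c u y else c u x) := by
      intro v hv
      refine ⟨fun hu => ?_, fun hu => ?_, fun hu => ?_⟩
      · have := hC.view h (g0 u hu) hv
        rw [hu]
        rcases hf (g v) with e | e | e
        · rw [e, this.1 (g0 v e), if_neg (by decide)]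
        · rw [e, this.2.1 (g1 v e), if_neg (by decide)]
        · rw [e, this.2.2 (g2 v e), if_pos (by decide)]
      · have := hC.rot.view h (g1 u hu) hv
        rw [hu]
        rcases hf (g v) with e | e | e
        · rw [e, this.2.2 (g0 v e), if_pos (by decide)]
        · rw [e, this.1 (g1 v e), if_neg (by decide)]
        · rw [e, this.2.1 (g2 v e), if_neg (by decide)]
      · have := hC.rot.rot.view h (g2 u hu) hv
        rw [hu]
        rcases hf (g v) with e | e | e
        · rw [e, this.2.1 (g0 v e), if_neg (by decide)]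
        · rw [e, this.2.2 (g1 v e), if_pos (by decide)]
        · rw [e, this.1 (g2 v e), if_neg (by decide)]
    rcases hf (g u) with e | e | e
    · rw [(main v hvu).1 e, (main w hwu).1 e, if_congr hvw rfl rfl]
    · rw [(main v hvu).2.1 e, (main w hwu).2.1 e, if_congr hvw rfl rfl]
    · rw [(main v hvu).2.2 e, (main w hwu).2.2 e, if_congr hvw rfl rfl]

theorem Cyc.std (h : Cov c) {x y z : V} (hC : Cyc c S x y z) :
    ∃ g : V → Fin 3, (∀ i, ∃ a ∈ S, ∃ b ∈ S, a ≠ b ∧ g a = i ∧ g b = i) ∧ Std c g :=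
  ⟨sideFn c x y z, hC.std' h⟩

end Pool.Agent.DL
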